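import Pool.Agent.H13.Nev.Gauge

/-!
# Cartan's characteristic function
-/

namespace Pool.Agent.H13.Nev

open Set Filter Topology Real ValueDistribution MeromorphicOn Metric

/-- monotonicity of circle averages up to codiscrete sets -/
lemma circleAverage_mono_codiscrete {A B : ℂ → ℝ} {r : ℝ} (hr : r ≠ 0)
    (hA : CircleIntegrable A 0 r) (hB : CircleIntegrable B 0 r)
    (h : ∀ᶠ z in codiscreteWithin (sphere (0 : ℂ) |r|), A z ≤ B z) :
    circleAverage A 0 r ≤ circleAverage B 0 r := by
  have h1 : A =ᶠ[codiscreteWithin (sphere (0 : ℂ) |r|)] fun z => min (A z) (B z) := by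
    filter_upwards [h] with z hz
    rw [min_eq_left hz]
  rw [circleAverage_congr_codiscreteWithin h1 hr]
  exact circleAverage_mono (CircleIntegrable.congr_codiscreteWithin h1 hA) hB
    (fun z _ => min_le_right _ _)

lemma eventually_sphere {p : ℂ → Prop} (h : ∀ᶠ z in codiscrete ℂ, p z) (r : ℝ) :
    ∀ᶠ z in codiscreteWithin (sphere (0 : ℂ) |r|), p z :=
  h.filter_mono (codiscreteWithin_mono (subset_univ _))

lemma EN.mer (f : EN) : Meromorphic f.1 := fun z => (f.2.analyticAt z).meromorphicAt

lemma EN.ord {f : EN} (hf : f ≠ 0) (z : ℂ) : meromorphicOrderAt f.1 z ≠ ⊤ := by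
  rw [ne_eq, meromorphicOrderAt_eq_top_iff]
  intro h
  obtain ⟨w, h1, h2⟩ := (h.and (EN.eventually_nhdsNE hf z)).exists
  exact h2 h1

lemma EN.divisor_nonneg (f : EN) : 0 ≤ divisor f.1 univ :=
  AnalyticOnNhd.divisor_nonneg fun z _ => f.2.analyticAt z

lemma EN.logCounting_top (f : EN) : logCounting f.1 ⊤ = 0 := by
  rw [ValueDistribution.logCounting_top, negPart_eq_zero.mpr (EN.divisor_nonneg f), map_zero]

/-- Jensen's formula for entire functions -/
lemma EN.jensen (f : EN) {r : ℝ} (hr : r ≠ 0) : circleAverage (fun z => log ‖f.1 z‖) 0 r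
    = logCounting f.1 0 r + log ‖meromorphicTrailingCoeffAt f.1 0‖ := by
  have h1 := logCounting_zero_sub_logCounting_top_eq_circleAverage_sub_const (EN.mer f) hr
  rw [EN.logCounting_top f, sub_zero] at h1
  rw [h1]
  ring

/-- the vector-valued function -/
def vec {k : ℕ} (u : Fin k → EN) (z : ℂ) : Fin k → ℂ := fun j => (u j).1 z

lemma vec_diff {k : ℕ} (u : Fin k → EN) : Differentiable ℂ (vec u) :=
  differentiable_pi.mpr fun j => (u j).2

lemma vec_int {k : ℕ} (u : Fin k → EN) (r : ℝ) :
    CircleIntegrable (fun z => log ‖vec u z‖) 0 r :=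
  MeromorphicOn.circleIntegrable_log_norm (f := vec u)
    fun z _ => ((vec_diff u).analyticAt z).meromorphicAt

lemma EN.int (f : EN) (r : ℝ) : CircleIntegrable (fun z => log ‖f.1 z‖) 0 r :=
  MeromorphicOn.circleIntegrable_log_norm (f := f.1) (EN.mer f).meromorphicOn

/-- Cartan's characteristic function -/
noncomputable def TC {k : ℕ} (u : Fin k → EN) (r : ℝ) : ℝ :=
  circleAverage (fun z => log ‖vec u z‖) 0 r

lemma io_div_rep (a b : EN) (hb : b ≠ 0) :
    ∀ᶠ z in codiscrete ℂ, rep (io a / io b) z = (a.1 / b.1) z := rep_frac a b hb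

lemma divisor_div {a b : EN} (ha : a ≠ 0) (hb : b ≠ 0) :
    divisor (a.1 / b.1) univ = divisor a.1 univ - divisor b.1 univ := by
  rw [div_eq_mul_inv, divisor_mul (EN.mer a).meromorphicOn (EN.mer b).inv.meromorphicOn
    (fun z _ => EN.ord ha z) (fun z _ => by
      rw [meromorphicOrderAt_inv]
      intro h
      apply EN.ord hb z
      have := congrArg (fun t => -t) h
      simpa using this), divisor_inv, sub_eq_add_neg]

lemma logCounting_quot_le (a : EN) {b : EN} (hb : b ≠ 0) {r : ℝ} (hr : 1 ≤ r) :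
    logCounting (a.1 / b.1) ⊤ r ≤ logCounting b.1 0 r := by
  by_cases ha : a = 0
  · have h1 : a.1 / b.1 = fun _ => 0 := by
      rw [ha]
      funext z
      show (0 : ℂ) / _ = 0
      rw [zero_div]
    rw [h1, logCounting_const]
    exact logCounting_nonneg hr
  · rw [ValueDistribution.logCounting_top, logCounting_zero]
    apply Function.locallyFinsuppWithin.logCounting_le _ hr
    rw [divisor_div ha hb]
    intro z
    rw [Function.locallyFinsuppWithin.negPart_apply, Function.locallyFinsuppWithin.posPart_apply,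
      Function.locallyFinsuppWithin.coe_sub, Pi.sub_apply]
    have h1 : (0 : ℤ) ≤ divisor a.1 univ z := EN.divisor_nonneg a z
    have h2 : (0 : ℤ) ≤ divisor b.1 univ z := EN.divisor_nonneg b z
    rw [posPart_eq_self.mpr h2, negPart_def]
    apply sup_le _ h2
    linarith

/-- the characteristic of a quotient of coordinates -/
lemma T_quot_le {k : ℕ} (u : Fin k → EN) (i j : Fin k) (hj : u j ≠ 0) :
    ∃ C : ℝ, 0 ≤ C ∧ ∀ r, 1 ≤ r → T (io (u i) / io (u j)) r ≤ TC u r + C := by
  refine ⟨|log ‖meromorphicTrailingCoeffAt (u j).1 0‖|, abs_nonneg _, ?_⟩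
  intro r hr
  have hr0 : r ≠ 0 := by linarith
  rw [T_congr (io_div_rep _ _ hj) hr, characteristic, Pi.add_apply]
  have hJ := EN.jensen (u j) hr0
  have hc := logCounting_quot_le (u i) hj hr
  have hmer : Meromorphic ((u i).1 / (u j).1) := (EN.mer (u i)).div (EN.mer (u j))
  have hp : proximity ((u i).1 / (u j).1) ⊤ r
      ≤ TC u r - circleAverage (fun z => log ‖(u j).1 z‖) 0 r := by
    rw [proximity_top, TC, ← circleAverage_fun_sub (vec_int u r) (EN.int (u j) r)]
    apply circleAverage_mono_codiscrete hr0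
    · exact hmer.meromorphicOn.circleIntegrable_posLog_norm
    · exact (vec_int u r).sub (EN.int (u j) r)
    · filter_upwards [eventually_sphere (EN.eventually_ne hj) r] with z hz
      have h1 : 0 < ‖(u j).1 z‖ := norm_pos_iff.mpr hz
      have h2 : ‖(u j).1 z‖ ≤ ‖vec u z‖ := norm_le_pi_norm (vec u z) j
      have h3 : ‖(u i).1 z‖ ≤ ‖vec u z‖ := norm_le_pi_norm (vec u z) i
      have h4 : 0 < ‖vec u z‖ := lt_of_lt_of_le h1 h2
      rw [Pi.div_apply, norm_div, ← Real.log_div h4.ne' h1.ne', posLog_apply]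
      apply max_le
      · exact Real.log_nonneg ((one_le_div h1).mpr h2)
      · by_cases h5 : ‖(u i).1 z‖ = 0
        · rw [h5, zero_div, Real.log_zero]
          exact Real.log_nonneg ((one_le_div h1).mpr h2)
        · apply Real.log_le_log (div_pos (lt_of_le_of_ne (norm_nonneg _) (Ne.symm h5)) h1)
          exact div_le_div_of_nonneg_right h3 h1.le
  have := neg_abs_le (log ‖meromorphicTrailingCoeffAt (u j).1 0‖)
  linarith

/-- Cartan's characteristic is bounded below -/
lemma TC_ge {k : ℕ} (u : Fin k → EN) (j : Fin k) (hj : u j ≠ 0) {r : ℝ} (hr : 1 ≤ r) :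
    logCounting (u j).1 0 r + log ‖meromorphicTrailingCoeffAt (u j).1 0‖ ≤ TC u r := by
  have hr0 : r ≠ 0 := by linarith
  rw [← EN.jensen (u j) hr0, TC]
  apply circleAverage_mono_codiscrete hr0 (EN.int (u j) r) (vec_int u r)
  filter_upwards [eventually_sphere (EN.eventually_ne hj) r] with z hz
  exact Real.log_le_log (norm_pos_iff.mpr hz) (norm_le_pi_norm (vec u z) j)

/-- the zeros of a coordinate of a zero-free vector -/
lemma divisor_le_sum {k : ℕ} (u : Fin k → EN) (hu : ∀ z, vec u z ≠ 0) (j : Fin k)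
    (hj : u j ≠ 0) : (divisor (u j).1 univ)⁺ ≤ ∑ i, (divisor ((u i).1 / (u j).1) univ)⁻ := by
  intro z
  have hsum : (∑ i, (divisor ((u i).1 / (u j).1) univ)⁻) z
      = ∑ i, ((divisor ((u i).1 / (u j).1) univ)⁻ z) := by
    have : ∀ s : Finset (Fin k), (∑ i ∈ s, (divisor ((u i).1 / (u j).1) univ)⁻) z
      = ∑ i ∈ s, ((divisor ((u i).1 / (u j).1) univ)⁻ z) := by
      classical
      intro s
      induction s using Finset.induction_on with
      | empty => simp
      | insert a s ha ih =>
        rw [Finset.sum_insert ha, Finset.sum_insert ha, Function.locallyFinsuppWithin.coe_add,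
          Pi.add_apply, ih]
    exact this Finset.univ
  rw [hsum, Function.locallyFinsuppWithin.posPart_apply]
  have hnn : ∀ i, (0 : ℤ) ≤ (divisor ((u i).1 / (u j).1) univ)⁻ z := by
    intro i
    rw [Function.locallyFinsuppWithin.negPart_apply]
    exact negPart_nonneg _
  obtain ⟨i, hi⟩ : ∃ i, (u i).1 z ≠ 0 := by
    by_contra hcon
    push Not at hcon
    exact hu z (funext hcon)
  have hi0 : u i ≠ 0 := by
    rintro h0
    apply hi
    rw [h0]; rfl
  refine le_trans ?_ (Finset.single_le_sum (fun i _ => hnn i) (Finset.mem_univ i))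
  rw [Function.locallyFinsuppWithin.negPart_apply, divisor_div hi0 hj,
    Function.locallyFinsuppWithin.coe_sub, Pi.sub_apply]
  have h1 : divisor (u i).1 univ z = 0 := by
    rw [divisor_apply (EN.mer (u i)).meromorphicOn (mem_univ z),
      ((u i).2.analyticAt z).meromorphicOrderAt_eq,
      ((u i).2.analyticAt z).analyticOrderAt_eq_zero.mpr hi]
    rfl
  rw [h1, zero_sub, negPart_neg]

/-- Cartan's characteristic is bounded by the characteristics of the quotients -/
lemma TC_le {k : ℕ} (u : Fin k → EN) (hu : ∀ z, vec u z ≠ 0) (j : Fin k) (hj : u j ≠ 0) :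
    ∃ C : ℝ, 0 ≤ C ∧ ∀ r, 1 ≤ r → TC u r ≤ ∑ i, T (io (u i) / io (u j)) r + C := by
  refine ⟨|log ‖meromorphicTrailingCoeffAt (u j).1 0‖|, abs_nonneg _, ?_⟩
  intro r hr
  have hr0 : r ≠ 0 := by linarith
  have hJ := EN.jensen (u j) hr0
  have hmer : ∀ i, Meromorphic ((u i).1 / (u j).1) := fun i => (EN.mer (u i)).div (EN.mer (u j))
  have hTi : ∀ i, T (io (u i) / io (u j)) r = proximity ((u i).1 / (u j).1) ⊤ r
      + logCounting ((u i).1 / (u j).1) ⊤ r := by
    intro i
    rw [T_congr (io_div_rep _ _ hj) hr, characteristic, Pi.add_apply]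
  have hcount : logCounting (u j).1 0 r ≤ ∑ i, logCounting ((u i).1 / (u j).1) ⊤ r := by
    have h1 : ∑ i, logCounting ((u i).1 / (u j).1) ⊤ r
        = Function.locallyFinsuppWithin.logCounting
          (∑ i, (divisor ((u i).1 / (u j).1) univ)⁻) r := by
      rw [map_sum, Finset.sum_apply]
      rfl
    rw [h1, logCounting_zero]
    exact Function.locallyFinsuppWithin.logCounting_le (divisor_le_sum u hu j hj) hr
  have hpi : ∀ i ∈ (Finset.univ : Finset (Fin k)),
      CircleIntegrable (fun z => log⁺ ‖((u i).1 / (u j).1) z‖) 0 r := fun i _ =>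
    (hmer i).meromorphicOn.circleIntegrable_posLog_norm
  have hprox : TC u r ≤ circleAverage (fun z => log ‖(u j).1 z‖) 0 r
      + ∑ i, proximity ((u i).1 / (u j).1) ⊤ r := by
    have h1 : ∑ i, proximity ((u i).1 / (u j).1) ⊤ r
        = circleAverage (fun z => ∑ i, log⁺ ‖((u i).1 / (u j).1) z‖) 0 r := by
      rw [circleAverage_fun_sum hpi]
      apply Finset.sum_congr rfl
      intro i _
      rw [proximity_top]
    rw [h1, TC, ← circleAverage_fun_add (EN.int (u j) r) (CircleIntegrable.fun_sum _ hpi)]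
    apply circleAverage_mono_codiscrete hr0 (vec_int u r)
    · exact (EN.int (u j) r).add (CircleIntegrable.fun_sum _ hpi)
    · filter_upwards [eventually_sphere (EN.eventually_ne hj) r] with z hz
      have h1 : 0 < ‖(u j).1 z‖ := norm_pos_iff.mpr hz
      have h2 : ‖(u j).1 z‖ ≤ ‖vec u z‖ := norm_le_pi_norm (vec u z) j
      have h4 : 0 < ‖vec u z‖ := lt_of_lt_of_le h1 h2
      have h5 : ‖vec u z‖ / ‖(u j).1 z‖
          ≤ Real.exp (∑ i, log⁺ ‖((u i).1 / (u j).1) z‖) := by
        rw [div_le_iff₀ h1, pi_norm_le_iff_of_nonneg (by positivity)]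
        intro i
        have h6 : ‖(u i).1 z‖ / ‖(u j).1 z‖
            ≤ Real.exp (∑ i, log⁺ ‖((u i).1 / (u j).1) z‖) := by
          have h7 : log⁺ ‖((u i).1 / (u j).1) z‖ ≤ ∑ i, log⁺ ‖((u i).1 / (u j).1) z‖ :=
            Finset.single_le_sum (f := fun i => log⁺ ‖((u i).1 / (u j).1) z‖)
              (fun i _ => posLog_nonneg) (Finset.mem_univ i)
          refine le_trans ?_ (Real.exp_le_exp.mpr h7)
          rw [Pi.div_apply, norm_div, posLog_eq_log_max_one (by positivity),
            Real.exp_log (by positivity)]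
          exact le_max_right _ _
        exact (div_le_iff₀ h1).mp h6
      have h6 : log (‖vec u z‖ / ‖(u j).1 z‖) ≤ ∑ i, log⁺ ‖((u i).1 / (u j).1) z‖ := by
        rw [← Real.log_exp (∑ i, log⁺ ‖((u i).1 / (u j).1) z‖)]
        exact Real.log_le_log (by positivity) h5
      rw [Real.log_div h4.ne' h1.ne'] at h6
      linarith
  simp only [hTi]
  rw [Finset.sum_add_distrib]
  have := le_abs_self (log ‖meromorphicTrailingCoeffAt (u j).1 0‖)
  linarith

end Pool.Agent.H13.Nev
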