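import Mathlib

/-!
# Vanishing sums in a differential field with a filtration
-/

namespace Pool.Agent.H13.Nev

/-- a filtration by size on a field with a derivation -/
structure Filt (K : Type*) [Field K] (D : K → K) (B : ℕ → Set K) : Prop where
  dadd : ∀ x y, D (x + y) = D x + D y
  dmul : ∀ x y, D (x * y) = x * D y + D x * y
  mono : ∀ {m n}, m ≤ n → B m ⊆ B n
  add : ∀ {m n x y}, x ∈ B m → y ∈ B n → x + y ∈ B (m + n)
  mul : ∀ {m n x y}, x ∈ B m → y ∈ B n → x * y ∈ B (m + n)
  neg : ∀ {m x}, x ∈ B m → -x ∈ B m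
  inv : ∀ {m x}, x ∈ B m → x⁻¹ ∈ B m
  der : ∀ {m x}, x ∈ B m → D x ∈ B (3 * m)
  const : ∀ {x}, D x = 0 → x ∈ B 0
  root : ∀ {m n x}, n ≠ 0 → x ^ n ∈ B m → x ∈ B m

section

variable {K ι : Type*} [Field K] {D : K → K} {B : ℕ → Set K}

lemma Filt.sub (h : Filt K D B) {m n : ℕ} {x y : K} (hx : x ∈ B m) (hy : y ∈ B n) :
    x - y ∈ B (m + n) := by
  rw [sub_eq_add_neg]
  exact h.add hx (h.neg hy)

lemma Filt.div (h : Filt K D B) {m n : ℕ} {x y : K} (hx : x ∈ B m) (hy : y ∈ B n) :
    x / y ∈ B (m + n) := by
  rw [div_eq_mul_inv]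
  exact h.mul hx (h.inv hy)

lemma Filt.dzero (h : Filt K D B) : D 0 = 0 := by
  have := h.dadd 0 0
  simpa using this

lemma Filt.dsum (h : Filt K D B) (s : Finset ι) (f : ι → K) :
    D (∑ i ∈ s, f i) = ∑ i ∈ s, D (f i) := by
  classical
  induction s using Finset.induction_on with
  | empty => simp [h.dzero]
  | insert a s ha ih => rw [Finset.sum_insert ha, Finset.sum_insert ha, h.dadd, ih]

lemma Filt.done (h : Filt K D B) : D 1 = 0 := by
  have := h.dmul 1 1
  rw [mul_one, one_mul, mul_one] at this
  linear_combination -this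

lemma Filt.zero_mem (h : Filt K D B) (m : ℕ) : (0 : K) ∈ B m :=
  h.mono (Nat.zero_le m) (h.const h.dzero)

lemma Filt.one_mem (h : Filt K D B) (m : ℕ) : (1 : K) ∈ B m :=
  h.mono (Nat.zero_le m) (h.const h.done)

lemma Filt.pow (h : Filt K D B) {m : ℕ} {x : K} (hx : x ∈ B m) (n : ℕ) : x ^ n ∈ B (n * m) := by
  induction n with
  | zero => simpa using h.one_mem 0
  | succ n ih =>
    rw [pow_succ, Nat.succ_mul]
    exact h.mul ih hx

lemma Filt.sum (h : Filt K D B) {m : ℕ} (s : Finset ι) (f : ι → K) (hf : ∀ i ∈ s, f i ∈ B m) :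
    ∑ i ∈ s, f i ∈ B (s.card * m) := by
  classical
  induction s using Finset.induction_on with
  | empty => simpa using h.zero_mem 0
  | insert a s ha ih =>
    rw [Finset.sum_insert ha, Finset.card_insert_of_notMem ha, add_comm s.card 1, add_mul, one_mul]
    exact h.add (hf a (Finset.mem_insert_self _ _))
      (ih fun i hi => hf i (Finset.mem_insert_of_mem hi))

lemma Filt.dinv (h : Filt K D B) {x : K} (hx : x ≠ 0) : D x⁻¹ = -(D x / x ^ 2) := by
  have h1 := h.dmul x x⁻¹
  rw [mul_inv_cancel₀ hx, h.done] at h1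
  field_simp
  field_simp at h1
  linear_combination -h1

lemma Filt.ddiv (h : Filt K D B) {x y : K} (hy : y ≠ 0) :
    D (x / y) = (D x * y - x * D y) / y ^ 2 := by
  rw [div_eq_mul_inv, h.dmul, h.dinv hy]
  field_simp
  ring

/-- A vanishing sum of at least one term has two terms whose quotient is small. -/
lemma exists_near (K : Type*) (ι : Type*) [Field K] (D : K → K) : ∀ m b : ℕ, ∃ c : ℕ, b ≤ c ∧
    ∀ (B : ℕ → Set K), Filt K D B → ∀ (I : Finset ι), I.card = m + 1 → ∀ (A u : ι → K),
    (∀ i ∈ I, A i ≠ 0 ∧ A i ∈ B b ∧ u i ≠ 0 ∧ D (u i) / u i ∈ B b) →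
    ∑ i ∈ I, A i * u i = 0 → ∃ i ∈ I, ∃ j ∈ I, i ≠ j ∧ u i / u j ∈ B c := by
  classical
  intro m
  induction m with
  | zero =>
    intro b
    refine ⟨b, le_rfl, fun B h I hI A u hA hsum => ?_⟩
    obtain ⟨i, hi⟩ := Finset.card_eq_one.mp hI
    subst hi
    rw [Finset.sum_singleton] at hsum
    have := hA i (Finset.mem_singleton_self i)
    exact absurd hsum (mul_ne_zero this.1 this.2.2.1)
  | succ m ih =>
    intro b
    obtain ⟨c, hbc, hc⟩ := ih (12 * b)
    refine ⟨c, by omega, fun B h I hI A u hA hsum => ?_⟩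
    obtain ⟨k, hk⟩ : I.Nonempty := by
      rw [← Finset.card_pos, hI]; omega
    set l : ι → K := fun i => D (u i) / u i with hl
    have hlu : ∀ i ∈ I, D (u i) = l i * u i := by
      intro i hi
      simp only [hl]
      rw [div_mul_cancel₀ _ (hA i hi).2.2.1]
    set E : ι → K := fun i => (A k * D (A i) - D (A k) * A i) + A k * A i * (l i - l k) with hE
    have hEu : ∀ i ∈ I, E i * u i = A k * D (A i * u i)
        - (D (A k) + A k * l k) * (A i * u i) := by
      intro i hi
      simp only [hE]
      rw [h.dmul, hlu i hi]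
      ring
    have hEsum : ∑ i ∈ I.erase k, E i * u i = 0 := by
      have h1 : ∑ i ∈ I, E i * u i = 0 := by
        rw [Finset.sum_congr rfl hEu, Finset.sum_sub_distrib, ← Finset.mul_sum, ← Finset.mul_sum,
          hsum, ← h.dsum, hsum, h.dzero]
        simp
      rw [← Finset.add_sum_erase _ _ hk] at h1
      have h2 : E k = 0 := by simp only [hE]; ring
      rw [h2, zero_mul, zero_add] at h1
      exact h1
    by_cases hz : ∃ i ∈ I.erase k, E i = 0
    · obtain ⟨i, hi, hEi⟩ := hz
      have hi' := Finset.mem_of_mem_erase hi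
      refine ⟨i, hi', k, hk, Finset.ne_of_mem_erase hi, ?_⟩
      obtain ⟨h1, h2, h3, h4⟩ := hA i hi'
      obtain ⟨h5, h6, h7, h8⟩ := hA k hk
      have hconst : D ((A i * u i) / (A k * u k)) = 0 := by
        rw [h.ddiv (mul_ne_zero h5 h7)]
        have h9 : D (A i * u i) * (A k * u k) - (A i * u i) * D (A k * u k) = 0 := by
          have h10 := hEu i hi'
          rw [hEi, zero_mul] at h10
          rw [h.dmul (A k) (u k), hlu k hk]
          linear_combination (-u k) * h10
        rw [h9, zero_div]
      have h11 : u i / u k = ((A i * u i) / (A k * u k)) * (A k / A i) := by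
        field_simp
      rw [h11]
      apply h.mono _ (h.mul (h.const hconst) (h.div h6 h2))
      omega
    · push Not at hz
      obtain ⟨i, hi, j, hj, hij, hnear⟩ := hc B h (I.erase k)
        (by rw [Finset.card_erase_of_mem hk, hI]; rfl) E u (by
          intro i hi
          have hi' := Finset.mem_of_mem_erase hi
          obtain ⟨h1, h2, h3, h4⟩ := hA i hi'
          obtain ⟨h5, h6, h7, h8⟩ := hA k hk
          refine ⟨hz i hi, ?_, h3, h.mono (by omega) h4⟩
          simp only [hE]
          apply h.mono _ (h.add (h.sub (h.mul h6 (h.der h2)) (h.mul (h.der h6) h2))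
            (h.mul (h.mul h6 h2) (h.sub h4 h8)))
          omega) hEsum
      exact ⟨i, Finset.mem_of_mem_erase hi, j, Finset.mem_of_mem_erase hj, hij, hnear⟩

/-- Sums over the classes of a weight which is constant on nearby terms vanish. -/
lemma weight_classes (K : Type*) (ι : Type*) [Field K] (D : K → K) : ∀ m b : ℕ, ∃ c : ℕ,
    ∀ (B : ℕ → Set K), Filt K D B → ∀ (I : Finset ι), I.card = m → ∀ (A u : ι → K),
    (∀ i ∈ I, A i ∈ B b ∧ u i ≠ 0 ∧ D (u i) / u i ∈ B b) →
    ∑ i ∈ I, A i * u i = 0 → ∀ a : ι → ℕ,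
    (∀ i ∈ I, ∀ j ∈ I, u i / u j ∈ B c → a i = a j) →
    ∀ w : ℕ, ∑ i ∈ I with a i = w, A i * u i = 0 := by
  classical
  intro m
  induction m with
  | zero =>
    intro b
    refine ⟨0, fun B h I hI A u _ _ a _ w => ?_⟩
    rw [Finset.card_eq_zero] at hI
    subst hI
    simp
  | succ m ih =>
    intro b
    obtain ⟨c₁, hbc₁, hc₁⟩ := exists_near K ι D m b
    obtain ⟨c₂, hc₂⟩ := ih b
    obtain ⟨c₃, hc₃⟩ := ih (b + (b + c₁))
    refine ⟨max c₂ (max c₁ c₃), fun B h I hI A u hA hsum a ha w => ?_⟩
    by_cases hz : ∃ i ∈ I, A i = 0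
    · obtain ⟨i, hi, hAi⟩ := hz
      have hsum' : ∑ k ∈ I.erase i, A k * u k = 0 := by
        rw [← Finset.add_sum_erase _ _ hi, hAi, zero_mul, zero_add] at hsum
        exact hsum
      have h1 := hc₂ B h (I.erase i) (by rw [Finset.card_erase_of_mem hi, hI]; rfl) A u
        (fun k hk => hA k (Finset.mem_of_mem_erase hk)) hsum' a
        (fun k hk l hl hkl => ha k (Finset.mem_of_mem_erase hk) l (Finset.mem_of_mem_erase hl)
          (h.mono (le_max_left _ _) hkl)) w
      rw [← h1, Finset.filter_erase]
      symm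
      apply Finset.sum_erase
      rw [hAi, zero_mul]
    · push Not at hz
      obtain ⟨i, hi, j, hj, hij, hnear⟩ := hc₁ B h I hI A u (fun k hk => ⟨hz k hk, hA k hk⟩) hsum
      have haij : a i = a j := ha i hi j hj
        (h.mono (le_max_of_le_right (le_max_left _ _)) hnear)
      -- merge `i` into `j`
      set A' : ι → K := Function.update A j (A j + A i * (u i / u j)) with hA'
      have hjj : A' j * u j = A j * u j + A i * u i := by
        simp only [hA', Function.update_self]
        have := (hA j hj).2.1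
        field_simp
      have hother : ∀ k, k ≠ j → A' k * u k = A k * u k := by
        intro k hk
        simp only [hA', Function.update_of_ne hk]
      have hjI : j ∈ I.erase i := Finset.mem_erase.mpr ⟨hij.symm, hj⟩
      have hsum' : ∑ k ∈ I.erase i, A' k * u k = 0 := by
        rw [← Finset.add_sum_erase _ _ hjI, hjj]
        rw [← Finset.add_sum_erase _ _ hi, ← Finset.add_sum_erase _ _ hjI] at hsum
        rw [Finset.sum_congr rfl (fun k hk => hother k (Finset.ne_of_mem_erase hk))]
        linear_combination hsum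
      have h1 := hc₃ B h (I.erase i) (by rw [Finset.card_erase_of_mem hi, hI]; rfl) A' u
        (by
          intro k hk
          have hk' := Finset.mem_of_mem_erase hk
          obtain ⟨h2, h3, h4⟩ := hA k hk'
          refine ⟨?_, h3, h.mono (by omega) h4⟩
          by_cases hkj : k = j
          · subst hkj
            simp only [hA', Function.update_self]
            exact h.add h2 (h.mul (hA i hi).1 hnear)
          · simp only [hA', Function.update_of_ne hkj]
            exact h.mono (by omega) h2) hsum' a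
        (fun k hk l hl hkl => ha k (Finset.mem_of_mem_erase hk) l (Finset.mem_of_mem_erase hl)
          (h.mono (le_max_of_le_right (le_max_right _ _)) hkl)) w
      rw [← h1, Finset.filter_erase]
      by_cases hw : a j = w
      · have hif : i ∈ I.filter (fun k => a k = w) := Finset.mem_filter.mpr ⟨hi, by rw [haij, hw]⟩
        have hjf : j ∈ (I.filter (fun k => a k = w)).erase i :=
          Finset.mem_erase.mpr ⟨hij.symm, Finset.mem_filter.mpr ⟨hj, hw⟩⟩
        rw [← Finset.add_sum_erase _ _ hif, ← Finset.add_sum_erase _ _ hjf,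
          ← Finset.add_sum_erase _ _ hjf, hjj,
          Finset.sum_congr rfl (fun k hk => hother k (Finset.ne_of_mem_erase hk))]
        ring
      · have hif : i ∉ I.filter (fun k => a k = w) := by
          intro h2
          apply hw
          rw [← haij]
          exact (Finset.mem_filter.mp h2).2
        rw [Finset.erase_eq_of_notMem hif]
        apply Finset.sum_congr rfl
        intro k hk
        rw [hother]
        rintro rfl
        exact hw (Finset.mem_filter.mp hk).2

end

end Pool.Agent.H13.Nev
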