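import Pool.Agent.H13.Nev.Gauge
import Pool.Agent.H13.Kob.Few

/-!
# The polynomial `F(∑ s_j q_j)` and the size of its coefficients
-/

namespace Pool.Agent.H13.Nev

open MvPolynomial Pool.Agent.H13.Kob Pool.Agent.H13.CEV

section

variable {N k d : ℕ} {R : Type*} [CommRing R] [Algebra ℂ R]

/-- the polynomial `F(∑ s_j q_j)` in `s` -/
noncomputable def GR (F : MvPolynomial (Fin N) ℂ) (q : Fin k → Fin N → R) :
    MvPolynomial (Fin k) R :=
  eval₂ (C.comp (algebraMap ℂ R)) (fun i => ∑ j, X j * C (q j i)) F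

lemma GR_homog {F : MvPolynomial (Fin N) ℂ} (hF : F.IsHomogeneous d)
    (q : Fin k → Fin N → R) : (GR F q).IsHomogeneous d := by
  have h2 := hF.eval₂ (C.comp (algebraMap ℂ R))
    (fun i => ∑ j, (X j : MvPolynomial (Fin k) R) * C (q j i)) (n := 1)
    (fun r => isHomogeneous_C _ _) (by
      intro i
      apply IsHomogeneous.sum
      intro j _
      have := (isHomogeneous_X R j).mul (isHomogeneous_C (Fin k) (q j i))
      simpa using this)
  rw [one_mul] at h2
  exact h2

lemma GR_supp {F : MvPolynomial (Fin N) ℂ} (hF : F.IsHomogeneous d)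
    (q : Fin k → Fin N → R) {α : Fin k →₀ ℕ} (hα : α ∈ (GR F q).support) : α ∈ mons k d := by
  have h1 := GR_homog hF q (mem_support_iff.mp hα)
  rw [mem_mons, ← h1, Finsupp.weight_apply, Finsupp.sum_fintype]
  · simp
  · simp

lemma GR_eval₂ (F : MvPolynomial (Fin N) ℂ) (q : Fin k → Fin N → R) {S : Type*} [CommRing S]
    (φ : R →+* S) (s : Fin k → S) :
    eval₂ (φ.comp (algebraMap ℂ R)) (fun i => ∑ j, s j * φ (q j i)) F
      = ∑ α ∈ (GR F q).support, φ ((GR F q).coeff α) * ∏ j, s j ^ α j := by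
  have h1 : eval₂ φ s (GR F q)
      = ∑ α ∈ (GR F q).support, φ ((GR F q).coeff α) * ∏ j, s j ^ α j := by
    rw [eval₂_eq']
  rw [← h1, GR, ← coe_eval₂Hom, ← coe_eval₂Hom, ← coe_eval₂Hom, ← RingHom.comp_apply]
  have h2 : (eval₂Hom φ s).comp
      (eval₂Hom (C.comp (algebraMap ℂ R)) (fun i => ∑ j, X j * C (q j i)))
      = (eval₂Hom (φ.comp (algebraMap ℂ R)) (fun i => ∑ j, s j * φ (q j i)) :
        MvPolynomial (Fin N) ℂ →+* S) := by
    apply MvPolynomial.ringHom_ext
    · intro r
      simp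
    · intro i
      simp
  rw [h2]

end

section

variable {N k d : ℕ}

/-- the size of the coefficients of a product of `m` linear forms -/
def bd (k : ℕ) : ℕ → ℕ
  | 0 => 0
  | (m + 1) => k * (1 + bd k m)

variable {B : ℕ → Set KN}

lemma bd_lin (h : Filt KN DK B) (q : Fin k → EN) (hq : ∀ j, io (q j) ∈ B 1) {b : ℕ}
    {P : MvPolynomial (Fin k) EN} (hP : ∀ α, io (coeff α P) ∈ B b) (α : Fin k →₀ ℕ) :
    io (coeff α ((∑ j, X j * C (q j)) * P)) ∈ B (k * (1 + b)) := by
  classical
  rw [Finset.sum_mul, coeff_sum, map_sum]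
  have h1 := h.sum (m := 1 + b) (Finset.univ : Finset (Fin k))
    (fun j => io (coeff α (X j * C (q j) * P))) (by
      intro j _
      rw [mul_assoc, coeff_X_mul']
      split_ifs with hj
      · rw [coeff_C_mul, map_mul]
        exact h.mul (hq j) (hP _)
      · rw [map_zero]
        exact h.zero_mem _)
  rw [Finset.card_univ, Fintype.card_fin] at h1
  exact h1

lemma bd_pow (h : Filt KN DK B) (q : Fin k → EN) (hq : ∀ j, io (q j) ∈ B 1) {m : ℕ}
    {P : MvPolynomial (Fin k) EN} (hP : ∀ α, io (coeff α P) ∈ B (bd k m)) (l : ℕ) :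
    ∀ α, io (coeff α ((∑ j, X j * C (q j)) ^ l * P)) ∈ B (bd k (l + m)) := by
  induction l with
  | zero =>
    intro α
    rw [pow_zero, one_mul, zero_add]
    exact hP α
  | succ l ih =>
    intro α
    rw [pow_succ', mul_assoc, Nat.succ_add]
    exact bd_lin h q hq ih α

lemma bd_prod (h : Filt KN DK B) (q : Fin k → Fin N → EN) (hq : ∀ j i, io (q j i) ∈ B 1)
    (β : Fin N →₀ ℕ) (s : Finset (Fin N)) :
    ∀ α, io (coeff α (∏ i ∈ s, (∑ j, X j * C (q j i) : MvPolynomial (Fin k) EN) ^ β i))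
      ∈ B (bd k (∑ i ∈ s, β i)) := by
  classical
  induction s using Finset.induction_on with
  | empty =>
    intro α
    rw [Finset.prod_empty, Finset.sum_empty, coeff_one]
    split_ifs
    · rw [map_one]; exact h.one_mem _
    · rw [map_zero]; exact h.zero_mem _
  | insert a s ha ih =>
    intro α
    rw [Finset.prod_insert ha, Finset.sum_insert ha]
    exact bd_pow h (fun j => q j a) (fun j => hq j a) ih (β a) α

lemma bd_GR (h : Filt KN DK B) (q : Fin k → Fin N → EN) (hq : ∀ j i, io (q j i) ∈ B 1)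
    (x : mons N d → ℂ) (α : Fin k →₀ ℕ) :
    io (coeff α (GR (Fm x) q)) ∈ B (Fintype.card (mons N d) * bd k d) := by
  classical
  have h1 : GR (Fm x) q = ∑ β : mons N d, C (algebraMap ℂ EN (x β)) *
      ∏ i, (∑ j, X j * C (q j i) : MvPolynomial (Fin k) EN) ^ β.1 i := by
    rw [GR, Fm, eval₂_sum]
    apply Finset.sum_congr rfl
    intro β _
    rw [eval₂_monomial, Finsupp.prod_fintype]
    · rfl
    · intro i; rw [pow_zero]
  rw [h1, coeff_sum, map_sum]
  have h2 := h.sum (m := bd k d) (Finset.univ : Finset (mons N d))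
    (fun β => io (coeff α (C (algebraMap ℂ EN (x β)) *
      ∏ i, (∑ j, X j * C (q j i) : MvPolynomial (Fin k) EN) ^ β.1 i))) (by
      intro β _
      rw [coeff_C_mul, map_mul, ← zero_add (bd k d)]
      apply h.mul
      · apply h.const
        rw [DK_io]
        have : dE (algebraMap ℂ EN (x β)) = 0 := by
          apply EN.ext'
          intro z
          show deriv (fun _ : ℂ => x β) z = 0
          simp
        rw [this, map_zero]
      · have h3 := bd_prod h q hq β.1 Finset.univ α
        rw [mem_mons.mp β.2] at h3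
        exact h3)
  rw [Finset.card_univ] at h2
  exact h2

end

end Pool.Agent.H13.Nev
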