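import Pool.Agent.H13.Nev.Coeff

/-!
# The algebraic core of the second main theorem
-/

namespace Pool.Agent.H13.Nev

open MvPolynomial Pool.Agent.H13.Kob Pool.Agent.H13.CEV

section

variable {N k d e : ℕ}

/-- torus orbits on good hypersurfaces -/
lemma torus_prop {x : mons N d → ℂ} (hx : Good e x)
    (he : ∀ a : Fin k → ℕ, ∃ b : Fin k → ℕ, SameType d a b ∧ ∀ j, b j ≤ e)
    (y : Fin k → Fin N → ℂ) (a : Fin k → ℕ)
    (hF : ∀ t : ℂ, eval (fun i => ∑ j, t ^ a j * y j i) (Fm x) = 0) (w w' : ℕ) (i i' : Fin N) :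
    (∑ j with a j = w, y j i) * (∑ j with a j = w', y j i')
      = (∑ j with a j = w, y j i') * (∑ j with a j = w', y j i) := by
  classical
  by_cases hw : ∃ j, a j = w
  swap
  · push Not at hw
    have h1 : ∀ i, ∑ j with a j = w, y j i = 0 := by
      intro i
      apply Finset.sum_eq_zero
      intro j hj
      exact absurd (Finset.mem_filter.mp hj).2 (hw j)
    rw [h1, h1, zero_mul, zero_mul]
  by_cases hw' : ∃ j, a j = w'
  swap
  · push Not at hw'
    have h1 : ∀ i, ∑ j with a j = w', y j i = 0 := by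
      intro i
      apply Finset.sum_eq_zero
      intro j hj
      exact absurd (Finset.mem_filter.mp hj).2 (hw' j)
    rw [h1, h1, mul_zero, mul_zero]
  obtain ⟨j, rfl⟩ := hw
  obtain ⟨l, rfl⟩ := hw'
  have hprop := grp_prop hx he (fun j z => (a j : ℂ) * z)
    (fun j => (differentiable_const _).mul differentiable_id) (fun j => by simp)
    (fun j i => Polynomial.C (y j i)) (by
      intro z
      rw [← hF (Complex.exp z)]
      congr 2
      funext i
      apply Finset.sum_congr rfl
      intro j _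
      rw [Polynomial.eval_C, Complex.exp_nat_mul]) j l i i'
  have hinj : ∀ j l : Fin k, (fun z : ℂ => (a j : ℂ) * z) = (fun z => (a l : ℂ) * z)
      ↔ a j = a l := by
    intro j l
    constructor
    · intro h
      have := congrFun h 1
      simp only [mul_one] at this
      exact_mod_cast this
    · intro h; rw [h]
  have hgrp : ∀ j i, grp (fun j z => (a j : ℂ) * z) (fun j i => Polynomial.C (y j i)) j i
      = Polynomial.C (∑ l with a l = a j, y l i) := by
    intro j i
    simp only [grp]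
    rw [map_sum]
    apply Finset.sum_congr _ (fun _ _ => rfl)
    ext k
    simp only [Finset.mem_filter]
    exact and_congr_right fun _ => hinj k j
  rw [hgrp, hgrp, hgrp, hgrp, ← map_mul, ← map_mul] at hprop
  exact Polynomial.C_injective hprop

lemma eval₂_Fm (x : mons N d → ℂ) {S : Type*} [CommRing S] (ψ : ℂ →+* S) (y : Fin N → S) :
    eval₂ ψ y (Fm x) = ∑ β : mons N d, ψ (x β) * ∏ i, y i ^ β.1 i := by
  rw [Fm, eval₂_sum]
  apply Finset.sum_congr rfl
  intro β _
  rw [eval₂_monomial, Finsupp.prod_fintype]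
  intro i; rw [pow_zero]

/-- evaluation at a point -/
def ev (z : ℂ) : EN →+* ℂ where
  toFun f := f.1 z
  map_one' := rfl
  map_mul' _ _ := rfl
  map_zero' := rfl
  map_add' _ _ := rfl

lemma ev_apply (z : ℂ) (f : EN) : ev z f = f.1 z := rfl

lemma ev_comp (z : ℂ) : (ev z).comp (algebraMap ℂ EN) = RingHom.id ℂ := by
  ext c; rfl

/-- the monomials which involve only the variables in `T` -/
noncomputable def II (x : mons N d → ℂ) (q : Fin k → Fin N → EN) (T : Finset (Fin k)) :
    Finset (Fin k →₀ ℕ) := by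
  classical
  exact (GR (Fm x) q).support.filter fun α => ∀ l ∉ T, α l = 0

lemma mem_II {x : mons N d → ℂ} {q : Fin k → Fin N → EN} {T : Finset (Fin k)}
    {α : Fin k →₀ ℕ} : α ∈ II x q T ↔ α ∈ (GR (Fm x) q).support ∧ ∀ l ∉ T, α l = 0 := by
  classical
  rw [II, Finset.mem_filter]

/-- the vanishing sum -/
lemma vanish {x : mons N d → ℂ} {f : Fin k → EN} {q : Fin k → Fin N → EN} {g : Fin N → EN}
    (hgF : ∀ z, eval (fun i => (g i).1 z) (Fm x) = 0) {T : Finset (Fin k)} {σ : KN}
    (hσ : ∀ i, ∑ j ∈ T, io (f j * q j i) = σ * io (g i)) :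
    ∑ α ∈ II x q T, io ((GR (Fm x) q).coeff α) * mon (fun j => io (f j)) α = 0 := by
  classical
  have h1 := GR_eval₂ (Fm x) q io (fun j => if j ∈ T then io (f j) else 0)
  have h2 : (fun i => ∑ j, (if j ∈ T then io (f j) else 0) * io (q j i))
      = fun i => σ * io (g i) := by
    funext i
    rw [← hσ i, ← Finset.sum_subset (Finset.subset_univ T)]
    · apply Finset.sum_congr rfl
      intro j hj
      rw [if_pos hj, map_mul]
    · intro j _ hj
      rw [if_neg hj, zero_mul]
  rw [h2] at h1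
  have h3 : eval₂ (io.comp (algebraMap ℂ EN)) (fun i => σ * io (g i)) (Fm x) = 0 := by
    rw [eval₂_Fm]
    have h4 : ∀ β : mons N d, (io.comp (algebraMap ℂ EN)) (x β) * ∏ i, (σ * io (g i)) ^ β.1 i
        = σ ^ d * io (algebraMap ℂ EN (x β) * ∏ i, g i ^ β.1 i) := by
      intro β
      simp only [mul_pow, Finset.prod_mul_distrib]
      rw [Finset.prod_pow_eq_pow_sum, mem_mons.mp β.2, map_mul, map_prod, RingHom.comp_apply]
      simp only [map_pow]
      ring
    rw [Finset.sum_congr rfl (fun β _ => h4 β), ← Finset.mul_sum, ← map_sum]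
    have h5 : ∑ β : mons N d, (algebraMap ℂ EN (x β) * ∏ i, g i ^ β.1 i) = 0 := by
      apply EN.ext'
      intro z
      have h6 := hgF z
      rw [eval_Fm] at h6
      rw [EN.zero_apply, ← h6]
      have h7 : ∀ u : EN, u.1 z = ev z u := fun u => rfl
      rw [h7, map_sum]
      apply Finset.sum_congr rfl
      intro β _
      rw [map_mul, map_prod]
      simp only [map_pow]
      rfl
    rw [h5, map_zero, mul_zero]
  rw [h3] at h1
  rw [h1]
  symm
  have h4 : ∀ α ∈ (GR (Fm x) q).support, α ∉ II x q T →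
      io ((GR (Fm x) q).coeff α) * ∏ j, (if j ∈ T then io (f j) else 0) ^ α j = 0 := by
    intro α hα hα'
    rw [mem_II] at hα'
    push Not at hα'
    obtain ⟨l, hl, hl'⟩ := hα' hα
    rw [Finset.prod_eq_zero (Finset.mem_univ l), mul_zero]
    rw [if_neg hl, zero_pow hl']
  rw [← Finset.sum_subset (s₁ := II x q T) (fun α hα => (mem_II.mp hα).1) h4]
  apply Finset.sum_congr rfl
  intro α hα
  congr 1
  apply Finset.prod_congr rfl
  intro j _
  by_cases hj : j ∈ T
  · rw [if_pos hj]
  · rw [(mem_II.mp hα).2 j hj, pow_zero, pow_zero]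

/-- torus orbits from vanishing class sums -/
lemma torus_of_classes {x : mons N d → ℂ} {f : Fin k → EN} {q : Fin k → Fin N → EN}
    {T : Finset (Fin k)} {a : Fin k → ℕ}
    (hcl : ∀ w : ℕ, ∑ α ∈ II x q T with nw a α = w,
      io ((GR (Fm x) q).coeff α) * mon (fun j => io (f j)) α = 0) (z t : ℂ) :
    eval (fun i => ∑ j, t ^ a j * (if j ∈ T then (f j).1 z * (q j i).1 z else 0)) (Fm x) = 0 := by
  classical
  have h1 := GR_eval₂ (Fm x) q (ev z) (fun j => t ^ a j * (if j ∈ T then (f j).1 z else 0))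
  rw [ev_comp] at h1
  have h2 : (fun i => ∑ j, t ^ a j * (if j ∈ T then (f j).1 z else 0) * ev z (q j i))
      = fun i => ∑ j, t ^ a j * (if j ∈ T then (f j).1 z * (q j i).1 z else 0) := by
    funext i
    apply Finset.sum_congr rfl
    intro j _
    rw [ev_apply]
    split_ifs
    · ring
    · ring
  rw [h2] at h1
  change eval₂ (RingHom.id ℂ) _ _ = 0
  rw [h1]
  have h4 : ∀ α ∈ (GR (Fm x) q).support, α ∉ II x q T →
      ev z ((GR (Fm x) q).coeff α)
        * ∏ j, (t ^ a j * (if j ∈ T then (f j).1 z else 0)) ^ α j = 0 := by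
    intro α hα hα'
    rw [mem_II] at hα'
    push Not at hα'
    obtain ⟨l, hl, hl'⟩ := hα' hα
    rw [Finset.prod_eq_zero (Finset.mem_univ l), mul_zero]
    rw [if_neg hl, mul_zero, zero_pow hl']
  rw [← Finset.sum_subset (s₁ := II x q T) (fun α hα => (mem_II.mp hα).1) h4]
  have h5 : ∀ α ∈ II x q T, ev z ((GR (Fm x) q).coeff α)
        * ∏ j, (t ^ a j * (if j ∈ T then (f j).1 z else 0)) ^ α j
      = ev z ((GR (Fm x) q).coeff α * ∏ j, f j ^ α j) * t ^ nw a α := by
    intro α hα
    rw [map_mul, map_prod]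
    simp only [mul_pow, Finset.prod_mul_distrib, map_pow]
    have h6 : ∏ j, (t ^ a j) ^ α j = t ^ nw a α := by
      rw [nw, ← Finset.prod_pow_eq_pow_sum]
      apply Finset.prod_congr rfl
      intro j _
      rw [← pow_mul, mul_comm]
    have h7 : ∏ j, (if j ∈ T then (f j).1 z else 0) ^ α j = ∏ j, (ev z (f j)) ^ α j := by
      apply Finset.prod_congr rfl
      intro j _
      by_cases hj : j ∈ T
      · rw [if_pos hj]; rfl
      · rw [(mem_II.mp hα).2 j hj, pow_zero, pow_zero]
    rw [h6, h7]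
    ring
  rw [Finset.sum_congr rfl h5, ← Finset.sum_fiberwise_of_maps_to (s := II x q T)
    (t := (II x q T).image (nw a)) (g := nw a) (fun α hα => Finset.mem_image_of_mem _ hα)]
  apply Finset.sum_eq_zero
  intro w _
  have h6 : ∑ α ∈ II x q T with nw a α = w,
      ev z ((GR (Fm x) q).coeff α * ∏ j, f j ^ α j) * t ^ nw a α
      = ev z (∑ α ∈ II x q T with nw a α = w, (GR (Fm x) q).coeff α * ∏ j, f j ^ α j) * t ^ w := by
    rw [map_sum, Finset.sum_mul]
    apply Finset.sum_congr rfl
    intro α hα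
    rw [(Finset.mem_filter.mp hα).2]
  have h7 : ∑ α ∈ II x q T with nw a α = w, (GR (Fm x) q).coeff α * ∏ j, f j ^ α j = 0 := by
    apply io_inj
    rw [map_sum, map_zero, ← hcl w]
    apply Finset.sum_congr rfl
    intro α _
    rw [map_mul, map_prod, mon]
    simp only [map_pow]
  rw [h6, h7, map_zero, zero_mul]

end

end Pool.Agent.H13.Nev
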