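import Pool.Agent.H13.Nev.LLD

/-!
# The field of quotients of entire functions
-/

namespace Pool.Agent.H13.Nev

open Set Filter Topology

/-- the algebra of entire functions -/
def EN : Subalgebra ℂ (ℂ → ℂ) where
  carrier := {f | Differentiable ℂ f}
  mul_mem' := fun hf hg => hf.mul hg
  add_mem' := fun hf hg => hf.add hg
  algebraMap_mem' := fun c => differentiable_const c

lemma EN.diff (f : EN) : Differentiable ℂ f.1 := f.2

lemma EN.mul_apply (f g : EN) (z : ℂ) : (f * g).1 z = f.1 z * g.1 z := rfl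
lemma EN.add_apply (f g : EN) (z : ℂ) : (f + g).1 z = f.1 z + g.1 z := rfl
lemma EN.sub_apply (f g : EN) (z : ℂ) : (f - g).1 z = f.1 z - g.1 z := rfl
lemma EN.zero_apply (z : ℂ) : (0 : EN).1 z = 0 := rfl
lemma EN.one_apply (z : ℂ) : (1 : EN).1 z = 1 := rfl
lemma EN.algebraMap_apply (c : ℂ) (z : ℂ) : (algebraMap ℂ EN c).1 z = c := rfl

lemma EN.ext' {f g : EN} (h : ∀ z, f.1 z = g.1 z) : f = g := Subtype.ext (funext h)

lemma EN.exists_ne {f : EN} (hf : f ≠ 0) : ∃ z, f.1 z ≠ 0 := by
  by_contra hcon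
  push Not at hcon
  exact hf (EN.ext' hcon)

/-- isolated zeros -/
lemma EN.eventually_nhdsNE {f : EN} (hf : f ≠ 0) (z : ℂ) : ∀ᶠ w in 𝓝[≠] z, f.1 w ≠ 0 := by
  rcases (f.2.analyticAt z).eventually_eq_zero_or_eventually_ne_zero with h | h
  · exfalso
    have hA : AnalyticOnNhd ℂ f.1 univ := fun z _ => f.2.analyticAt z
    have h3 : EqOn f.1 0 univ :=
      hA.eqOn_zero_of_preconnected_of_eventuallyEq_zero isPreconnected_univ (mem_univ z) h
    obtain ⟨w, hw⟩ := EN.exists_ne hf
    exact hw (h3 (mem_univ w))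
  · exact h

lemma eventually_codiscrete {p : ℂ → Prop} :
    (∀ᶠ z in codiscrete ℂ, p z) ↔ ∀ z, ∀ᶠ w in 𝓝[≠] z, p w := by
  rw [codiscrete, Filter.Eventually, mem_codiscreteWithin_iff_forall_mem_nhdsNE]
  simp only [mem_univ, compl_univ, union_empty, forall_const]
  rfl

lemma EN.eventually_ne {f : EN} (hf : f ≠ 0) : ∀ᶠ z in codiscrete ℂ, f.1 z ≠ 0 :=
  eventually_codiscrete.mpr fun z => EN.eventually_nhdsNE hf z

instance : (codiscrete ℂ).NeBot := by
  rw [Filter.neBot_iff]
  intro h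
  have h1 : ∀ᶠ z in codiscrete ℂ, False := by rw [h]; trivial
  rw [eventually_codiscrete] at h1
  obtain ⟨w, hw⟩ := (h1 0).exists
  exact hw

/-- entire functions which agree on a codiscrete set are equal -/
lemma EN.eq_of_eventually {f g : EN} (h : ∀ᶠ z in codiscrete ℂ, f.1 z = g.1 z) : f = g := by
  by_contra hne
  have h1 := EN.eventually_ne (sub_ne_zero.mpr hne)
  obtain ⟨z, h2, h3⟩ := (h.and h1).exists
  exact h3 (by rw [EN.sub_apply, h2, sub_self])

instance : NoZeroDivisors EN where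
  eq_zero_or_eq_zero_of_mul_eq_zero := by
    intro f g hfg
    by_contra hcon
    push Not at hcon
    obtain ⟨z, h1, h2⟩ := ((EN.eventually_ne hcon.1).and (EN.eventually_ne hcon.2)).exists
    have h3 : f.1 z * g.1 z = 0 := by rw [← EN.mul_apply, hfg]; rfl
    rcases mul_eq_zero.mp h3 with h4 | h4
    · exact h1 h4
    · exact h2 h4

instance : Nontrivial EN := ⟨⟨0, 1, fun h => by
  have := congrFun (congrArg Subtype.val h) 0
  exact zero_ne_one this⟩⟩

instance : IsDomain EN := NoZeroDivisors.to_isDomain EN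

/-- the field of quotients of entire functions -/
abbrev KN : Type := FractionRing EN

/-- the inclusion of the entire functions -/
noncomputable abbrev io : EN →+* KN := algebraMap EN KN

lemma io_inj : Function.Injective io := IsFractionRing.injective EN KN

lemma io_ne {f : EN} (hf : f ≠ 0) : io f ≠ 0 := fun h => hf (io_inj (by rw [h, map_zero]))

lemma exists_frac (x : KN) : ∃ p : EN × EN, p.2 ≠ 0 ∧ x = io p.1 / io p.2 := by
  obtain ⟨a, b, hb, h⟩ := IsFractionRing.div_surjective (A := EN) x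
  exact ⟨(a, b), nonZeroDivisors.ne_zero hb, h.symm⟩

/-- numerator -/
noncomputable def nu (x : KN) : EN := (exists_frac x).choose.1
/-- denominator -/
noncomputable def de (x : KN) : EN := (exists_frac x).choose.2

lemma de_ne (x : KN) : de x ≠ 0 := (exists_frac x).choose_spec.1
lemma eq_frac (x : KN) : x = io (nu x) / io (de x) := (exists_frac x).choose_spec.2

lemma nu_ne {x : KN} (hx : x ≠ 0) : nu x ≠ 0 := by
  intro h
  apply hx
  rw [eq_frac x, h, map_zero, zero_div]

/-- the meromorphic function defined by an element of the field -/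
noncomputable def rep (x : KN) : ℂ → ℂ := fun z => (nu x).1 z / (de x).1 z

lemma rep_mer (x : KN) : Meromorphic (rep x) := by
  intro z
  exact ((nu x).2.analyticAt z).meromorphicAt.div ((de x).2.analyticAt z).meromorphicAt

lemma rep_frac (a b : EN) (hb : b ≠ 0) :
    ∀ᶠ z in codiscrete ℂ, rep (io a / io b) z = a.1 z / b.1 z := by
  have h1 := eq_frac (io a / io b)
  set x := io a / io b with hx
  have h2 : a * de x = nu x * b := by
    apply io_inj
    rw [map_mul, map_mul]
    rw [hx, div_eq_div_iff (io_ne hb) (io_ne (de_ne x))] at h1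
    exact h1
  filter_upwards [EN.eventually_ne hb, EN.eventually_ne (de_ne x)] with z h3 h4
  rw [rep, div_eq_div_iff h4 h3, ← EN.mul_apply, ← h2, EN.mul_apply]

lemma rep_io (a : EN) : ∀ᶠ z in codiscrete ℂ, rep (io a) z = a.1 z := by
  have h := rep_frac a 1 one_ne_zero
  rw [map_one, div_one] at h
  filter_upwards [h] with z hz
  rw [hz, EN.one_apply, div_one]

lemma rep_ne {x : KN} (hx : x ≠ 0) : ∀ᶠ z in codiscrete ℂ, rep x z ≠ 0 := by
  filter_upwards [EN.eventually_ne (nu_ne hx), EN.eventually_ne (de_ne x)] with z h1 h2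
  exact div_ne_zero h1 h2

lemma rep_ord {x : KN} (hx : x ≠ 0) (z : ℂ) : meromorphicOrderAt (rep x) z ≠ ⊤ := by
  rw [ne_eq, meromorphicOrderAt_eq_top_iff]
  intro h
  obtain ⟨w, h1, h2⟩ := (h.and (eventually_codiscrete.mp (rep_ne hx) z)).exists
  exact h2 h1

lemma rep_add (x y : KN) : ∀ᶠ z in codiscrete ℂ, rep (x + y) z = rep x z + rep y z := by
  have h1 : x + y = io (nu x * de y + nu y * de x) / io (de x * de y) := by
    conv_lhs => rw [eq_frac x, eq_frac y]
    rw [map_add, map_mul, map_mul, map_mul]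
    have := io_ne (de_ne x)
    have := io_ne (de_ne y)
    field_simp
  rw [h1]
  filter_upwards [rep_frac (nu x * de y + nu y * de x) (de x * de y)
    (mul_ne_zero (de_ne x) (de_ne y)), EN.eventually_ne (de_ne x), EN.eventually_ne (de_ne y)]
    with z hz h2 h3
  rw [hz, rep, rep, EN.add_apply, EN.mul_apply, EN.mul_apply, EN.mul_apply, div_add_div _ _ h2 h3]
  congr 1
  ring

lemma rep_mul (x y : KN) : ∀ᶠ z in codiscrete ℂ, rep (x * y) z = rep x z * rep y z := by
  have h1 : x * y = io (nu x * nu y) / io (de x * de y) := by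
    conv_lhs => rw [eq_frac x, eq_frac y]
    rw [map_mul, map_mul, div_mul_div_comm]
  rw [h1]
  filter_upwards [rep_frac (nu x * nu y) (de x * de y)
    (mul_ne_zero (de_ne x) (de_ne y))] with z hz
  rw [hz, rep, rep, EN.mul_apply, EN.mul_apply, div_mul_div_comm]

lemma rep_zero : ∀ᶠ z in codiscrete ℂ, rep 0 z = 0 := by
  have := rep_io 0
  rw [map_zero] at this
  exact this

lemma rep_one : ∀ᶠ z in codiscrete ℂ, rep 1 z = 1 := by
  have := rep_io 1
  rw [map_one] at this
  exact this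

lemma rep_inv (x : KN) : ∀ᶠ z in codiscrete ℂ, rep x⁻¹ z = (rep x z)⁻¹ := by
  by_cases hx : x = 0
  · rw [hx, inv_zero]
    filter_upwards [rep_zero] with z hz
    rw [hz, inv_zero]
  · filter_upwards [rep_mul x x⁻¹, rep_one, rep_ne hx] with z h1 h2 h3
    rw [mul_inv_cancel₀ hx, h2] at h1
    exact eq_inv_of_mul_eq_one_right h1.symm

lemma rep_div (x y : KN) : ∀ᶠ z in codiscrete ℂ, rep (x / y) z = rep x z / rep y z := by
  rw [div_eq_mul_inv]
  filter_upwards [rep_mul x y⁻¹, rep_inv y] with z h1 h2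
  rw [h1, h2, div_eq_mul_inv]

lemma rep_neg (x : KN) : ∀ᶠ z in codiscrete ℂ, rep (-x) z = -rep x z := by
  filter_upwards [rep_add x (-x), rep_zero] with z h1 h2
  rw [add_neg_cancel, h2] at h1
  linear_combination -h1

lemma rep_pow (x : KN) (n : ℕ) : ∀ᶠ z in codiscrete ℂ, rep (x ^ n) z = rep x z ^ n := by
  induction n with
  | zero =>
    simp only [pow_zero]
    exact rep_one
  | succ n ih =>
    rw [pow_succ]
    filter_upwards [ih, rep_mul (x ^ n) x] with z h1 h2
    rw [h2, h1, pow_succ]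

lemma rep_const (c : ℂ) : ∀ᶠ z in codiscrete ℂ, rep (io (algebraMap ℂ EN c)) z = c := by
  filter_upwards [rep_io (algebraMap ℂ EN c)] with z hz
  rw [hz]; rfl

/-- the function determines the element -/
lemma rep_inj {x y : KN} (h : ∀ᶠ z in codiscrete ℂ, rep x z = rep y z) : x = y := by
  by_contra hne
  obtain ⟨z, h1, h2, h3, h4⟩ := ((rep_ne (sub_ne_zero.mpr hne)).and
    ((rep_add x (-y)).and ((rep_neg y).and h))).exists
  apply h1
  rw [sub_eq_add_neg, h2, h3, h4, add_neg_cancel]

/-- the derivative of an entire function -/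
noncomputable def dE (f : EN) : EN := ⟨deriv f.1, fun z => (f.2.analyticAt z).deriv.differentiableAt⟩

/-- the derivation -/
noncomputable def DK (x : KN) : KN :=
  io (dE (nu x) * de x - nu x * dE (de x)) / io (de x * de x)

lemma eventually_germ {f g : ℂ → ℂ} (h : ∀ᶠ z in codiscrete ℂ, f z = g z) :
    ∀ᶠ z in codiscrete ℂ, f =ᶠ[𝓝 z] g := by
  have h1 : f =ᶠ[codiscreteWithin univ] g := h
  have := eventually_nhds_eq (V := univ) h1 (by rw [interior_univ])
  exact this

lemma eventually_deriv {f g : ℂ → ℂ} (h : ∀ᶠ z in codiscrete ℂ, f z = g z) :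
    ∀ᶠ z in codiscrete ℂ, deriv f z = deriv g z := by
  filter_upwards [eventually_germ h] with z hz
  exact hz.deriv_eq

lemma rep_DK (x : KN) : ∀ᶠ z in codiscrete ℂ, rep (DK x) z = deriv (rep x) z := by
  filter_upwards [rep_frac (dE (nu x) * de x - nu x * dE (de x)) (de x * de x)
    (mul_ne_zero (de_ne x) (de_ne x)), EN.eventually_ne (de_ne x)] with z h1 h2
  rw [DK, h1, EN.sub_apply, EN.mul_apply, EN.mul_apply, EN.mul_apply]
  have h3 : deriv (rep x) z = (deriv (nu x).1 z * (de x).1 z - (nu x).1 z * deriv (de x).1 z)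
      / (de x).1 z ^ 2 := by
    have h4 : rep x = (nu x).1 / (de x).1 := rfl
    rw [h4, deriv_div ((nu x).2 z) ((de x).2 z) h2]
  rw [h3, sq]
  rfl

lemma rep_diff (x : KN) : ∀ᶠ z in codiscrete ℂ, DifferentiableAt ℂ (rep x) z := by
  filter_upwards [EN.eventually_ne (de_ne x)] with z h2
  exact ((nu x).2 z).div ((de x).2 z) h2

lemma DK_add (x y : KN) : DK (x + y) = DK x + DK y := by
  apply rep_inj
  filter_upwards [rep_DK (x + y), rep_add (DK x) (DK y), rep_DK x, rep_DK y,
    eventually_deriv (rep_add x y), rep_diff x, rep_diff y] with z h1 h2 h3 h4 h5 h6 h7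
  rw [h1, h2, h3, h4, h5]
  exact deriv_fun_add h6 h7

lemma DK_mul (x y : KN) : DK (x * y) = x * DK y + DK x * y := by
  apply rep_inj
  filter_upwards [rep_DK (x * y), rep_add (x * DK y) (DK x * y), rep_mul x (DK y),
    rep_mul (DK x) y, rep_DK x, rep_DK y,
    eventually_deriv (rep_mul x y), rep_diff x, rep_diff y] with z h1 h2 h3 h4 h5 h6 h7 h8 h9
  rw [h1, h2, h3, h4, h5, h6, h7]
  rw [deriv_fun_mul h8 h9]
  ring

lemma DK_io (f : EN) : DK (io f) = io (dE f) := by
  apply rep_inj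
  filter_upwards [rep_DK (io f), rep_io (dE f), eventually_deriv (rep_io f)] with z h1 h2 h3
  rw [h1, h2, h3]
  rfl

/-- the constants -/
lemma DK_const {x : KN} (h : DK x = 0) : ∃ c : ℂ, x = io (algebraMap ℂ EN c) := by
  obtain ⟨z₀, hz₀⟩ := EN.exists_ne (de_ne x)
  have hopen : IsOpen {z | (de x).1 z ≠ 0} :=
    (de x).2.continuous.isOpen_preimage _ isOpen_ne
  obtain ⟨ε, hε, hball⟩ := Metric.isOpen_iff.mp hopen z₀ hz₀
  have hd : ∀ᶠ z in codiscrete ℂ, deriv (rep x) z = 0 := by
    filter_upwards [rep_DK x, rep_zero] with z h1 h2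
    rw [← h1, h, h2]
  have hdiff : ∀ z ∈ Metric.ball z₀ ε, DifferentiableAt ℂ (rep x) z := fun z hz =>
    ((nu x).2 z).div ((de x).2 z) (hball hz)
  have hderiv : EqOn (deriv (rep x)) 0 (Metric.ball z₀ ε) := by
    intro z hz
    have h1 := eventually_codiscrete.mp hd z
    have h2 : ContinuousAt (deriv (rep x)) z := by
      have : AnalyticAt ℂ (rep x) z :=
        ((nu x).2.analyticAt z).div ((de x).2.analyticAt z) (hball hz)
      exact this.deriv.continuousAt
    have h3 : Tendsto (deriv (rep x)) (𝓝[≠] z) (𝓝 (deriv (rep x) z)) :=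
      h2.tendsto.mono_left nhdsWithin_le_nhds
    have h4 : Tendsto (deriv (rep x)) (𝓝[≠] z) (𝓝 0) :=
      tendsto_const_nhds.congr' (h1.mono fun w hw => hw.symm)
    exact tendsto_nhds_unique h3 h4
  refine ⟨rep x z₀, ?_⟩
  have hconst : ∀ z ∈ Metric.ball z₀ ε, rep x z = rep x z₀ := by
    intro z hz
    exact Metric.isOpen_ball.is_const_of_deriv_eq_zero (convex_ball z₀ ε).isPreconnected
      (fun w hw => (hdiff w hw).differentiableWithinAt) hderiv hz (Metric.mem_ball_self hε)
  by_contra hne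
  have h1 := rep_ne (sub_ne_zero.mpr hne)
  have h2 : ∀ᶠ z in codiscrete ℂ, rep x z - rep x z₀ ≠ 0 := by
    filter_upwards [h1, rep_add x (-io (algebraMap ℂ EN (rep x z₀))),
      rep_neg (io (algebraMap ℂ EN (rep x z₀))), rep_const (rep x z₀)] with z h3 h4 h5 h6
    rw [sub_eq_add_neg, h4, h5, h6] at h3
    rw [sub_eq_add_neg]
    exact h3
  have h3 := eventually_codiscrete.mp h2 z₀
  have h4 : ∀ᶠ z in 𝓝[≠] z₀, z ∈ Metric.ball z₀ ε :=
    mem_nhdsWithin_of_mem_nhds (Metric.ball_mem_nhds z₀ hε)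
  obtain ⟨w, hw1, hw2⟩ := (h3.and h4).exists
  exact hw1 (by rw [hconst w hw2, sub_self])

end Pool.Agent.H13.Nev
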