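import Pool.Agent.H13.Nev.Orb

/-!
# The second main theorem: conclusions
-/

namespace Pool.Agent.H13.Nev

open Set Filter Topology Real ValueDistribution MeromorphicOn Metric
open Pool.Agent.H13.Kob Pool.Agent.H13.CEV

/-- The second main theorem for functions. -/
theorem smt_fun (N k d : ℕ) : ∃ C : ℝ, ∀ (e : ℕ) (x : mons N d → ℂ), Good e x →
    (∀ a : Fin k → ℕ, ∃ b : Fin k → ℕ, SameType d a b ∧ ∀ j, b j ≤ e) →
    ∀ (f : Fin k → ℂ → ℂ) (q : Fin k → ℂ → Fin N → ℂ) (g : ℂ → Fin N → ℂ),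
    (∀ j, Differentiable ℂ (f j)) → (∀ j, Differentiable ℂ (q j)) →
    (∀ z, g z = ∑ j, f j z • q j z) → (∀ z, g z ≠ 0) →
    (∀ z, MvPolynomial.eval (g z) (Fm x) = 0) →
    ∃ K : ℝ, MeasureTheory.volume {r : ℝ | 1 ≤ r ∧ ¬ circleAverage (fun z => log ‖g z‖) 0 r
      ≤ C * (∑ j, logCounting (logDeriv (f j)) ⊤ r + ∑ j, characteristic (q j) ⊤ r)
        + K * (1 + log r + log⁺ (circleAverage (fun z => log ‖fun j => f j z‖) 0 r))} < ⊤ := by
  obtain ⟨C, hC, hsmt⟩ := smt N k d
  refine ⟨C, fun e x hx he f q g hf hq hg hg0 hgF => ?_⟩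
  have hgd : Differentiable ℂ g := by
    have h1 : g = fun z => ∑ j, f j z • q j z := funext hg
    rw [h1]
    exact Differentiable.fun_sum fun j _ => (hf j).smul (hq j)
  obtain ⟨K, hK, hmain⟩ := hsmt e x hx he (fun j => ⟨f j, hf j⟩)
    (fun j i => ⟨fun z => q j z i, (differentiable_pi.mp (hq j)) i⟩)
    (fun i => ⟨fun z => g z i, (differentiable_pi.mp hgd) i⟩) (by
      intro i
      apply EN.ext'
      intro z
      show g z i = ev z _
      rw [map_sum, hg z, Finset.sum_apply]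
      rfl) hg0 hgF
  exact ⟨K, eventually_ff.mp hmain⟩

/-- The second main theorem for hyperplanes. -/
theorem smt_hyper (N d : ℕ) : ∃ C : ℝ, ∀ (e : ℕ) (x : mons N d → ℂ), Good e x →
    (∀ a : Fin N → ℕ, ∃ b : Fin N → ℕ, SameType d a b ∧ ∀ j, b j ≤ e) →
    ∀ (g : ℂ → Fin N → ℂ), Differentiable ℂ g → (∀ z, g z ≠ 0) →
    (∀ z, MvPolynomial.eval (g z) (Fm x) = 0) →
    ∀ H : Fin N → Fin N → ℂ, LinearIndependent ℂ H →
    ∃ K : ℝ, MeasureTheory.volume {r : ℝ | 1 ≤ r ∧ ¬ circleAverage (fun z => log ‖g z‖) 0 r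
      ≤ C * ∑ j, logCounting (logDeriv fun z => ∑ i, H j i * g z i) ⊤ r
        + K * (1 + log r + log⁺ (circleAverage (fun z => log ‖g z‖) 0 r))} < ⊤ := by
  classical
  obtain ⟨C, hC, hsmt⟩ := smt N N d
  refine ⟨C, fun e x hx he g hg hg0 hgF H hH => ?_⟩
  -- the dual basis
  set A : Matrix (Fin N) (Fin N) ℂ := Matrix.of H with hA
  have hAu : IsUnit A := Matrix.linearIndependent_rows_iff_isUnit.mp hH
  have hdet : IsUnit A.det := (Matrix.isUnit_iff_isUnit_det A).mp hAu
  set v : Fin N → Fin N → ℂ := fun j i => A⁻¹ i j with hv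
  have hdual : ∀ y : Fin N → ℂ, ∀ i, y i = ∑ j, v j i * ∑ k, H j k * y k := by
    intro y i
    have h1 : A⁻¹.mulVec (A.mulVec y) = y := by
      rw [Matrix.mulVec_mulVec, Matrix.nonsing_inv_mul A hdet, Matrix.one_mulVec]
    conv_lhs => rw [← h1]
    simp only [Matrix.mulVec, dotProduct, hv, hA, Matrix.of_apply]
  set G : Fin N → EN := fun i => ⟨fun z => g z i, (differentiable_pi.mp hg) i⟩ with hG
  set f : Fin N → EN := fun j => ∑ i, algebraMap ℂ EN (H j i) * G i with hf
  have hfv : ∀ j, (f j).1 = fun z => ∑ i, H j i * g z i := by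
    intro j
    funext z
    have h1 : (f j).1 z = ev z (f j) := rfl
    rw [h1, hf]
    simp only
    rw [map_sum]
    apply Finset.sum_congr rfl
    intro i _
    rw [map_mul]
    rfl
  set q : Fin N → Fin N → EN := fun j i => algebraMap ℂ EN (v j i) with hq
  have hGf : ∀ i, G i = ∑ j, f j * q j i := by
    intro i
    apply EN.ext'
    intro z
    have h1 : (∑ j, f j * q j i).1 z = ev z (∑ j, f j * q j i) := rfl
    rw [h1, map_sum]
    have h2 : (G i).1 z = g z i := rfl
    rw [h2, hdual (g z) i]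
    apply Finset.sum_congr rfl
    intro j _
    rw [map_mul, ev_apply, ev_apply, hfv, mul_comm]
    rfl
  obtain ⟨K, hK, hmain⟩ := hsmt e x hx he f q G hGf hg0 hgF
  obtain ⟨j₀, hj₀⟩ : ∃ j, f j ≠ 0 := by
    by_contra hcon
    push Not at hcon
    apply hg0 0
    funext i
    have h1 : g 0 i = (G i).1 0 := rfl
    rw [h1, hGf i]
    simp only [hcon, zero_mul, Finset.sum_const_zero]
    rfl
  obtain ⟨cH, hcH, hTf⟩ : ∃ cH : ℝ, 0 ≤ cH ∧ ∀ r, 1 ≤ r → TC f r ≤ TC G r + cH := by
    set s : ℝ := ∑ j, ∑ i, ‖H j i‖ + 1 with hs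
    have hs1 : 1 ≤ s := by
      have : 0 ≤ ∑ j, ∑ i, ‖H j i‖ :=
        Finset.sum_nonneg fun j _ => Finset.sum_nonneg fun i _ => norm_nonneg _
      linarith
    refine ⟨log s, Real.log_nonneg hs1, fun r hr => ?_⟩
    have h1 : circleAverage (fun z => log ‖vec G z‖ + log s) 0 r = TC G r + log s := by
      rw [circleAverage_fun_add (vec_int G r) (circleIntegrable_const _ _ _), circleAverage_const]
      rfl
    rw [← h1, TC]
    apply circleAverage_mono_codiscrete (by linarith) (vec_int f r)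
      ((vec_int G r).add (circleIntegrable_const _ _ _))
    filter_upwards [eventually_sphere (EN.eventually_ne hj₀) r] with z hz
    have h2 : 0 < ‖vec f z‖ := lt_of_lt_of_le (norm_pos_iff.mpr hz) (norm_le_pi_norm (vec f z) j₀)
    have h3 : 0 < ‖vec G z‖ := norm_pos_iff.mpr (hg0 _)
    show log ‖vec f z‖ ≤ log ‖vec G z‖ + log s
    rw [← Real.log_mul h3.ne' (by linarith)]
    apply Real.log_le_log h2
    rw [pi_norm_le_iff_of_nonneg (by positivity)]
    intro j
    show ‖(f j).1 z‖ ≤ _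
    rw [hfv]
    calc ‖∑ i, H j i * g z i‖ ≤ ∑ i, ‖H j i‖ * ‖vec G z‖ := by
          refine (norm_sum_le _ _).trans (Finset.sum_le_sum fun i _ => ?_)
          rw [norm_mul]
          exact mul_le_mul_of_nonneg_left (norm_le_pi_norm (vec G z) i) (norm_nonneg _)
      _ = (∑ i, ‖H j i‖) * ‖vec G z‖ := by rw [Finset.sum_mul]
      _ ≤ s * ‖vec G z‖ := by
          apply mul_le_mul_of_nonneg_right _ (norm_nonneg _)
          have := Finset.single_le_sum (f := fun j => ∑ i, ‖H j i‖)
            (fun j _ => Finset.sum_nonneg fun i _ => norm_nonneg (H j i)) (Finset.mem_univ j)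
          linarith
      _ = ‖vec G z‖ * s := mul_comm _ _
  set L : ℝ := |log ‖meromorphicTrailingCoeffAt (f j₀).1 0‖| with hL
  have hlow : ∀ r, 1 ≤ r → -L ≤ TC f r := by
    intro r hr
    have h1 := TC_ge f j₀ hj₀ hr
    have h2 := logCounting_nonneg (f := (f j₀).1) (e := 0) hr
    have h3 := neg_abs_le (log ‖meromorphicTrailingCoeffAt (f j₀).1 0‖)
    linarith
  set cq : ℝ := ∑ j, log⁺ ‖v j‖ with hcq
  have hcq0 : 0 ≤ cq := Finset.sum_nonneg fun j _ => posLog_nonneg
  have hLp : 0 ≤ log⁺ L := posLog_nonneg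
  have hcHp : 0 ≤ log⁺ cH := posLog_nonneg
  have hl2 : 0 ≤ log 2 := Real.log_nonneg (by norm_num)
  refine ⟨C * cq + K * (2 + log 2 + log⁺ cH + log⁺ L), ?_⟩
  rw [← eventually_ff]
  filter_upwards [hmain, eventually_one_le_ff] with r h1 hr
  have hMM : MM f q r = ∑ j, logCounting (logDeriv fun z => ∑ i, H j i * g z i) ⊤ r + cq := by
    rw [MM]
    congr 1
    · apply Finset.sum_congr rfl
      intro j _
      rw [hfv]
    · apply Finset.sum_congr rfl
      intro j _
      have h2 : vec (q j) = fun _ => v j := rfl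
      rw [h2, characteristic]
      simp
  have hTG : TC G r = circleAverage (fun z => log ‖g z‖) 0 r := rfl
  rw [← hTG]
  rw [hMM] at h1
  have h2 := posLog_add_le_max (t := TC G r) (c := cH) (L := L) (s := TC f r) (hTf r hr)
    (hlow r hr)
  have h3 := posLog_add (x := max (TC G r) 0) (y := cH)
  have h4 : log⁺ (max (TC G r) 0) ≤ log⁺ (TC G r) := by
    rcases le_total 0 (TC G r) with h | h
    · rw [max_eq_left h]
    · rw [max_eq_right h, posLog_zero]
      exact posLog_nonneg
  have h5 : 0 ≤ log⁺ (TC G r) := posLog_nonneg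
  have h6 : 0 ≤ log r := Real.log_nonneg hr
  set D := log 2 + log⁺ cH + log⁺ L with hD
  have hD0 : 0 ≤ D := by linarith
  have h7 : K * (1 + log r + log⁺ (TC f r)) ≤ K * (1 + log r + (log⁺ (TC G r) + D)) :=
    mul_le_mul_of_nonneg_left (by linarith) hK
  have h8 : K * (1 + log r + (log⁺ (TC G r) + D))
      ≤ K * (2 + D) * (1 + log r + log⁺ (TC G r)) := by
    rw [mul_assoc]
    apply mul_le_mul_of_nonneg_left _ hK
    nlinarith
  have h9 : C * cq ≤ C * cq * (1 + log r + log⁺ (TC G r)) := by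
    have := mul_nonneg hC hcq0
    nlinarith
  have h10 : (C * cq + K * (2 + log 2 + log⁺ cH + log⁺ L)) * (1 + log r + log⁺ (TC G r))
      = C * cq * (1 + log r + log⁺ (TC G r)) + K * (2 + D) * (1 + log r + log⁺ (TC G r)) := by
    rw [hD]; ring
  rw [h10]
  linarith

/-- The hypersurfaces `F(L₀^M, …, L_{n+1}^M) = 0` -/
theorem fermat {N m : ℕ} (hm1 : 1 ≤ m) {F : MvPolynomial (Fin N) ℂ}
    (horb : ∀ g : ℂ → Fin N → ℂ, Differentiable ℂ g → (∀ z, g z ≠ 0) →
      (∀ z, MvPolynomial.eval (g z) F = 0) →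
      ∀ H : Fin N → Fin N → ℂ, LinearIndependent ℂ H →
      (∀ j z, ∑ i, H j i * g z i = 0 →
        (m : ℕ∞) ≤ analyticOrderAt (fun w => ∑ i, H j i * g w i) z) →
      ∀ z, ∃ c : ℂ, g z = c • g 0) {M : ℕ} (hM : m ≤ M) {h : ℂ → Fin N → ℂ}
    (hh : Differentiable ℂ h) (hh0 : ∀ z, h z ≠ 0) (L : Fin N → Fin N → ℂ)
    (hL : LinearIndependent ℂ L)
    (hF : ∀ z, MvPolynomial.eval (fun j => (∑ i, L j i * h z i) ^ M) F = 0) (z : ℂ) :
    ∃ c : ℂ, h z = c • h 0 := by
  classical
  have hM0 : M ≠ 0 := by omega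
  set A : Matrix (Fin N) (Fin N) ℂ := Matrix.of L with hA
  have hAu : IsUnit A := Matrix.linearIndependent_rows_iff_isUnit.mp hL
  have hdet : IsUnit A.det := (Matrix.isUnit_iff_isUnit_det A).mp hAu
  have hinj : ∀ y : Fin N → ℂ, (∀ j, ∑ i, L j i * y i = 0) → y = 0 := by
    intro y hy
    have h1 : A.mulVec y = 0 := by
      funext j
      exact hy j
    have h2 : A⁻¹.mulVec (A.mulVec y) = y := by
      rw [Matrix.mulVec_mulVec, Matrix.nonsing_inv_mul A hdet, Matrix.one_mulVec]
    rw [← h2, h1, Matrix.mulVec_zero]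
  set l : Fin N → ℂ → ℂ := fun j z => ∑ i, L j i * h z i with hl
  have hld : ∀ j, Differentiable ℂ (l j) := fun j =>
    Differentiable.fun_sum fun i _ => ((differentiable_pi.mp hh) i).const_mul _
  set g : ℂ → Fin N → ℂ := fun z j => l j z ^ M with hg
  have hgd : Differentiable ℂ g := differentiable_pi.mpr fun j => (hld j).pow M
  have hg0 : ∀ z, g z ≠ 0 := by
    intro z h0
    apply hh0 z
    apply hinj
    intro j
    have := congrFun h0 j
    exact (pow_eq_zero_iff hM0).mp this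
  have hsum : ∀ j w, ∑ i, (if j = i then (1 : ℂ) else 0) * g w i = g w j := by
    intro j w
    simp
  have hconst := horb g hgd hg0 hF (fun j i => if j = i then 1 else 0) (by
    have h1 : (fun j i => if j = i then (1 : ℂ) else 0) = fun j : Fin N => Pi.single j (1 : ℂ) := by
      funext j i
      rw [Pi.single_apply]
      simp [eq_comm]
    rw [h1]
    exact Pi.linearIndependent_single_one (Fin N) ℂ) (by
    intro j w hw
    rw [hsum] at hw
    have h1 : (fun w => ∑ i, (if j = i then (1 : ℂ) else 0) * g w i) = l j ^ M := by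
      funext w
      rw [hsum]
      rfl
    rw [h1, analyticOrderAt_pow ((hld j).analyticAt w)]
    have h2 : l j w = 0 := (pow_eq_zero_iff hM0).mp hw
    have h3 : analyticOrderAt (l j) w ≠ 0 := ((hld j).analyticAt w).analyticOrderAt_ne_zero.mpr h2
    have h4 : (1 : ℕ∞) ≤ analyticOrderAt (l j) w := Order.one_le_iff_ne_zero.mpr h3
    rw [nsmul_eq_mul]
    calc (m : ℕ∞) ≤ (M : ℕ∞) := by exact_mod_cast hM
      _ = (M : ℕ∞) * 1 := (mul_one _).symm
      _ ≤ (M : ℕ∞) * analyticOrderAt (l j) w := mul_le_mul_right h4 _)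
  -- a coordinate which does not vanish
  obtain ⟨j, hj⟩ : ∃ j, l j 0 ≠ 0 := by
    by_contra hcon
    push Not at hcon
    exact hh0 0 (hinj _ hcon)
  have hjz : ∀ z, l j z ≠ 0 := by
    intro z h0
    obtain ⟨c, hc⟩ := hconst z
    have h1 := congrFun hc j
    simp only [hg, Pi.smul_apply, smul_eq_mul] at h1
    rw [h0, zero_pow hM0] at h1
    have h2 : c = 0 := (mul_eq_zero.mp h1.symm).resolve_right (pow_ne_zero _ hj)
    apply hg0 z
    rw [hc, h2, zero_smul]
  have hratio : ∀ i z, l i z / l j z = l i 0 / l j 0 := by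
    intro i z
    have hcont : Continuous fun z => l i z / l j z :=
      (hld i).continuous.div (hld j).continuous hjz
    have hpow : ∀ z, (l i z / l j z) ^ M = (l i 0 / l j 0) ^ M := by
      intro z
      obtain ⟨c, hc⟩ := hconst z
      have h1 := congrFun hc i
      have h2 := congrFun hc j
      simp only [hg, Pi.smul_apply, smul_eq_mul] at h1 h2
      have h3 : c ≠ 0 := by
        rintro rfl
        rw [zero_mul] at h2
        exact pow_ne_zero _ (hjz z) h2
      rw [div_pow, div_pow, h1, h2, mul_div_mul_left _ _ h3]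
    have hfin : Set.Finite {y : ℂ | y ^ M = (l i 0 / l j 0) ^ M} := by
      have h1 : {y : ℂ | y ^ M = (l i 0 / l j 0) ^ M}
          = ((Polynomial.nthRoots M ((l i 0 / l j 0) ^ M)).toFinset : Set ℂ) := by
        ext y
        simp [Polynomial.mem_nthRoots (Nat.pos_of_ne_zero hM0)]
      rw [h1]
      exact Finset.finite_toSet _
    have hpre : IsPreconnected (Set.range fun z => l i z / l j z) :=
      isPreconnected_range hcont
    have hsub : (Set.range fun z => l i z / l j z).Subsingleton := by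
      refine hfin.countable.isTotallyDisconnected _ ?_ hpre
      rintro _ ⟨z, rfl⟩
      exact hpow z
    exact hsub ⟨z, rfl⟩ ⟨0, rfl⟩
  refine ⟨l j z / l j 0, ?_⟩
  have h1 : h z - (l j z / l j 0) • h 0 = 0 := by
    apply hinj
    intro i
    have h2 : ∑ i', L i i' * (h z - (l j z / l j 0) • h 0) i'
        = l i z - (l j z / l j 0) * l i 0 := by
      simp only [hl, Pi.sub_apply, Pi.smul_apply, smul_eq_mul]
      rw [Finset.mul_sum, ← Finset.sum_sub_distrib]
      apply Finset.sum_congr rfl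
      intro i' _
      ring
    rw [h2]
    have h3 := hratio i z
    have h4 := hjz z
    field_simp at h3 ⊢
    linear_combination h3
  exact sub_eq_zero.mp h1

end Pool.Agent.H13.Nev
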