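import Pool.Agent.H13.Nev.Classes
import Pool.Agent.H13.Kob.Lattice

/-!
# Small quotients of monomials give small quotients of variables
-/

namespace Pool.Agent.H13.Nev

open Pool.Agent.H13.Kob

section

variable {k d : ℕ}

open Classical in
lemma exists_comb (J : Finset (Fin k)) (E : (mons k d) × (mons k d) → Prop)
    (hno : ¬ ∃ a : Fin k → ℕ, (∃ i ∈ J, ∃ j ∈ J, a i ≠ a j) ∧
      ∀ e, E e → nw a e.1.1 = nw a e.2.1) (i : Fin k) (hi : i ∈ J) (j : Fin k) (hj : j ∈ J) :
    ∃ c : {e // E e} → ℚ, ∀ a : Fin k → ℚ,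
      a i - a j = ∑ e : {e // E e}, c e * df e.1.1.1 e.1.2.1 a := by
  classical
  have hmem : (LinearMap.proj (R := ℚ) (φ := fun _ : Fin k => ℚ) i
      - LinearMap.proj (R := ℚ) (φ := fun _ : Fin k => ℚ) j) ∈
      Submodule.span ℚ (Set.range fun e : {e // E e} => df e.1.1.1 e.1.2.1) := by
    apply mem_span_of_iInf_ker_le_ker
    intro a ha
    rw [Submodule.mem_iInf] at ha
    by_contra hne
    have hne' : a i ≠ a j := by
      intro h
      apply hne
      rw [LinearMap.mem_ker, LinearMap.sub_apply, LinearMap.proj_apply, LinearMap.proj_apply, h,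
        sub_self]
    apply hno
    obtain ⟨L, B, a', hL, ha'⟩ := nat_scale a
    refine ⟨a', ⟨i, hi, j, hj, ?_⟩, ?_⟩
    · intro h
      apply hne'
      have h1 := ha' i
      rw [h, ha' j] at h1
      have h2 : L * (a i - a j) = 0 := by linear_combination -h1
      exact sub_eq_zero.mp ((mul_eq_zero.mp h2).resolve_left hL)
    · intro e he
      have h1 : df e.1.1 e.2.1 (fun i => (a' i : ℚ)) = 0 := by
        have h2 : df e.1.1 e.2.1 a = 0 := LinearMap.mem_ker.mp (ha ⟨e, he⟩)
        rw [df_apply] at h2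
        rw [df_apply]
        have h3 : ∑ i, ((e.1.1 i : ℚ) - e.2.1 i) = 0 := by
          rw [Finset.sum_sub_distrib]
          have h4 := mem_mons.mp e.1.2
          have h5 := mem_mons.mp e.2.2
          have h6 : ((∑ i, e.1.1 i : ℕ) : ℚ) = (∑ i, e.2.1 i : ℕ) := by rw [h4, h5]
          push_cast at h6
          linear_combination h6
        calc ∑ i, ((e.1.1 i : ℚ) - e.2.1 i) * (a' i : ℚ)
            = L * (∑ i, ((e.1.1 i : ℚ) - e.2.1 i) * a i)
              + B * ∑ i, ((e.1.1 i : ℚ) - e.2.1 i) := by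
              rw [Finset.mul_sum, Finset.mul_sum, ← Finset.sum_add_distrib]
              apply Finset.sum_congr rfl
              intro i _
              rw [ha']; ring
          _ = 0 := by rw [h2, h3]; ring
      rw [df_nat] at h1
      have := sub_eq_zero.mp h1
      exact_mod_cast this
  obtain ⟨c, hc⟩ := (Submodule.mem_span_range_iff_exists_fun ℚ).mp hmem
  refine ⟨c, fun a => ?_⟩
  have := congrArg (fun L : (Fin k → ℚ) →ₗ[ℚ] ℚ => L a) hc
  simp only [LinearMap.sum_apply, LinearMap.smul_apply, LinearMap.sub_apply,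
    LinearMap.proj_apply, smul_eq_mul] at this
  exact this.symm

/-- clearing denominators -/
lemma exists_int {τ : Type*} [Fintype τ] (c : τ → ℚ) :
    ∃ (q : ℕ) (b : τ → ℤ), q ≠ 0 ∧ ∀ e, (b e : ℚ) = q * c e := by
  classical
  refine ⟨∏ e, (c e).den, fun e => (∏ f ∈ Finset.univ.erase e, (c f).den : ℕ) * (c e).num,
    Finset.prod_ne_zero_iff.mpr fun j _ => (c j).den_ne_zero, fun e => ?_⟩
  rw [← Finset.mul_prod_erase Finset.univ _ (Finset.mem_univ e)]
  push_cast
  have : ((c e).den : ℚ) * c e = (c e).num := Rat.den_mul_eq_num _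
  linear_combination (-(∏ f ∈ Finset.univ.erase e, ((c f).den : ℚ))) * this

variable {K : Type*} [Field K] {D : K → K} {B : ℕ → Set K}

lemma Filt.zpow (h : Filt K D B) {m : ℕ} {x : K} (hx : x ∈ B m) (n : ℤ) :
    x ^ n ∈ B (n.natAbs * m) := by
  rcases Int.natAbs_eq n with hn | hn
  · rw [hn, zpow_natCast, Int.natAbs_natCast]
    exact h.pow hx _
  · rw [hn, zpow_neg, zpow_natCast, Int.natAbs_neg, Int.natAbs_natCast]
    exact h.inv (h.pow hx _)

lemma Filt.prod (h : Filt K D B) {τ : Type*} (s : Finset τ) (f : τ → K) (m : τ → ℕ)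
    (hf : ∀ i ∈ s, f i ∈ B (m i)) : ∏ i ∈ s, f i ∈ B (∑ i ∈ s, m i) := by
  classical
  induction s using Finset.induction_on with
  | empty => simpa using h.one_mem 0
  | insert a s ha ih =>
    rw [Finset.prod_insert ha, Finset.sum_insert ha]
    exact h.mul (hf a (Finset.mem_insert_self _ _))
      (ih fun i hi => hf i (Finset.mem_insert_of_mem hi))

/-- the monomial with exponent `α` -/
def mon (x : Fin k → K) (α : Fin k →₀ ℕ) : K := ∏ l, x l ^ α l

lemma quot_small (J : Finset (Fin k)) (E : (mons k d) × (mons k d) → Prop) (c : ℕ)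
    (hEJ : ∀ e, E e → ∀ l ∉ J, e.1.1 l = 0 ∧ e.2.1 l = 0)
    (hno : ¬ ∃ a : Fin k → ℕ, (∃ i ∈ J, ∃ j ∈ J, a i ≠ a j) ∧
      ∀ e, E e → nw a e.1.1 = nw a e.2.1) :
    ∃ M : ℕ, ∀ (K : Type) [Field K] (D : K → K) (B : ℕ → Set K), Filt K D B → ∀ x : Fin k → K,
      (∀ l ∈ J, x l ≠ 0) → (∀ e, E e → mon x e.1.1 / mon x e.2.1 ∈ B c) →
      ∀ i ∈ J, ∀ j ∈ J, x i / x j ∈ B M := by
  classical
  have hex : ∀ p : Fin k × Fin k, ∃ M : ℕ, p.1 ∈ J → p.2 ∈ J →
      ∀ (K : Type) [Field K] (D : K → K) (B : ℕ → Set K), Filt K D B → ∀ x : Fin k → K,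
      (∀ l ∈ J, x l ≠ 0) → (∀ e, E e → mon x e.1.1 / mon x e.2.1 ∈ B c) →
      x p.1 / x p.2 ∈ B M := by
    rintro ⟨i, j⟩
    by_cases hi : i ∈ J
    swap
    · exact ⟨0, fun h => absurd h hi⟩
    by_cases hj : j ∈ J
    swap
    · exact ⟨0, fun _ h => absurd h hj⟩
    obtain ⟨cc, hcc⟩ := exists_comb J E hno i hi j hj
    obtain ⟨q, b, hq, hb⟩ := exists_int cc
    refine ⟨∑ e : {e // E e}, (b e).natAbs * c, fun _ _ K _ D B h x hx hxE => ?_⟩
    apply h.root hq
    -- replace `x` outside `J`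
    set y : Fin k → K := fun l => if l ∈ J then x l else 1 with hy
    have hy0 : ∀ l, y l ≠ 0 := by
      intro l
      simp only [hy]
      split_ifs with hl
      · exact hx l hl
      · exact one_ne_zero
    have hmon : ∀ e, E e → mon x e.1.1 = mon y e.1.1 ∧ mon x e.2.1 = mon y e.2.1 := by
      intro e he
      constructor
      all_goals
        apply Finset.prod_congr rfl
        intro l _
        simp only [hy]
        split_ifs with hl
        · rfl
        · first
            | rw [(hEJ e he l hl).1, pow_zero, pow_zero]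
            | rw [(hEJ e he l hl).2, pow_zero, pow_zero]
    have hexp : ∀ l, (q : ℤ) * ((if i = l then 1 else 0) - (if j = l then 1 else 0))
        = ∑ e : {e // E e}, b e * ((e.1.1.1 l : ℤ) - e.1.2.1 l) := by
      intro l
      have h1 := hcc (Pi.single l 1)
      have h2 : ∀ e : {e // E e}, df e.1.1.1 e.1.2.1 (Pi.single l (1 : ℚ))
          = (e.1.1.1 l : ℚ) - e.1.2.1 l := by
        intro e
        rw [df_apply, Finset.sum_eq_single l]
        · simp
        · intro m _ hm
          rw [Pi.single_eq_of_ne hm, mul_zero]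
        · simp
      simp only [h2, Pi.single_apply] at h1
      have h3 : ((q : ℤ) : ℚ) * ((if i = l then 1 else 0) - (if j = l then 1 else 0))
          = ∑ e : {e // E e}, (b e : ℚ) * ((e.1.1.1 l : ℚ) - e.1.2.1 l) := by
        have h4 : ∀ e : {e // E e}, (b e : ℚ) * ((e.1.1.1 l : ℚ) - e.1.2.1 l)
            = q * (cc e * ((e.1.1.1 l : ℚ) - e.1.2.1 l)) := fun e => by rw [hb e]; ring
        simp only [h4]
        rw [← Finset.mul_sum, ← h1]
        push_cast
        rfl
      exact_mod_cast h3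
    have hkey : (x i / x j) ^ q
        = ∏ e : {e // E e}, (mon x e.1.1.1 / mon x e.1.2.1) ^ (b e) := by
      have h1 : ∀ e : {e // E e}, mon x e.1.1.1 / mon x e.1.2.1
          = ∏ l, y l ^ ((e.1.1.1 l : ℤ) - e.1.2.1 l) := by
        intro e
        rw [(hmon e.1 e.2).1, (hmon e.1 e.2).2, mon, mon, ← Finset.prod_div_distrib]
        apply Finset.prod_congr rfl
        intro l _
        rw [zpow_sub₀ (hy0 l), zpow_natCast, zpow_natCast]
      have h2 : ∏ e : {e // E e}, (mon x e.1.1.1 / mon x e.1.2.1) ^ (b e)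
          = ∏ l, y l ^ (∑ e : {e // E e}, b e * ((e.1.1.1 l : ℤ) - e.1.2.1 l)) := by
        simp only [h1]
        have h3 : ∀ (l : Fin k) (s : Finset {e // E e}),
            y l ^ (∑ e ∈ s, b e * ((e.1.1.1 l : ℤ) - e.1.2.1 l))
            = ∏ e ∈ s, (y l ^ ((e.1.1.1 l : ℤ) - e.1.2.1 l)) ^ (b e) := by
          intro l s
          induction s using Finset.induction_on with
          | empty => simp
          | insert a s ha ih =>
            rw [Finset.sum_insert ha, Finset.prod_insert ha, zpow_add₀ (hy0 l), ih, mul_comm (b a),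
              zpow_mul]
        simp only [h3]
        rw [Finset.prod_comm]
        apply Finset.prod_congr rfl
        intro e _
        rw [Finset.prod_zpow]
      rw [h2]
      simp only [← hexp]
      have h4 : ∀ l, y l ^ ((q : ℤ) * ((if i = l then 1 else 0) - (if j = l then 1 else 0)))
          = (if i = l then y i ^ q else 1) * (if j = l then (y j ^ q)⁻¹ else 1) := by
        intro l
        rw [mul_sub, zpow_sub₀ (hy0 l), div_eq_mul_inv]
        congr 1
        · split_ifs with h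
          · rw [← h, mul_one, zpow_natCast]
          · simp
        · split_ifs with h
          · rw [← h, mul_one, zpow_natCast]
          · simp
      simp only [h4]
      rw [Finset.prod_mul_distrib]
      simp only [Finset.prod_ite_eq, Finset.mem_univ, if_true]
      simp only [hy, if_pos hi, if_pos hj]
      rw [div_pow, div_eq_mul_inv]
    rw [hkey]
    exact h.prod _ _ _ (fun e _ => h.zpow (hxE e.1 e.2) (b e))
  choose M hM using hex
  refine ⟨∑ p, M p, fun K _ D B h x hx hxE i hi j hj => ?_⟩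
  apply h.mono _ (hM (i, j) hi hj K D B h x hx hxE)
  exact Finset.single_le_sum (f := M) (fun _ _ => Nat.zero_le _) (Finset.mem_univ (i, j))

/-- Either all quotients are small, or there is a weight which is constant on close monomials. -/
lemma exists_span (k d c : ℕ) : ∃ M : ℕ, ∀ (K : Type) [Field K] (D : K → K) (B : ℕ → Set K),
    Filt K D B → ∀ (J : Finset (Fin k)) (x : Fin k → K), (∀ l ∈ J, x l ≠ 0) →
      (∀ i ∈ J, ∀ j ∈ J, x i / x j ∈ B M) ∨
      ∃ a : Fin k → ℕ, (∃ i ∈ J, ∃ j ∈ J, a i ≠ a j) ∧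
        ∀ α ∈ mons k d, ∀ β ∈ mons k d, (∀ l ∉ J, α l = 0) → (∀ l ∉ J, β l = 0) →
          mon x α / mon x β ∈ B c → nw a α = nw a β := by
  classical
  set T : Type := Finset (Fin k) × ((mons k d) × (mons k d) → Prop) with hT
  have hex : ∀ t : T, ∃ M : ℕ, (∀ e, t.2 e → ∀ l ∉ t.1, e.1.1 l = 0 ∧ e.2.1 l = 0) →
      (¬ ∃ a : Fin k → ℕ, (∃ i ∈ t.1, ∃ j ∈ t.1, a i ≠ a j) ∧
        ∀ e, t.2 e → nw a e.1.1 = nw a e.2.1) →
      ∀ (K : Type) [Field K] (D : K → K) (B : ℕ → Set K), Filt K D B → ∀ x : Fin k → K,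
      (∀ l ∈ t.1, x l ≠ 0) → (∀ e, t.2 e → mon x e.1.1 / mon x e.2.1 ∈ B c) →
      ∀ i ∈ t.1, ∀ j ∈ t.1, x i / x j ∈ B M := by
    intro t
    by_cases h1 : ∀ e, t.2 e → ∀ l ∉ t.1, e.1.1 l = 0 ∧ e.2.1 l = 0
    · by_cases h2 : ∃ a : Fin k → ℕ, (∃ i ∈ t.1, ∃ j ∈ t.1, a i ≠ a j) ∧
        ∀ e, t.2 e → nw a e.1.1 = nw a e.2.1
      · exact ⟨0, fun _ h' => absurd h2 h'⟩
      · obtain ⟨M, hM⟩ := quot_small t.1 t.2 c h1 h2
        exact ⟨M, fun _ _ => hM⟩
    · exact ⟨0, fun h' => absurd h' h1⟩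
  choose M hM using hex
  have : Finite T := inferInstance
  have : Fintype T := Fintype.ofFinite T
  refine ⟨∑ t : T, M t, fun K _ D B h J x hx => ?_⟩
  set E : (mons k d) × (mons k d) → Prop := fun e =>
    (∀ l ∉ J, e.1.1 l = 0 ∧ e.2.1 l = 0) ∧ mon x e.1.1 / mon x e.2.1 ∈ B c with hE
  by_cases hno : ∃ a : Fin k → ℕ, (∃ i ∈ J, ∃ j ∈ J, a i ≠ a j) ∧
        ∀ e, E e → nw a e.1.1 = nw a e.2.1
  · right
    obtain ⟨a, ha1, ha2⟩ := hno
    exact ⟨a, ha1, fun α hα β hβ h1 h2 h3 =>
      ha2 (⟨α, hα⟩, ⟨β, hβ⟩) ⟨fun l hl => ⟨h1 l hl, h2 l hl⟩, h3⟩⟩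
  · left
    intro i hi j hj
    apply h.mono _ (hM (J, E) (fun e he => he.1) hno K D B h x hx (fun e he => he.2) i hi j hj)
    exact Finset.single_le_sum (f := M) (fun _ _ => Nat.zero_le _) (Finset.mem_univ (J, E))

end

end Pool.Agent.H13.Nev
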