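import Pool.Agent.H13.Nev.Field
import Pool.Agent.H13.Nev.Span

/-!
# The Nevanlinna characteristic on the field of quotients and the filtration by growth
-/

namespace Pool.Agent.H13.Nev

open Set Filter Topology Real ValueDistribution MeromorphicOn

/-- the characteristic function of an element -/
noncomputable def T (x : KN) (r : ℝ) : ℝ := characteristic (rep x) ⊤ r

lemma T_nonneg (x : KN) {r : ℝ} (hr : 1 ≤ r) : 0 ≤ T x r := characteristic_nonneg hr

lemma T_congr {x : KN} {f : ℂ → ℂ} (h : ∀ᶠ z in codiscrete ℂ, rep x z = f z) {r : ℝ}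
    (hr : 1 ≤ r) : T x r = characteristic f ⊤ r :=
  characteristic_congr_codiscrete h (by linarith)

lemma T_add (x y : KN) {r : ℝ} (hr : 1 ≤ r) : T (x + y) r ≤ T x r + T y r + log 2 := by
  rw [T_congr (f := rep x + rep y) (rep_add x y) hr]
  exact characteristic_add_top_le (rep_mer x) (rep_mer y) hr

lemma T_zero {r : ℝ} (hr : 1 ≤ r) : T 0 r = 0 := by
  rw [T_congr (f := fun _ => 0) rep_zero hr, characteristic]
  simp

lemma T_const (c : ℂ) {r : ℝ} (hr : 1 ≤ r) : T (io (algebraMap ℂ EN c)) r = log⁺ ‖c‖ := by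
  rw [T_congr (f := fun _ => c) (rep_const c) hr, characteristic]
  simp

lemma T_mul (x y : KN) {r : ℝ} (hr : 1 ≤ r) : T (x * y) r ≤ T x r + T y r := by
  by_cases hx : x = 0
  · rw [hx, zero_mul, T_zero hr]
    have := T_nonneg y hr
    linarith
  by_cases hy : y = 0
  · rw [hy, mul_zero, T_zero hr]
    have := T_nonneg x hr
    linarith
  rw [T_congr (f := rep x * rep y) (rep_mul x y) hr]
  exact characteristic_mul_top_le hr (rep_mer x) (rep_ord hx) (rep_mer y) (rep_ord hy)

lemma T_neg (x : KN) {r : ℝ} (hr : 1 ≤ r) : T (-x) r ≤ T x r := by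
  have h1 : -x = io (algebraMap ℂ EN (-1)) * x := by
    rw [map_neg, map_one, map_neg, map_one, neg_one_mul]
  rw [h1]
  refine (T_mul _ _ hr).trans ?_
  rw [T_const _ hr]
  simp

lemma T_inv (x : KN) : ∃ C : ℝ, 0 ≤ C ∧ ∀ r, 1 ≤ r → T x⁻¹ r ≤ T x r + C := by
  refine ⟨max |log ‖rep x 0‖| |log ‖meromorphicTrailingCoeffAt (rep x) 0‖|,
    (abs_nonneg _).trans (le_max_left _ _), fun r hr => ?_⟩
  rw [T_congr (f := (rep x)⁻¹) (rep_inv x) hr]
  have := characteristic_sub_characteristic_inv_le (R := r) (rep_mer x)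
  have := (abs_le.mp this).1
  rw [T]
  linarith

lemma T_pow (x : KN) (n : ℕ) {r : ℝ} (hr : 1 ≤ r) : T (x ^ n) r = n * T x r := by
  rw [T_congr (f := rep x ^ n) (rep_pow x n) hr, characteristic_pow_top (rep_mer x)]
  simp [T]

lemma rep_logDeriv (x : KN) : ∀ᶠ z in codiscrete ℂ, rep (DK x / x) z = logDeriv (rep x) z := by
  filter_upwards [rep_div (DK x) x, rep_DK x] with z h1 h2
  rw [h1, h2, logDeriv_apply]

lemma T_logDeriv {x : KN} (hx : x ≠ 0) : ∃ K : ℝ, 0 ≤ K ∧ ∀ᶠ r in ff,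
    T (DK x / x) r ≤ logCounting (logDeriv (rep x)) ⊤ r + K * (1 + log⁺ (T x r) + log r) := by
  obtain ⟨K, hK, h⟩ := lld (rep_mer x) (rep_ord hx)
  refine ⟨K, hK, ?_⟩
  filter_upwards [h, eventually_one_le_ff] with r h1 hr
  rw [T_congr (rep_logDeriv x) hr, characteristic, Pi.add_apply]
  have : T x r = characteristic (rep x) ⊤ r := rfl
  rw [this]
  linarith

/-- the poles of the logarithmic derivative -/
lemma negPart_divisor_logDeriv_le {f : ℂ → ℂ} (hf : Meromorphic f)
    (hf0 : ∀ z, meromorphicOrderAt f z ≠ ⊤) :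
    (divisor (logDeriv f) univ)⁻ ≤ (divisor f univ)⁺ + (divisor f univ)⁻ := by
  intro z
  rw [Function.locallyFinsuppWithin.coe_add, Pi.add_apply,
    Function.locallyFinsuppWithin.posPart_apply, Function.locallyFinsuppWithin.negPart_apply,
    Function.locallyFinsuppWithin.negPart_apply, posPart_add_negPart,
    divisor_apply hf.meromorphicOn (mem_univ z),
    divisor_apply hf.logDeriv.meromorphicOn (mem_univ z)]
  by_cases h : meromorphicOrderAt f z = 0
  · have h1 := meromorphicOrderAt_logDeriv_nonneg (hf z) h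
    have h2 : 0 ≤ (meromorphicOrderAt (logDeriv f) z).untop₀ := WithTop.untop₀_nonneg.mpr h1
    rw [negPart_eq_zero.mpr h2]
    exact abs_nonneg _
  · rw [meromorphicOrderAt_logDeriv_eq_neg_one (hf z) h (hf0 z)]
    have h1 : (meromorphicOrderAt f z).untop₀ ≠ 0 := by
      intro h2
      rw [WithTop.untop₀_eq_zero] at h2
      rcases h2 with h2 | h2
      · exact h h2
      · exact hf0 z h2
    have h2 : (-1 : WithTop ℤ).untop₀ = -1 := rfl
    rw [h2]
    have h3 : (1 : ℤ) ≤ |(meromorphicOrderAt f z).untop₀| := Int.one_le_abs h1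
    simpa using h3

lemma logCounting_logDeriv_le {f : ℂ → ℂ} (hf : Meromorphic f)
    (hf0 : ∀ z, meromorphicOrderAt f z ≠ ⊤) {r : ℝ} (hr : 1 ≤ r) :
    logCounting (logDeriv f) ⊤ r ≤ logCounting f 0 r + logCounting f ⊤ r := by
  rw [logCounting_top, logCounting_top, logCounting_zero, ← Pi.add_apply, ← map_add]
  exact Function.locallyFinsuppWithin.logCounting_le (negPart_divisor_logDeriv_le hf hf0) hr

lemma T_der (x : KN) : ∃ K : ℝ, 0 ≤ K ∧ ∀ᶠ r in ff,
    T (DK x) r ≤ 3 * T x r + K * (1 + log⁺ (T x r) + log r) := by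
  by_cases hx : x = 0
  · refine ⟨0, le_rfl, ?_⟩
    filter_upwards [eventually_one_le_ff] with r hr
    have h1 : DK x = 0 := by
      have := DK_add 0 0
      rw [hx]
      simpa using this
    rw [h1, T_zero hr]
    have := T_nonneg x hr
    linarith
  · obtain ⟨K, hK, h⟩ := T_logDeriv hx
    obtain ⟨C, hC, hinv⟩ := T_inv x
    refine ⟨K + C, by linarith, ?_⟩
    filter_upwards [h, eventually_one_le_ff] with r h1 hr
    have h2 : DK x = x * (DK x / x) := by field_simp
    have h3 : T (DK x) r ≤ T x r + T (DK x / x) r := by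
      conv_lhs => rw [h2]
      exact T_mul _ _ hr
    have h4 := logCounting_logDeriv_le (rep_mer x) (rep_ord hx) hr
    have h5 : logCounting (rep x) ⊤ r ≤ T x r := by
      rw [T, characteristic, Pi.add_apply]
      have := proximity_nonneg (f := rep x) (a := ⊤) r
      simp only [Pi.zero_apply] at this
      linarith
    have h6 : logCounting (rep x) 0 r ≤ T x r + C := by
      refine le_trans ?_ (hinv r hr)
      rw [T_congr (f := (rep x)⁻¹) (rep_inv x) hr, characteristic, Pi.add_apply, logCounting_inv]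
      have := proximity_nonneg (f := (rep x)⁻¹) (a := ⊤) r
      simp only [Pi.zero_apply] at this
      linarith
    have h7 : 0 ≤ log⁺ (T x r) := posLog_nonneg
    have h8 : 0 ≤ log r := Real.log_nonneg hr
    nlinarith

/-- the gauge: main term and error term -/
structure Gauge (M S : ℝ → ℝ) : Prop where
  hM : ∀ᶠ r in ff, 0 ≤ M r
  hS : ∀ᶠ r in ff, 1 ≤ S r
  hlog : ∀ᶠ r in ff, log r ≤ S r
  hSM : ∀ᶠ r in ff, log⁺ (M r) ≤ S r

/-- elements of growth at most `m` times the main term -/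
def BB (M S : ℝ → ℝ) (m : ℕ) : Set KN :=
  {x | ∃ C : ℝ, 0 ≤ C ∧ ∀ᶠ r in ff, T x r ≤ m * M r + C * S r}

lemma posLog_le_self {t : ℝ} (ht : 0 ≤ t) : log⁺ t ≤ t := by
  rw [posLog_apply, max_le_iff]
  refine ⟨ht, ?_⟩
  rcases eq_or_lt_of_le ht with h | h
  · rw [← h]; simp
  · have := Real.log_le_sub_one_of_pos h
    linarith

lemma posLog_T_le {M S : ℝ → ℝ} (hG : Gauge M S) {m : ℕ} {x : KN} (hx : x ∈ BB M S m) :
    ∃ C : ℝ, 0 ≤ C ∧ ∀ᶠ r in ff, log⁺ (T x r) ≤ C * S r := by
  obtain ⟨C, hC, h⟩ := hx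
  refine ⟨log 2 + (log⁺ m + 1) + (log⁺ C + 1), ?_, ?_⟩
  · have h1 : 0 ≤ log 2 := Real.log_nonneg (by norm_num)
    have h2 : 0 ≤ log⁺ (m : ℝ) := posLog_nonneg
    have h3 : 0 ≤ log⁺ C := posLog_nonneg
    linarith
  filter_upwards [h, hG.hM, hG.hS, hG.hSM, eventually_one_le_ff] with r h1 h2 h3 h4 hr
  have h5 : log⁺ (T x r) ≤ log⁺ (m * M r + C * S r) := posLog_le_posLog (T_nonneg x hr) h1
  have h6 := posLog_add (x := m * M r) (y := C * S r)
  have h7 := posLog_mul (x := (m : ℝ)) (y := M r)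
  have h8 := posLog_mul (x := C) (y := S r)
  have h9 := posLog_le_self (t := S r) (by linarith)
  have h10 : 0 ≤ log 2 := Real.log_nonneg (by norm_num)
  have h11 : 0 ≤ log⁺ (m : ℝ) := posLog_nonneg
  have h12 : 0 ≤ log⁺ C := posLog_nonneg
  nlinarith

theorem filt {M S : ℝ → ℝ} (hG : Gauge M S) : Filt KN DK (BB M S) where
  dadd := DK_add
  dmul := DK_mul
  mono := by
    rintro m n hmn x ⟨C, hC, h⟩
    refine ⟨C, hC, ?_⟩
    filter_upwards [h, hG.hM] with r h1 h2
    have : (m : ℝ) ≤ n := by exact_mod_cast hmn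
    nlinarith
  add := by
    rintro m n x y ⟨C, hC, h⟩ ⟨C', hC', h'⟩
    refine ⟨C + C' + log 2, by have := Real.log_nonneg (x := 2) (by norm_num); linarith, ?_⟩
    filter_upwards [h, h', hG.hS, eventually_one_le_ff] with r h1 h2 h3 hr
    have h4 := T_add x y hr
    have h5 : 0 ≤ log 2 := Real.log_nonneg (by norm_num)
    push_cast
    nlinarith
  mul := by
    rintro m n x y ⟨C, hC, h⟩ ⟨C', hC', h'⟩
    refine ⟨C + C', by linarith, ?_⟩
    filter_upwards [h, h', eventually_one_le_ff] with r h1 h2 hr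
    have h4 := T_mul x y hr
    push_cast
    linarith
  neg := by
    rintro m x ⟨C, hC, h⟩
    refine ⟨C, hC, ?_⟩
    filter_upwards [h, eventually_one_le_ff] with r h1 hr
    exact (T_neg x hr).trans h1
  inv := by
    rintro m x ⟨C, hC, h⟩
    obtain ⟨C', hC', h'⟩ := T_inv x
    refine ⟨C + C', by linarith, ?_⟩
    filter_upwards [h, hG.hS, eventually_one_le_ff] with r h1 h2 hr
    have := h' r hr
    nlinarith
  der := by
    rintro m x hx
    obtain ⟨C', hC', h'⟩ := posLog_T_le hG hx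
    obtain ⟨C, hC, h⟩ := hx
    obtain ⟨K, hK, h''⟩ := T_der x
    refine ⟨3 * C + K * (2 + C'), by positivity, ?_⟩
    filter_upwards [h, h', h'', hG.hS, hG.hlog, eventually_one_le_ff] with r h1 h2 h3 h4 h5 hr
    push_cast
    have h6 : K * (1 + log⁺ (T x r) + log r) ≤ K * (S r + C' * S r + S r) :=
      mul_le_mul_of_nonneg_left (by linarith) hK
    nlinarith
  const := by
    intro x hx
    obtain ⟨c, rfl⟩ := DK_const hx
    refine ⟨log⁺ ‖c‖, posLog_nonneg, ?_⟩
    filter_upwards [hG.hS, eventually_one_le_ff] with r h1 hr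
    rw [T_const c hr]
    have : 0 ≤ log⁺ ‖c‖ := posLog_nonneg
    push_cast
    nlinarith
  root := by
    rintro m n x hn ⟨C, hC, h⟩
    refine ⟨C, hC, ?_⟩
    filter_upwards [h, eventually_one_le_ff] with r h1 hr
    rw [T_pow x n hr] at h1
    refine le_trans ?_ h1
    have h2 : (1 : ℝ) ≤ n := by exact_mod_cast Nat.one_le_iff_ne_zero.mpr hn
    have := T_nonneg x hr
    nlinarith

end Pool.Agent.H13.Nev
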