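import Mathlib

/-!
# Exceptional sets of finite measure and Borel's growth lemma
-/

namespace Pool.Agent.H13.Nev

open MeasureTheory Set Filter

/-- the filter of sets of radii `r ≥ 1` whose complement has finite measure -/
noncomputable def ff : Filter ℝ := (volume.restrict (Ici (1 : ℝ))).cofinite

lemma eventually_ff {p : ℝ → Prop} : (∀ᶠ r in ff, p r) ↔ volume {r | 1 ≤ r ∧ ¬ p r} < ⊤ := by
  rw [ff, Measure.eventually_cofinite, Measure.restrict_apply' measurableSet_Ici]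
  congr! 2
  ext r
  simp [and_comm]

lemma ff_le_atTop : ff ≤ atTop := by
  intro s hs
  obtain ⟨a, ha⟩ := mem_atTop_sets.mp hs
  have : ∀ᶠ r in ff, r ∈ s := by
    rw [eventually_ff]
    refine lt_of_le_of_lt (measure_mono (t := Icc 1 a) ?_) (by simp)
    rintro r ⟨h1, h2⟩
    refine ⟨h1, ?_⟩
    by_contra h3
    exact h2 (ha r (not_le.mp h3).le)
  exact this

lemma eventually_one_le_ff : ∀ᶠ r in ff, 1 ≤ r := ff_le_atTop (eventually_ge_atTop 1)

/-- near every radius there is a non-exceptional one -/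
lemma exists_near_of_ff {p : ℝ → Prop} (h : ∀ᶠ r in ff, p r) :
    ∃ c : ℝ, 0 < c ∧ ∀ R : ℝ, 1 ≤ R → ∃ r, R ≤ r ∧ r ≤ R + c ∧ p r := by
  rw [eventually_ff] at h
  set m := (volume {r | 1 ≤ r ∧ ¬ p r}).toReal with hm
  refine ⟨m + 1, by positivity, fun R hR => ?_⟩
  by_contra hcon
  push Not at hcon
  have h1 : Icc R (R + (m + 1)) ⊆ {r | 1 ≤ r ∧ ¬ p r} := by
    rintro r ⟨h2, h3⟩
    exact ⟨hR.trans h2, hcon r h2 h3⟩
  have h2 := measure_mono (μ := volume) h1
  rw [Real.volume_Icc, ← ENNReal.ofReal_toReal h.ne, ← hm] at h2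
  have h3 := (ENNReal.ofReal_le_ofReal_iff (by positivity)).mp h2
  linarith

/-- Borel's growth lemma -/
lemma growth {T : ℝ → ℝ} (hT : MonotoneOn T (Ici 1)) (h1 : ∀ r, 1 ≤ r → 1 ≤ T r) :
    ∀ᶠ r in ff, T (r + 1 / T r) ≤ 2 * T r := by
  rw [eventually_ff]
  set E : Set ℝ := {r | 1 ≤ r ∧ ¬ T (r + 1 / T r) ≤ 2 * T r} with hE
  have hpos : ∀ r, 1 ≤ r → 0 < T r := fun r hr => lt_of_lt_of_le one_pos (h1 r hr)
  have hcover : E ⊆ ⋃ k : ℕ, {r | r ∈ E ∧ 2 ^ k ≤ T r ∧ T r < 2 ^ (k + 1)} := by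
    intro r hr
    rw [mem_iUnion]
    obtain ⟨k, hk1, hk2⟩ := exists_nat_pow_near (h1 r hr.1) (by norm_num : (1 : ℝ) < 2)
    exact ⟨k, hr, hk1, hk2⟩
  have hk : ∀ k : ℕ, volume {r | r ∈ E ∧ 2 ^ k ≤ T r ∧ T r < 2 ^ (k + 1)}
      ≤ ENNReal.ofReal ((1 / 2) ^ k) := by
    intro k
    refine (Real.volume_le_diam _).trans ?_
    apply Metric.ediam_le
    have key : ∀ r r', r ∈ {r | r ∈ E ∧ 2 ^ k ≤ T r ∧ T r < 2 ^ (k + 1)} →
        r' ∈ {r | r ∈ E ∧ 2 ^ k ≤ T r ∧ T r < 2 ^ (k + 1)} → r' ≤ r + (1 / 2) ^ k := by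
      intro r r' hr hr'
      have h2 : r' < r + 1 / T r := by
        by_contra hcon
        push Not at hcon
        have h3 : T (r + 1 / T r) ≤ T r' := by
          apply hT _ (mem_Ici.mpr hr'.1.1) hcon
          rw [mem_Ici]
          have := hpos r hr.1.1
          have := hr.1.1
          have h7 : 0 < 1 / T r := by positivity
          linarith
        have h4 := hr.1.2
        have h5 := hr.2.1
        have h6 := hr'.2.2
        rw [pow_succ] at h6
        push Not at h4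
        linarith
      have h3 : 1 / T r ≤ (1 / 2) ^ k := by
        rw [one_div, one_div, inv_pow]
        exact inv_anti₀ (by positivity) hr.2.1
      linarith
    intro r hr r' hr'
    rw [edist_dist]
    apply ENNReal.ofReal_le_ofReal
    rw [Real.dist_eq, abs_le]
    have h2 := key r r' hr hr'
    have h3 := key r' r hr' hr
    constructor <;> linarith
  refine lt_of_le_of_lt (measure_mono hcover) (lt_of_le_of_lt (measure_iUnion_le _) ?_)
  refine lt_of_le_of_lt (ENNReal.tsum_le_tsum hk) ?_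
  rw [← ENNReal.ofReal_tsum_of_nonneg (fun _ => by positivity)
    (summable_geometric_of_lt_one (by norm_num) (by norm_num))]
  exact ENNReal.ofReal_lt_top

end Pool.Agent.H13.Nev
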