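import Pool.Agent.H13.Nev.ZeroFree
import Pool.Agent.H13.Nev.Growth

/-!
# The lemma on the logarithmic derivative
-/

namespace Pool.Agent.H13.Nev

open MeasureTheory Set Real Metric Filter Topology MeromorphicOn ValueDistribution

/-- the support of the divisor in a closed ball -/
noncomputable def supp (x : ℂ → ℂ) (ρ : ℝ) : Finset ℂ :=
  ((divisor x (closedBall 0 ρ)).finiteSupport (isCompact_closedBall 0 ρ)).toFinset

lemma mem_supp {x : ℂ → ℂ} {ρ : ℝ} {u : ℂ} :
    u ∈ supp x ρ ↔ divisor x (closedBall 0 ρ) u ≠ 0 := by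
  simp [supp]

lemma supp_subset {x : ℂ → ℂ} {ρ : ℝ} {u : ℂ} (h : u ∈ supp x ρ) : u ∈ closedBall (0 : ℂ) ρ :=
  (divisor x (closedBall 0 ρ)).supportWithinDomain (mem_supp.mp h)

lemma decomp {x : ℂ → ℂ} (hx : Meromorphic x) (hx0 : ∀ z, meromorphicOrderAt x z ≠ ⊤) (ρ : ℝ) :
    ∃ v : ℂ → ℂ, AnalyticOnNhd ℂ v (closedBall 0 ρ) ∧ (∀ z ∈ closedBall (0 : ℂ) ρ, v z ≠ 0) ∧
      (∀ r, |r| < ρ → ∀ᶠ z in codiscreteWithin (sphere (0 : ℂ) |r|), logDeriv x z
        = ∑ u ∈ supp x ρ, ((divisor x (closedBall 0 ρ) u : ℤ) : ℂ) * (z - u)⁻¹ + logDeriv v z) ∧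
      (∀ᶠ z in codiscreteWithin (closedBall (0 : ℂ) ρ), log ‖x z‖
        = ∑ u ∈ supp x ρ, ((divisor x (closedBall 0 ρ) u : ℤ) : ℝ) * log ‖z - u‖
          + log ‖v z‖) := by
  set U := closedBall (0 : ℂ) ρ with hU
  set D := divisor x U with hD
  have hDf : D.support.Finite := D.finiteSupport (isCompact_closedBall 0 ρ)
  have hxU : MeromorphicOn x U := hx.meromorphicOn
  obtain ⟨v, hv, hv0, hxv⟩ := hxU.extract_zeros_poles (fun u => hx0 u) hDf
  refine ⟨v, hv, fun z hz => hv0 ⟨z, hz⟩, ?_, ?_⟩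
  · intro r hr
    set φ : ℂ → ℂ := ∏ᶠ u, (· - u) ^ D u with hφ
    have hsub : sphere (0 : ℂ) |r| ⊆ interior U := by
      intro z hz
      have h1 : ball (0 : ℂ) ρ ⊆ interior U := interior_maximal ball_subset_closedBall isOpen_ball
      apply h1
      rw [mem_ball, dist_zero_right]
      rw [mem_sphere, dist_zero_right] at hz
      rw [hz]; exact hr
    have hmono : codiscreteWithin (sphere (0 : ℂ) |r|) ≤ codiscreteWithin U :=
      codiscreteWithin_mono (hsub.trans interior_subset)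
    have h1 := eventually_nhds_eq hxv hsub
    have hφm : MeromorphicOn φ U :=
      (Function.FactorizedRational.meromorphicNFOn D U).meromorphicOn
    have hv' : ∀ z ∈ U, meromorphicOrderAt v z ≠ ⊤ := by
      intro z hz
      rw [(hv z hz).meromorphicOrderAt_eq, (hv z hz).analyticOrderAt_eq_zero.mpr (hv0 ⟨z, hz⟩)]
      simp
    have h2 := (MeromorphicOn.logDeriv_mul_eventuallyEq hφm hv.meromorphicOn
      (fun z _ => Function.FactorizedRational.meromorphicOrderAt_ne_top D) hv').filter_mono hmono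
    have h3 := (MeromorphicOn.logDeriv_finprod_zpow_eventuallyEq (U := U) (F := fun u z => z - u)
      (d := fun u => D u) hDf (fun u z _ => by fun_prop) (fun u z _ => by
        intro htop
        have h4 := meromorphicOrderAt_eq_top_iff.mp htop
        have h5 : ∀ᶠ w in 𝓝[≠] z, w ≠ u := by
          by_cases hzu : z = u
          · rw [hzu]; exact self_mem_nhdsWithin
          · exact mem_nhdsWithin_of_mem_nhds (isOpen_ne.mem_nhds hzu)
        obtain ⟨w, hw1, hw2⟩ := (h4.and h5).exists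
        exact hw2 (sub_eq_zero.mp hw1))).filter_mono hmono
    filter_upwards [h1, h2, h3] with z hz1 hz2 hz3
    have h4 : logDeriv x z = logDeriv (φ * v) z := by
      rw [logDeriv_apply, logDeriv_apply, hz1.deriv_eq, hz1.eq_of_nhds]
      rfl
    rw [h4, hz2, Pi.add_apply, hz3]
    congr 1
    rw [finsum_eq_sum_of_support_subset (s := supp x ρ)]
    · apply Finset.sum_congr rfl
      intro u _
      rw [zsmul_eq_mul]
      congr 1
      rw [logDeriv_apply]
      simp [one_div]
    · intro u hu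
      rw [Finset.mem_coe, mem_supp]
      intro h0
      apply hu
      simp only
      rw [show D u = 0 from h0, zero_smul]
  · have h1 := MeromorphicOn.extract_zeros_poles_log hv0 hxv
    filter_upwards [h1] with z hz
    rw [hz, Pi.add_apply]
    congr 1
    have hsupp : (fun u : ℂ => ((D u : ℝ) * log ‖· - u‖ : ℂ → ℝ)).support ⊆ supp x ρ := by
      intro u hu
      rw [Finset.mem_coe, mem_supp]
      intro h0
      apply hu
      simp only
      rw [show D u = 0 from h0]
      funext z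
      simp
    rw [finsum_eq_sum_of_support_subset _ hsupp, Finset.sum_apply]

/-- the number of zeros and poles -/
noncomputable def nn (x : ℂ → ℂ) (ρ : ℝ) : ℝ :=
  ∑ u ∈ supp x ρ, |((divisor x (closedBall 0 ρ) u : ℤ) : ℝ)|

lemma nn_nonneg (x : ℂ → ℂ) (ρ : ℝ) : 0 ≤ nn x ρ := Finset.sum_nonneg fun _ _ => abs_nonneg _

lemma count_le {x : ℂ → ℂ} (hx : Meromorphic x) {ρ R : ℝ} (hρ : 1 ≤ ρ) (hR : ρ < R) :
    nn x ρ * log (R / ρ) ≤ logCounting x 0 R + logCounting x ⊤ R := by
  classical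
  have hR0 : 0 < R := by linarith
  have hρ0 : 0 < ρ := by linarith
  have hlogR : log (R / ρ) ≤ log R := Real.log_le_log (by positivity)
    (div_le_self hR0.le hρ)
  have hlog0 : 0 ≤ log (R / ρ) := Real.log_nonneg ((one_le_div hρ0).mpr hR.le)
  set D := divisor x univ with hD
  set E := D⁺ + D⁻ with hE
  have hEu : ∀ u, ((E u : ℤ) : ℝ) = |((D u : ℤ) : ℝ)| := by
    intro u
    rw [hE, Function.locallyFinsuppWithin.coe_add, Pi.add_apply,
      Function.locallyFinsuppWithin.posPart_apply, Function.locallyFinsuppWithin.negPart_apply]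
    rw [posPart_add_negPart]
    push_cast
    rfl
  have hsum : logCounting x 0 R + logCounting x ⊤ R
      = Function.locallyFinsuppWithin.logCounting E R := by
    rw [logCounting_zero, logCounting_top, hE, map_add]
    rfl
  have hE0 : ∀ u, (0 : ℝ) ≤ ((E u : ℤ) : ℝ) := fun u => by rw [hEu]; exact abs_nonneg _
  have hDρ : ∀ u ∈ supp x ρ, |((divisor x (closedBall 0 ρ) u : ℤ) : ℝ)| = ((E u : ℤ) : ℝ) := by
    intro u hu
    rw [hEu, hD, divisor_apply hx.meromorphicOn (supp_subset hu),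
      divisor_apply hx.meromorphicOn (mem_univ u)]
  rw [hsum]
  show _ ≤ ∑ᶠ z, ((Function.locallyFinsuppWithin.toClosedBall R E z : ℤ) : ℝ) * log (R * ‖z‖⁻¹)
    + ((E 0 : ℤ) : ℝ) * log R
  set g : ℂ → ℝ := fun z => ((Function.locallyFinsuppWithin.toClosedBall R E z : ℤ) : ℝ)
    * log (R * ‖z‖⁻¹) with hg
  have hgin : ∀ z ∈ closedBall (0 : ℂ) R, g z = ((E z : ℤ) : ℝ) * log (R * ‖z‖⁻¹) := by
    intro z hz
    simp only [hg]
    rw [Function.locallyFinsuppWithin.toClosedBall_eval_within E (by rwa [abs_of_pos hR0])]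
  have hgout : ∀ z ∉ closedBall (0 : ℂ) R, g z = 0 := by
    intro z hz
    simp only [hg]
    rw [Function.locallyFinsuppWithin.apply_eq_zero_of_notMem _ (by rwa [abs_of_pos hR0])]
    simp
  have hg0 : ∀ z, 0 ≤ g z := by
    intro z
    by_cases hz : z ∈ closedBall (0 : ℂ) R
    · rw [hgin z hz]
      apply mul_nonneg (hE0 z)
      by_cases hz0 : z = 0
      · simp [hz0]
      · apply Real.log_nonneg
        rw [mem_closedBall, dist_zero_right] at hz
        have : 0 < ‖z‖ := norm_pos_iff.mpr hz0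
        rw [← div_eq_mul_inv]
        exact (one_le_div this).mpr hz
    · rw [hgout z hz]
  have hfin : (Function.locallyFinsuppWithin.toClosedBall R E).support.Finite :=
    (Function.locallyFinsuppWithin.toClosedBall R E).finiteSupport (isCompact_closedBall _ _)
  have hfs : ∑ᶠ z, g z = ∑ z ∈ hfin.toFinset ∪ supp x ρ, g z := by
    apply finsum_eq_sum_of_support_subset
    intro z hz
    rw [Finset.coe_union]
    left
    rw [Set.Finite.coe_toFinset]
    intro h0
    apply hz
    simp only [hg]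
    rw [h0]
    simp
  have h1 : ∑ z ∈ supp x ρ, g z ≤ ∑ᶠ z, g z := by
    rw [hfs]
    exact Finset.sum_le_sum_of_subset_of_nonneg Finset.subset_union_right
      (fun z _ _ => hg0 z)
  have h2 : nn x ρ * log (R / ρ) ≤ ∑ z ∈ supp x ρ, g z + ((E 0 : ℤ) : ℝ) * log R := by
    rw [nn, Finset.sum_mul]
    have h3 : ∀ u ∈ supp x ρ, |((divisor x (closedBall 0 ρ) u : ℤ) : ℝ)| * log (R / ρ)
        ≤ g u + (if u = 0 then ((E 0 : ℤ) : ℝ) * log R else 0) := by
      intro u hu
      have huρ := supp_subset hu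
      have huR : u ∈ closedBall (0 : ℂ) R := closedBall_subset_closedBall hR.le huρ
      rw [hDρ u hu]
      by_cases hu0 : u = 0
      · rw [if_pos hu0, hu0]
        have := mul_le_mul_of_nonneg_left hlogR (hE0 0)
        have := hg0 0
        linarith
      · rw [if_neg hu0, add_zero, hgin u huR]
        apply mul_le_mul_of_nonneg_left _ (hE0 u)
        apply Real.log_le_log (by positivity)
        rw [mem_closedBall, dist_zero_right] at huρ
        have : 0 < ‖u‖ := norm_pos_iff.mpr hu0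
        rw [← div_eq_mul_inv]
        exact div_le_div_of_nonneg_left hR0.le this huρ
    refine (Finset.sum_le_sum h3).trans ?_
    rw [Finset.sum_add_distrib]
    apply add_le_add le_rfl
    rw [Finset.sum_ite_eq']
    split_ifs with h
    · exact le_rfl
    · exact mul_nonneg (hE0 0) (Real.log_nonneg (by linarith))
  linarith

lemma abs_log_eq (t : ℝ) : |log t| = log⁺ t + log⁺ t⁻¹ := by
  rw [posLog_apply, posLog_apply, Real.log_inv]
  rcases le_total 0 (log t) with h | h
  · rw [abs_of_nonneg h, max_eq_right h, max_eq_left (by linarith)]; ring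
  · rw [abs_of_nonpos h, max_eq_left h, max_eq_right (by linarith)]; ring

lemma circleAverage_abs_log_sub {ρ : ℝ} (hρ : 1 ≤ ρ) {u : ℂ} (hu : u ∈ closedBall (0 : ℂ) ρ) :
    circleAverage (fun z => |log ‖z - u‖|) 0 ρ ≤ 2 * log (2 * ρ) := by
  have hρ0 : 0 < ρ := by linarith
  have hmer : MeromorphicOn (fun z : ℂ => z - u) (sphere 0 |ρ|) := fun z _ => by fun_prop
  have hi1 : CircleIntegrable (fun z : ℂ => log⁺ ‖z - u‖) 0 ρ := hmer.circleIntegrable_posLog_norm
  have hi2 : CircleIntegrable (fun z : ℂ => log ‖z - u‖) 0 ρ := hmer.circleIntegrable_log_norm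
  have h1 : (fun z : ℂ => |log ‖z - u‖|) = fun z => (2 * log⁺ ‖z - u‖) - log ‖z - u‖ := by
    funext z
    rw [abs_log_eq]
    have := posLog_sub_posLog_inv (x := ‖z - u‖)
    linarith
  have hi3 : CircleIntegrable (fun z : ℂ => 2 * log⁺ ‖z - u‖) 0 ρ := by
    exact hi1.const_fun_smul (a := (2 : ℝ))
  have h2 : circleAverage (fun z : ℂ => 2 * log⁺ ‖z - u‖) 0 ρ ≤ 2 * log (2 * ρ) := by
    apply circleAverage_mono_on_of_le_circle hi3
    intro z hz
    apply mul_le_mul_of_nonneg_left _ (by norm_num)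
    rw [mem_sphere, dist_zero_right, abs_of_pos hρ0] at hz
    rw [mem_closedBall, dist_zero_right] at hu
    have h4 : ‖z - u‖ ≤ 2 * ρ := (norm_sub_le _ _).trans (by linarith)
    refine (posLog_le_posLog (norm_nonneg _) h4).trans ?_
    rw [posLog_eq_log (by rw [abs_of_pos (by positivity)]; linarith)]
  have h3 : circleAverage (fun z : ℂ => log ‖z - u‖) 0 ρ = log ρ :=
    circleAverage_log_norm_sub_const_of_mem_closedBall (by rwa [abs_of_pos hρ0])
  rw [h1, circleAverage_fun_sub hi3 hi2, h3]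
  have := Real.log_nonneg hρ
  linarith

/-- the mean of `|log ‖v‖|` for the zero-free part `v` -/
lemma mean_log_le {x : ℂ → ℂ} (hx : Meromorphic x) {ρ : ℝ} (hρ : 1 ≤ ρ) {v : ℂ → ℂ}
    (hv : AnalyticOnNhd ℂ v (closedBall 0 ρ))
    (hxv : ∀ᶠ z in codiscreteWithin (closedBall (0 : ℂ) ρ), log ‖x z‖
        = ∑ u ∈ supp x ρ, ((divisor x (closedBall 0 ρ) u : ℤ) : ℝ) * log ‖z - u‖
          + log ‖v z‖) :
    circleAverage (fun z => |log ‖v z‖|) 0 ρ
      ≤ proximity x ⊤ ρ + proximity x⁻¹ ⊤ ρ + nn x ρ * (2 * log (2 * ρ)) := by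
  have hρ0 : 0 < ρ := by linarith
  have hsph : sphere (0 : ℂ) |ρ| ⊆ closedBall 0 ρ := by
    rw [abs_of_pos hρ0]; exact sphere_subset_closedBall
  set a : ℂ → ℝ := fun u => |((divisor x (closedBall 0 ρ) u : ℤ) : ℝ)| with ha
  have hxi : CircleIntegrable (fun z => |log ‖x z‖|) 0 ρ :=
    (hx.meromorphicOn.circleIntegrable_log_norm (f := x)).abs
  have hvi : CircleIntegrable (fun z => |log ‖v z‖|) 0 ρ :=
    ((hv.mono hsph).meromorphicOn.circleIntegrable_log_norm (f := v)).abs
  have hui : ∀ u ∈ supp x ρ, CircleIntegrable (fun z => a u * |log ‖z - u‖|) 0 ρ := by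
    intro u _
    have h1 : CircleIntegrable (fun z : ℂ => |log ‖z - u‖|) 0 ρ :=
      (MeromorphicOn.circleIntegrable_log_norm (f := fun z : ℂ => z - u)
        (fun z _ => by fun_prop)).abs
    exact h1.const_fun_smul (a := a u)
  have hsi : CircleIntegrable (fun z => ∑ u ∈ supp x ρ, a u * |log ‖z - u‖|) 0 ρ :=
    CircleIntegrable.fun_sum _ hui
  have hmin : ∀ᶠ z in codiscreteWithin (sphere (0 : ℂ) |ρ|), log ‖x z‖
        = ∑ u ∈ supp x ρ, ((divisor x (closedBall 0 ρ) u : ℤ) : ℝ) * log ‖z - u‖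
          + log ‖v z‖ := hxv.filter_mono (codiscreteWithin_mono hsph)
  have hcongr : circleAverage (fun z => |log ‖v z‖|) 0 ρ
      = circleAverage (fun z => |log ‖x z‖ - ∑ u ∈ supp x ρ,
          ((divisor x (closedBall 0 ρ) u : ℤ) : ℝ) * log ‖z - u‖|) 0 ρ := by
    apply circleAverage_congr_codiscreteWithin _ hρ0.ne'
    filter_upwards [hmin] with z hz
    rw [hz]
    congr 1
    ring
  have hpt : ∀ z : ℂ, |log ‖x z‖ - ∑ u ∈ supp x ρ,
        ((divisor x (closedBall 0 ρ) u : ℤ) : ℝ) * log ‖z - u‖|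
      ≤ |log ‖x z‖| + ∑ u ∈ supp x ρ, a u * |log ‖z - u‖| := by
    intro z
    refine (abs_sub _ _).trans ?_
    apply add_le_add le_rfl
    refine (Finset.abs_sum_le_sum_abs _ _).trans ?_
    apply Finset.sum_le_sum
    intro u _
    rw [abs_mul]
  have hsub : CircleIntegrable (fun z => |log ‖x z‖ - ∑ u ∈ supp x ρ,
          ((divisor x (closedBall 0 ρ) u : ℤ) : ℝ) * log ‖z - u‖|) 0 ρ := by
    have h1 : CircleIntegrable (fun z => ∑ u ∈ supp x ρ,
          ((divisor x (closedBall 0 ρ) u : ℤ) : ℝ) * log ‖z - u‖) 0 ρ := by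
      apply CircleIntegrable.fun_sum
      intro u _
      have h2 : CircleIntegrable (fun z : ℂ => log ‖z - u‖) 0 ρ :=
        (MeromorphicOn.circleIntegrable_log_norm (f := fun z : ℂ => z - u)
          (fun z _ => by fun_prop))
      exact h2.const_fun_smul (a := ((divisor x (closedBall 0 ρ) u : ℤ) : ℝ))
    exact ((hx.meromorphicOn.circleIntegrable_log_norm (f := x)).sub h1).abs
  have hx1 : circleAverage (fun z => |log ‖x z‖|) 0 ρ = proximity x ⊤ ρ + proximity x⁻¹ ⊤ ρ := by
    have h1 : CircleIntegrable (fun z => log⁺ ‖x z‖) 0 ρ :=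
      hx.meromorphicOn.circleIntegrable_posLog_norm
    have h2 : CircleIntegrable (fun z => log⁺ ‖x⁻¹ z‖) 0 ρ :=
      hx.inv.meromorphicOn.circleIntegrable_posLog_norm
    rw [proximity_top, proximity_top, ← circleAverage_fun_add h1 h2]
    congr 1
    funext z
    rw [abs_log_eq, Pi.inv_apply, norm_inv]
  rw [hcongr, ← hx1]
  refine (circleAverage_mono hsub (hxi.add hsi) (fun z _ => hpt z)).trans ?_
  rw [circleAverage_add hxi hsi]
  apply add_le_add le_rfl
  rw [circleAverage_fun_sum hui, nn, Finset.sum_mul]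
  apply Finset.sum_le_sum
  intro u hu
  have h1 : circleAverage (fun z : ℂ => a u * |log ‖z - u‖|) 0 ρ
      = a u * circleAverage (fun z : ℂ => |log ‖z - u‖|) 0 ρ :=
    circleAverage_fun_smul (a := a u) (c := 0) (R := ρ) (f := fun z : ℂ => |log ‖z - u‖|)
  rw [h1]
  exact mul_le_mul_of_nonneg_left (circleAverage_abs_log_sub hρ (supp_subset hu)) (abs_nonneg _)

/-- the estimate for one radius -/
lemma prox_logDeriv_le {x : ℂ → ℂ} (hx : Meromorphic x) (hx0 : ∀ z, meromorphicOrderAt x z ≠ ⊤)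
    {r ρ : ℝ} (hr : 1 ≤ r) (hρ : r < ρ) :
    proximity (logDeriv x) ⊤ r ≤ 2 * log (1 + c0 * nn x ρ)
      + log⁺ (2 * ρ / (ρ - r) ^ 2 * (proximity x ⊤ ρ + proximity x⁻¹ ⊤ ρ
        + nn x ρ * (2 * log (2 * ρ)))) + log 2 := by
  have hr0 : 0 < r := by linarith
  have hρ1 : 1 ≤ ρ := by linarith
  have hρ0 : 0 < ρ := by linarith
  obtain ⟨v, hv, hv0, h1, h2⟩ := decomp hx hx0 ρ
  have hA := mean_log_le hx hρ1 hv h2
  set A := circleAverage (fun z => |log ‖v z‖|) 0 ρ with hAdef
  set L := log⁺ (2 * ρ / (ρ - r) ^ 2 * (proximity x ⊤ ρ + proximity x⁻¹ ⊤ ρ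
        + nn x ρ * (2 * log (2 * ρ)))) with hL
  have hA0 : 0 ≤ A := circleAverage_nonneg_of_nonneg (fun _ _ => abs_nonneg _)
  have hr' := h1 r (by rwa [abs_of_pos hr0])
  rw [proximity_top]
  set Y : ℂ → ℂ := fun z => ∑ u ∈ supp x ρ,
    ((divisor x (closedBall 0 ρ) u : ℤ) : ℂ) * (z - u)⁻¹ with hY
  have hsph : sphere (0 : ℂ) |r| ⊆ ball 0 ρ := by
    intro z hz
    rw [mem_sphere, dist_zero_right, abs_of_pos hr0] at hz
    rw [mem_ball, dist_zero_right, hz]
    exact hρ
  have hcongr : circleAverage (fun z => log⁺ ‖logDeriv x z‖) 0 r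
      = circleAverage (fun z => log⁺ ‖Y z + logDeriv v z‖) 0 r := by
    apply circleAverage_congr_codiscreteWithin _ hr0.ne'
    filter_upwards [hr'] with z hz
    rw [hz]
  have hYm : MeromorphicOn Y (sphere 0 |r|) := by
    intro z _
    fun_prop
  have hvm : MeromorphicOn (logDeriv v) (sphere 0 |r|) := by
    intro z hz
    have h3 := hv z (ball_subset_closedBall (hsph hz))
    exact (h3.meromorphicAt.deriv).div h3.meromorphicAt
  have hi1 : CircleIntegrable (fun z => log⁺ ‖Y z + logDeriv v z‖) 0 r :=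
    MeromorphicOn.circleIntegrable_posLog_norm (f := fun z => Y z + logDeriv v z)
      (fun z hz => (hYm z hz).add (hvm z hz))
  have hi2 : CircleIntegrable (fun z => log⁺ ‖Y z‖) 0 r := hYm.circleIntegrable_posLog_norm
  have hi3 : CircleIntegrable (fun z => log⁺ ‖Y z‖ + (L + log 2)) 0 r :=
    hi2.add (circleIntegrable_const _ _ _)
  show circleAverage (fun z => log⁺ ‖logDeriv x z‖) 0 r ≤ _
  rw [hcongr]
  have hpt : ∀ z ∈ sphere (0 : ℂ) |r|, log⁺ ‖Y z + logDeriv v z‖ ≤ log⁺ ‖Y z‖ + (L + log 2) := by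
    intro z hz
    have h3 := posLog_norm_add_le (Y z) (logDeriv v z)
    have h4 : log⁺ ‖logDeriv v z‖ ≤ L := by
      apply posLog_le_posLog (norm_nonneg _)
      refine (norm_logDeriv_le hρ0 hv hv0 (hsph hz)).trans ?_
      rw [mem_sphere, dist_zero_right, abs_of_pos hr0] at hz
      rw [hz]
      exact mul_le_mul_of_nonneg_left hA (by positivity)
    linarith
  refine (circleAverage_mono hi1 hi3 hpt).trans ?_
  rw [circleAverage_fun_add hi2 (circleIntegrable_const _ _ _), circleAverage_const]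
  have h5 := circleAverage_posLog_sum_le hr (supp x ρ) (fun u => divisor x (closedBall 0 ρ) u)
  have h6 : circleAverage (fun z => log⁺ ‖Y z‖) 0 r ≤ 2 * log (1 + c0 * nn x ρ) := h5
  linarith

/-- **Lemma on the logarithmic derivative.** -/
theorem lld {x : ℂ → ℂ} (hx : Meromorphic x) (hx0 : ∀ z, meromorphicOrderAt x z ≠ ⊤) :
    ∃ K : ℝ, 0 ≤ K ∧ ∀ᶠ r in ff, proximity (logDeriv x) ⊤ r
      ≤ K * (1 + log⁺ (characteristic x ⊤ r) + log r) := by
  set C1 : ℝ := max |log ‖x 0‖| |log ‖meromorphicTrailingCoeffAt x 0‖| with hC1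
  have hC1n : 0 ≤ C1 := (abs_nonneg _).trans (le_max_left _ _)
  have hinv : ∀ R, characteristic x⁻¹ ⊤ R ≤ characteristic x ⊤ R + C1 := by
    intro R
    have := characteristic_sub_characteristic_inv_le (R := R) hx
    rw [← hC1] at this
    have := (abs_le.mp this).1
    linarith
  have hmono := characteristic_monotoneOn hx
  set T : ℝ → ℝ := fun r => 1 + characteristic x ⊤ r with hT
  have hTm : MonotoneOn T (Ici 1) := by
    intro a ha b hb hab
    have := hmono (lt_of_lt_of_le one_pos ha : (0:ℝ) < a) (lt_of_lt_of_le one_pos hb : (0:ℝ) < b) hab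
    simp only [hT]
    linarith
  have hT1 : ∀ r, 1 ≤ r → 1 ≤ T r := by
    intro r hr
    have := characteristic_nonneg (f := x) (a := ⊤) hr
    simp only [hT]
    linarith
  set C2 : ℝ := 4 * (4 + C1) with hC2
  set C3 : ℝ := 4 + C1 + 8 * C2 with hC3
  have hC2n : 0 ≤ C2 := by positivity
  have hC3n : 1 ≤ C3 := by linarith
  set K0 : ℝ := 2 * log (1 + c0 * C2) + log (16 * C3) + log 2 + 8 * log 2 with hK0
  have hc0 := c0_nonneg
  have hK0n : 0 ≤ K0 := by
    have h1 : 0 ≤ log (1 + c0 * C2) := Real.log_nonneg (by nlinarith)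
    have h2 : 0 ≤ log (16 * C3) := Real.log_nonneg (by linarith)
    have h3 : 0 ≤ log 2 := Real.log_nonneg (by norm_num)
    linarith
  refine ⟨K0 + 8, by linarith, ?_⟩
  filter_upwards [growth hTm hT1, eventually_one_le_ff] with r hgr hr
  set t := T r with ht
  have ht1 : 1 ≤ t := hT1 r hr
  have ht0 : 0 < t := by linarith
  set R := r + 1 / t with hR
  set ρ := (r + R) / 2 with hρ
  have h1t : 1 / t ≤ 1 := by rw [div_le_one ht0]; exact ht1
  have h1t0 : 0 < 1 / t := by positivity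
  have hrρ : r < ρ := by rw [hρ]; linarith
  have hρR : ρ < R := by rw [hρ]; linarith
  have hρ1 : 1 ≤ ρ := by linarith
  have hR2 : R ≤ 2 * r := by linarith
  have hR0 : 0 < R := by linarith
  have hρ0 : 0 < ρ := by linarith
  have hr0 : 0 < r := by linarith
  have hTR : characteristic x ⊤ R ≤ 2 * t := by
    have : T R ≤ 2 * t := hgr
    simp only [hT] at this
    linarith
  have hTρ : characteristic x ⊤ ρ ≤ 2 * t :=
    (hmono (show (0:ℝ) < ρ by linarith) (show (0:ℝ) < R by linarith) hρR.le).trans hTR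
  -- the number of zeros and poles
  have hn0 := nn_nonneg x ρ
  have hn1 : nn x ρ * log (R / ρ) ≤ 4 * t + C1 := by
    refine (count_le hx hρ1 hρR).trans ?_
    have h1 : logCounting x ⊤ R ≤ characteristic x ⊤ R := by
      rw [characteristic, Pi.add_apply]
      have := proximity_nonneg (f := x) (a := ⊤) R
      simp only [Pi.zero_apply] at this
      linarith
    have h2 : logCounting x 0 R ≤ characteristic x⁻¹ ⊤ R := by
      rw [characteristic, Pi.add_apply, logCounting_inv]
      have := proximity_nonneg (f := x⁻¹) (a := ⊤) R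
      simp only [Pi.zero_apply] at this
      linarith
    have h3 := hinv R
    linarith
  have hlog : 1 / (4 * r * t) ≤ log (R / ρ) := by
    have h1 := Real.one_sub_inv_le_log_of_pos (x := R / ρ) (by positivity)
    rw [inv_div] at h1
    refine le_trans ?_ h1
    have h2 : 1 - ρ / R = (1 / (2 * t)) / R := by
      rw [hρ]
      field_simp
      rw [hR]
      field_simp
      ring
    rw [h2, div_div]
    apply one_div_le_one_div_of_le (by positivity)
    nlinarith
  have hn : nn x ρ ≤ C2 * r * t ^ 2 := by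
    have h1 : nn x ρ * (1 / (4 * r * t)) ≤ 4 * t + C1 :=
      (mul_le_mul_of_nonneg_left hlog hn0).trans hn1
    have h2 : nn x ρ ≤ (4 * t + C1) * (4 * r * t) := by
      rw [mul_one_div] at h1
      exact (div_le_iff₀ (by positivity)).mp h1
    refine h2.trans ?_
    have h3 : 4 * t + C1 ≤ (4 + C1) * t := by nlinarith
    calc (4 * t + C1) * (4 * r * t) ≤ ((4 + C1) * t) * (4 * r * t) :=
          mul_le_mul_of_nonneg_right h3 (by positivity)
      _ = C2 * r * t ^ 2 := by rw [hC2]; ring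
  -- the mean
  have hlog2ρ : log (2 * ρ) ≤ 4 * r := by
    have := Real.log_le_sub_one_of_pos (x := 2 * ρ) (by positivity)
    linarith
  have hA : proximity x ⊤ ρ + proximity x⁻¹ ⊤ ρ + nn x ρ * (2 * log (2 * ρ))
      ≤ C3 * r ^ 2 * t ^ 2 := by
    have h1 : proximity x ⊤ ρ ≤ characteristic x ⊤ ρ := by
      rw [characteristic, Pi.add_apply]
      have := logCounting_nonneg (f := x) (e := ⊤) hρ1
      linarith
    have h2 : proximity x⁻¹ ⊤ ρ ≤ characteristic x⁻¹ ⊤ ρ := by
      rw [characteristic, Pi.add_apply]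
      have := logCounting_nonneg (f := x⁻¹) (e := ⊤) hρ1
      linarith
    have h3 := hinv ρ
    have h4 : nn x ρ * (2 * log (2 * ρ)) ≤ (C2 * r * t ^ 2) * (2 * (4 * r)) := by
      apply mul_le_mul hn (by linarith) _ (by positivity)
      have := Real.log_nonneg (x := 2 * ρ) (by linarith)
      linarith
    have h5 : 4 * t + C1 ≤ (4 + C1) * (r ^ 2 * t ^ 2) := by
      have h6 : (1 : ℝ) ≤ r ^ 2 := by nlinarith
      have h7 : t ≤ r ^ 2 * t ^ 2 := by nlinarith [mul_le_mul h6 ht1 (by norm_num) (by positivity)]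
      nlinarith
    have h8 : C3 * r ^ 2 * t ^ 2 = (4 + C1) * (r ^ 2 * t ^ 2)
        + (C2 * r * t ^ 2) * (2 * (4 * r)) := by rw [hC3]; ring
    linarith
  have hfac : 2 * ρ / (ρ - r) ^ 2 ≤ 16 * r * t ^ 2 := by
    have h1 : ρ - r = 1 / (2 * t) := by
      rw [hρ, hR]; field_simp; ring
    rw [h1]
    have h2 : 2 * ρ / (1 / (2 * t)) ^ 2 = 8 * ρ * t ^ 2 := by field_simp; ring
    rw [h2]
    have h3 : ρ ≤ 2 * r := by linarith
    nlinarith [sq_nonneg t, mul_le_mul_of_nonneg_right h3 (sq_nonneg t)]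
  have hprod : 2 * ρ / (ρ - r) ^ 2 * (proximity x ⊤ ρ + proximity x⁻¹ ⊤ ρ
        + nn x ρ * (2 * log (2 * ρ))) ≤ 16 * C3 * r ^ 3 * t ^ 4 := by
    have h0 : 0 ≤ proximity x ⊤ ρ + proximity x⁻¹ ⊤ ρ + nn x ρ * (2 * log (2 * ρ)) := by
      have h1 := proximity_nonneg (f := x) (a := ⊤) ρ
      have h2 := proximity_nonneg (f := x⁻¹) (a := ⊤) ρ
      simp only [Pi.zero_apply] at h1 h2
      have h3 := Real.log_nonneg (x := 2 * ρ) (by linarith)
      positivity
    calc _ ≤ (16 * r * t ^ 2) * (C3 * r ^ 2 * t ^ 2) := mul_le_mul hfac hA h0 (by positivity)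
      _ = 16 * C3 * r ^ 3 * t ^ 4 := by ring
  have hmain := prox_logDeriv_le hx hx0 hr hrρ
  have hp0 : 0 ≤ 2 * ρ / (ρ - r) ^ 2 * (proximity x ⊤ ρ + proximity x⁻¹ ⊤ ρ
        + nn x ρ * (2 * log (2 * ρ))) := by
    have h1 := proximity_nonneg (f := x) (a := ⊤) ρ
    have h2 := proximity_nonneg (f := x⁻¹) (a := ⊤) ρ
    simp only [Pi.zero_apply] at h1 h2
    have h3 := Real.log_nonneg (x := 2 * ρ) (by linarith)
    positivity
  have hl1 : log⁺ (2 * ρ / (ρ - r) ^ 2 * (proximity x ⊤ ρ + proximity x⁻¹ ⊤ ρ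
        + nn x ρ * (2 * log (2 * ρ)))) ≤ log (16 * C3) + 3 * log r + 4 * log t := by
    refine (posLog_le_posLog hp0 hprod).trans ?_
    have h1 : (1 : ℝ) ≤ 16 * C3 * r ^ 3 * t ^ 4 := by
      have h2 : (1 : ℝ) ≤ r ^ 3 := one_le_pow₀ hr
      have h3 : (1 : ℝ) ≤ t ^ 4 := one_le_pow₀ ht1
      have h4 : (1 : ℝ) ≤ 16 * C3 := by linarith
      have h5 : (1 : ℝ) ≤ 16 * C3 * r ^ 3 := one_le_mul_of_one_le_of_one_le h4 h2
      exact one_le_mul_of_one_le_of_one_le h5 h3
    rw [posLog_eq_log (by rw [abs_of_pos (by linarith)]; exact h1),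
      Real.log_mul (by positivity) (by positivity), Real.log_mul (by positivity) (by positivity),
      Real.log_pow, Real.log_pow]
    push_cast
    linarith
  have hl2 : log (1 + c0 * nn x ρ) ≤ log (1 + c0 * C2) + log r + 2 * log t := by
    have h1 : 1 + c0 * nn x ρ ≤ (1 + c0 * C2) * r * t ^ 2 := by
      have h2 : (1 : ℝ) ≤ t ^ 2 := one_le_pow₀ ht1
      have h3 : (1 : ℝ) ≤ r * t ^ 2 := one_le_mul_of_one_le_of_one_le hr h2
      have h4 : c0 * nn x ρ ≤ c0 * (C2 * r * t ^ 2) := mul_le_mul_of_nonneg_left hn hc0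
      nlinarith
    have h2 : 0 < 1 + c0 * nn x ρ := by positivity
    have h3 := Real.log_le_log h2 h1
    rw [Real.log_mul (by positivity) (by positivity), Real.log_mul (by positivity) (by positivity),
      Real.log_pow] at h3
    push_cast at h3
    linarith
  have hl3 : log t ≤ log 2 + log⁺ (characteristic x ⊤ r) := by
    have h0 := characteristic_nonneg (f := x) (a := ⊤) hr
    have h1 : t = 1 + characteristic x ⊤ r := rfl
    have h2 := posLog_add (x := 1) (y := characteristic x ⊤ r)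
    rw [posLog_one, ← h1, posLog_eq_log (by rw [abs_of_pos ht0]; exact ht1)] at h2
    linarith
  have hlr : 0 ≤ log r := Real.log_nonneg hr
  have hlT : 0 ≤ log⁺ (characteristic x ⊤ r) := posLog_nonneg
  calc proximity (logDeriv x) ⊤ r ≤ _ := hmain
    _ ≤ 2 * (log (1 + c0 * C2) + log r + 2 * log t) + (log (16 * C3) + 3 * log r + 4 * log t)
        + log 2 := by linarith
    _ ≤ K0 + 5 * log r + 8 * log⁺ (characteristic x ⊤ r) := by rw [hK0]; linarith
    _ ≤ (K0 + 8) * (1 + log⁺ (characteristic x ⊤ r) + log r) := by nlinarith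

end Pool.Agent.H13.Nev
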