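import Pool.Agent.H13.Nev.Smt
import Pool.Agent.H13.Kob.FewFinal

/-!
# Orbifold hyperbolicity
-/

namespace Pool.Agent.H13.Nev

open Set Filter Topology Real ValueDistribution MeromorphicOn Metric
open Pool.Agent.H13.Kob Pool.Agent.H13.CEV

instance ff_neBot : ff.NeBot := by
  rw [Filter.neBot_iff]
  intro h
  have h1 : ∀ᶠ r in ff, (fun _ : ℝ => False) r := by rw [h]; trivial
  obtain ⟨c, _, hc⟩ := exists_near_of_ff h1
  obtain ⟨r, _, _, hr⟩ := hc 1 le_rfl
  exact hr

/-- zeros of high multiplicity -/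
lemma trunc_le (f : EN) (hf : f ≠ 0) (m : ℕ)
    (hm : ∀ z, f.1 z = 0 → (m : ℕ∞) ≤ analyticOrderAt f.1 z) {r : ℝ} (hr : 1 ≤ r) :
    m * logCounting (logDeriv f.1) ⊤ r ≤ logCounting f.1 0 r := by
  rw [ValueDistribution.logCounting_top, logCounting_zero]
  have h1 : (m : ℝ) * Function.locallyFinsuppWithin.logCounting (divisor (logDeriv f.1) univ)⁻ r
      = Function.locallyFinsuppWithin.logCounting (m • (divisor (logDeriv f.1) univ)⁻) r := by
    rw [map_nsmul, Pi.smul_apply, nsmul_eq_mul]
  rw [h1]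
  apply Function.locallyFinsuppWithin.logCounting_le _ hr
  intro z
  have h2 : (m • (divisor (logDeriv f.1) univ)⁻) z = m • ((divisor (logDeriv f.1) univ)⁻ z) := by
    rw [Function.locallyFinsuppWithin.coe_nsmul, Pi.smul_apply]
  rw [h2, Function.locallyFinsuppWithin.negPart_apply, Function.locallyFinsuppWithin.posPart_apply,
    divisor_apply (EN.mer f).meromorphicOn (mem_univ z),
    divisor_apply (EN.mer f).logDeriv.meromorphicOn (mem_univ z)]
  have hord := (f.2.analyticAt z).meromorphicOrderAt_eq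
  by_cases hz : f.1 z = 0
  · have h3 : meromorphicOrderAt f.1 z ≠ 0 := by
      rw [hord]
      have h4 : analyticOrderAt f.1 z ≠ 0 := (f.2.analyticAt z).analyticOrderAt_ne_zero.mpr hz
      intro h5
      apply h4
      rcases h6 : analyticOrderAt f.1 z with _ | n
      · rw [h6] at h5; exact absurd h5 (by exact WithTop.top_ne_zero)
      · rw [h6] at h5
        have : ((n : ℤ) : WithTop ℤ) = 0 := h5
        have h7 : (n : ℤ) = 0 := by exact_mod_cast this
        have h8 : n = 0 := by exact_mod_cast h7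
        rw [h8]; rfl
    rw [meromorphicOrderAt_logDeriv_eq_neg_one (EN.mer f z) h3 (EN.ord hf z)]
    have h4 := hm z hz
    have h5 : analyticOrderAt f.1 z ≠ ⊤ := by
      intro h6
      apply EN.ord hf z
      rw [hord, h6]
      rfl
    obtain ⟨n, hn⟩ := ENat.ne_top_iff_exists.mp h5
    rw [hord, ← hn]
    rw [← hn] at h4
    have h6 : m ≤ n := by exact_mod_cast h4
    have h7 : ((n : ℕ∞).map (fun t : ℕ => (t : ℤ)) : WithTop ℤ).untop₀ = (n : ℤ) := rfl
    have h8 : (-1 : WithTop ℤ).untop₀ = -1 := rfl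
    rw [h8]
    show m • ((-1 : ℤ)⁻) ≤ ((n : ℤ))⁺
    have h9 : ((-1 : ℤ)⁻) = 1 := by decide
    rw [h9, posPart_eq_self.mpr (by positivity)]
    simpa using h6
  · have h3 : meromorphicOrderAt f.1 z = 0 := by
      rw [hord, (f.2.analyticAt z).analyticOrderAt_eq_zero.mpr hz]
      rfl
    have h4 := meromorphicOrderAt_logDeriv_nonneg (EN.mer f z) h3
    have h5 : 0 ≤ (meromorphicOrderAt (logDeriv f.1) z).untop₀ := WithTop.untop₀_nonneg.mpr h4
    rw [negPart_eq_zero.mpr h5, smul_zero]
    exact posPart_nonneg _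

/-- a periodic entire function with few zeros has no zero -/
lemma no_zero (f : EN) (hf : f ≠ 0) (hper : ∀ z, f.1 (z + 2 * π * Complex.I) = f.1 z) {K : ℝ}
    (hK : ∀ᶠ r in ff, logCounting f.1 0 r ≤ K * (1 + log r)) (w : ℂ) : f.1 w ≠ 0 := by
  intro hw
  obtain ⟨L, hL⟩ := exists_nat_gt (|K|)
  have hper' : ∀ l : ℕ, f.1 (w + 2 * π * Complex.I * l) = 0 := by
    intro l
    induction l with
    | zero => simpa using hw
    | succ l ih =>
      have := hper (w + 2 * π * Complex.I * l)
      rw [ih] at this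
      have e : w + 2 * π * Complex.I * ((l + 1 : ℕ) : ℂ)
          = w + 2 * π * Complex.I * l + 2 * π * Complex.I := by push_cast; ring
      rw [e]
      exact this
  set ρ : ℝ := ‖w‖ + 2 * π * L + 1 with hρ
  have hpi := Real.pi_pos
  have hρ1 : 1 ≤ ρ := by
    have := norm_nonneg w
    have : 0 ≤ 2 * π * L := by positivity
    linarith
  have hinj : Function.Injective fun l : ℕ => w + 2 * π * Complex.I * l := by
    intro l l' h
    simp only [add_right_inj] at h
    have h1 : (2 * π * Complex.I : ℂ) ≠ 0 := Complex.two_pi_I_ne_zero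
    have := mul_left_cancel₀ h1 h
    exact_mod_cast this
  have hmem : ∀ l < L, (w + 2 * π * Complex.I * l) ∈ closedBall (0 : ℂ) ρ := by
    intro l hl
    rw [mem_closedBall, dist_zero_right]
    refine (norm_add_le _ _).trans ?_
    have h1 : ‖(2 * π * Complex.I * l : ℂ)‖ = 2 * π * l := by
      rw [norm_mul, norm_mul, norm_mul, Complex.norm_I, Complex.norm_natCast,
        Complex.norm_real, Real.norm_of_nonneg hpi.le]
      simp
    rw [h1]
    have h2 : (l : ℝ) ≤ L := by exact_mod_cast hl.le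
    have h3 : 2 * π * l ≤ 2 * π * L := mul_le_mul_of_nonneg_left h2 (by positivity)
    linarith
  have hdiv : ∀ u ∈ closedBall (0 : ℂ) ρ, f.1 u = 0 →
      (1 : ℝ) ≤ |((divisor f.1 (closedBall 0 ρ) u : ℤ) : ℝ)| := by
    intro u hu hfu
    have h1 : divisor f.1 (closedBall 0 ρ) u ≠ 0 := by
      rw [divisor_apply (EN.mer f).meromorphicOn hu]
      intro h2
      rw [WithTop.untop₀_eq_zero] at h2
      rcases h2 with h2 | h2
      · rw [(f.2.analyticAt u).meromorphicOrderAt_eq] at h2
        have h4 : analyticOrderAt f.1 u ≠ 0 := (f.2.analyticAt u).analyticOrderAt_ne_zero.mpr hfu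
        apply h4
        rcases h6 : analyticOrderAt f.1 u with _ | n
        · rw [h6] at h2; exact absurd h2 (by exact WithTop.top_ne_zero)
        · rw [h6] at h2
          have : ((n : ℤ) : WithTop ℤ) = 0 := h2
          have h7 : (n : ℤ) = 0 := by exact_mod_cast this
          have h8 : n = 0 := by exact_mod_cast h7
          rw [h8]; rfl
      · exact EN.ord hf u h2
    have h2 : (1 : ℤ) ≤ |divisor f.1 (closedBall 0 ρ) u| := Int.one_le_abs h1
    exact_mod_cast h2
  have hn : (L : ℝ) ≤ nn f.1 ρ := by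
    classical
    set S : Finset ℂ := (Finset.range L).image fun l : ℕ => w + 2 * π * Complex.I * l with hS
    have hSs : S ⊆ supp f.1 ρ := by
      intro u hu
      obtain ⟨l, hl, rfl⟩ := Finset.mem_image.mp hu
      have hl' := Finset.mem_range.mp hl
      rw [mem_supp]
      intro h0
      have := hdiv _ (hmem l hl') (hper' l)
      rw [h0] at this
      simp at this
      linarith
    have hScard : S.card = L := by
      rw [hS, Finset.card_image_of_injective _ hinj, Finset.card_range]
    calc (L : ℝ) = ∑ u ∈ S, (1 : ℝ) := by rw [Finset.sum_const, hScard]; simp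
      _ ≤ ∑ u ∈ S, |((divisor f.1 (closedBall 0 ρ) u : ℤ) : ℝ)| := by
          apply Finset.sum_le_sum
          intro u hu
          obtain ⟨l, hl, rfl⟩ := Finset.mem_image.mp hu
          exact hdiv _ (hmem l (Finset.mem_range.mp hl)) (hper' l)
      _ ≤ nn f.1 ρ := Finset.sum_le_sum_of_subset_of_nonneg hSs (fun _ _ _ => abs_nonneg _)
  have hlog : Tendsto Real.log ff atTop := Real.tendsto_log_atTop.mono_left ff_le_atTop
  have hKL : |K| < L := hL
  have hbig := hlog.eventually_gt_atTop ((|K| + L * log ρ) / (L - |K|))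
  obtain ⟨R, h1, h2, h3⟩ := (hK.and (hbig.and
    (ff_le_atTop (eventually_gt_atTop ρ)))).exists
  have hR0 : 0 < R := by linarith
  have h4 := count_le (EN.mer f) hρ1 h3
  rw [EN.logCounting_top, Pi.zero_apply, add_zero] at h4
  have hlogR : 0 ≤ log R := Real.log_nonneg (by linarith)
  have h5 : (L : ℝ) * log (R / ρ) ≤ |K| * (1 + log R) := by
    have h6 : 0 ≤ log (R / ρ) := Real.log_nonneg ((one_le_div (by linarith)).mpr h3.le)
    calc (L : ℝ) * log (R / ρ) ≤ nn f.1 ρ * log (R / ρ) := mul_le_mul_of_nonneg_right hn h6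
      _ ≤ K * (1 + log R) := h4.trans h1
      _ ≤ |K| * (1 + log R) := mul_le_mul_of_nonneg_right (le_abs_self K) (by linarith)
  rw [Real.log_div hR0.ne' (by linarith : ρ ≠ 0)] at h5
  have h7 : 0 < (L : ℝ) - |K| := by linarith
  rw [div_lt_iff₀ h7] at h2
  nlinarith

lemma posLog_add_le_max {t c L : ℝ} {s : ℝ} (h1 : s ≤ t + c) (h2 : -L ≤ s) :
    log⁺ s ≤ log⁺ (max t 0 + c) + log⁺ L := by
  have h5 : 0 ≤ log⁺ L := posLog_nonneg
  have h6 : 0 ≤ log⁺ (max t 0 + c) := posLog_nonneg
  rcases le_total 0 s with hs | hs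
  · have h3 : s ≤ max t 0 + c := h1.trans (by have := le_max_left t 0; linarith)
    have h4 := posLog_le_posLog hs h3
    linarith
  · have h3 : log⁺ s = log⁺ (-s) := (posLog_neg s).symm
    rw [h3]
    have h4 : log⁺ (-s) ≤ log⁺ L := posLog_le_posLog (by linarith) (by linarith)
    linarith

/-- **Orbifold hyperbolicity** -/
theorem orbifold (N d : ℕ) : ∃ m : ℕ, 1 ≤ m ∧ ∀ (e : ℕ) (x : mons N d → ℂ), Good e x →
    (∀ a : Fin N → ℕ, ∃ b : Fin N → ℕ, SameType d a b ∧ ∀ j, b j ≤ e) →
    ∀ g : ℂ → Fin N → ℂ, Differentiable ℂ g → (∀ z, g z ≠ 0) →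
    (∀ z, MvPolynomial.eval (g z) (Fm x) = 0) →
    ∀ H : Fin N → Fin N → ℂ, LinearIndependent ℂ H →
    (∀ j z, ∑ i, H j i * g z i = 0 →
      (m : ℕ∞) ≤ analyticOrderAt (fun w => ∑ i, H j i * g w i) z) →
    ∀ z, ∃ c : ℂ, g z = c • g 0 := by
  classical
  obtain ⟨C, hC, hsmt⟩ := smt N N d
  obtain ⟨c, hc⟩ := exists_classes N d 0
  obtain ⟨K₀, hK₀⟩ := exists_weight N d c
  obtain ⟨m₀, hm₀⟩ := exists_nat_gt (2 * C * N)
  refine ⟨m₀ + 1, by omega, fun e x hx he g hg hg0 hgF H hH hm => ?_⟩
  -- the dual basis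
  set A : Matrix (Fin N) (Fin N) ℂ := Matrix.of H with hA
  have hAu : IsUnit A := Matrix.linearIndependent_rows_iff_isUnit.mp hH
  have hdet : IsUnit A.det := (Matrix.isUnit_iff_isUnit_det A).mp hAu
  set v : Fin N → Fin N → ℂ := fun j i => A⁻¹ i j with hv
  have hdual : ∀ y : Fin N → ℂ, ∀ i, y i = ∑ j, v j i * ∑ k, H j k * y k := by
    intro y i
    have h1 : A⁻¹.mulVec (A.mulVec y) = y := by
      rw [Matrix.mulVec_mulVec, Matrix.nonsing_inv_mul A hdet, Matrix.one_mulVec]
    conv_lhs => rw [← h1]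
    simp only [Matrix.mulVec, dotProduct, hv, hA, Matrix.of_apply]
  -- compose with the exponential function
  set gt : ℂ → Fin N → ℂ := fun z => g (Complex.exp z) with hgt
  have hgtd : Differentiable ℂ gt := hg.comp Complex.differentiable_exp
  set G : Fin N → EN := fun i => ⟨fun z => gt z i, (differentiable_pi.mp hgtd) i⟩ with hG
  have hGv : ∀ z, vec G z = gt z := fun z => rfl
  set f : Fin N → EN := fun j => ∑ i, algebraMap ℂ EN (H j i) * G i with hf
  have hfv : ∀ j z, (f j).1 z = ∑ i, H j i * gt z i := by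
    intro j z
    have h1 : (f j).1 z = ev z (f j) := rfl
    rw [h1, hf]
    simp only
    rw [map_sum]
    apply Finset.sum_congr rfl
    intro i _
    rw [map_mul]
    rfl
  set q : Fin N → Fin N → EN := fun j i => algebraMap ℂ EN (v j i) with hq
  have hGf : ∀ i, G i = ∑ j, f j * q j i := by
    intro i
    apply EN.ext'
    intro z
    have h1 : (∑ j, f j * q j i).1 z = ev z (∑ j, f j * q j i) := rfl
    rw [h1, map_sum]
    have h2 : (G i).1 z = gt z i := rfl
    rw [h2, hdual (gt z) i]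
    apply Finset.sum_congr rfl
    intro j _
    rw [map_mul, ev_apply, ev_apply, hfv, mul_comm]
    rfl
  obtain ⟨K, hK, hmain⟩ := hsmt e x hx he f q G hGf (fun z => hg0 _) (fun z => hgF _)
  -- the coordinates
  have hmf : ∀ j z, (f j).1 z = 0 → ((m₀ + 1 : ℕ) : ℕ∞) ≤ analyticOrderAt (f j).1 z := by
    intro j z hz
    rw [hfv] at hz
    have h1 := hm j (Complex.exp z) hz
    have h2 : (f j).1 = (fun w => ∑ i, H j i * g w i) ∘ Complex.exp := by
      funext w
      rw [hfv]
      rfl
    rw [h2, analyticOrderAt_comp_of_deriv_ne_zero (Complex.differentiable_exp.analyticAt z) (by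
      rw [Complex.deriv_exp]; exact Complex.exp_ne_zero z)]
    exact h1
  have hcount : ∀ j, ∃ c : ℝ, 0 ≤ c ∧ ∀ r, 1 ≤ r →
      (m₀ + 1 : ℝ) * logCounting (logDeriv (f j).1) ⊤ r ≤ max (TC f r) 0 + c := by
    intro j
    by_cases hj : f j = 0
    · refine ⟨0, le_rfl, fun r hr => ?_⟩
      have h1 : logDeriv (f j).1 = fun _ => 0 := by
        funext z
        rw [logDeriv_apply, hj]
        show deriv (fun _ : ℂ => (0 : ℂ)) z / 0 = 0
        rw [div_zero]
      rw [h1, logCounting_const]
      simp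
    · refine ⟨|log ‖meromorphicTrailingCoeffAt (f j).1 0‖|, abs_nonneg _, fun r hr => ?_⟩
      have h1 := trunc_le (f j) hj (m₀ + 1) (hmf j) hr
      have h2 := TC_ge f j hj hr
      have h3 := neg_abs_le (log ‖meromorphicTrailingCoeffAt (f j).1 0‖)
      have h4 := le_max_left (TC f r) 0
      push_cast at h1
      linarith
  choose cj hcj0 hcj using hcount
  -- some coordinate does not vanish
  obtain ⟨j₀, hj₀⟩ : ∃ j, f j ≠ 0 := by
    by_contra hcon
    push Not at hcon
    apply hg0 (Complex.exp 0)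
    funext i
    have h1 : gt 0 i = (G i).1 0 := rfl
    show gt 0 i = 0
    rw [h1, hGf i]
    simp only [hcon, zero_mul, Finset.sum_const_zero]
    rfl
  -- comparison of the characteristic functions
  obtain ⟨cH, hcH, hTf⟩ : ∃ cH : ℝ, 0 ≤ cH ∧ ∀ r, 1 ≤ r → TC f r ≤ TC G r + cH := by
    set s : ℝ := ∑ j, ∑ i, ‖H j i‖ + 1 with hs
    have hs1 : 1 ≤ s := by
      have : 0 ≤ ∑ j, ∑ i, ‖H j i‖ :=
        Finset.sum_nonneg fun j _ => Finset.sum_nonneg fun i _ => norm_nonneg _
      linarith
    refine ⟨log s, Real.log_nonneg hs1, fun r hr => ?_⟩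
    have h1 : circleAverage (fun z => log ‖vec G z‖ + log s) 0 r = TC G r + log s := by
      rw [circleAverage_fun_add (vec_int G r) (circleIntegrable_const _ _ _), circleAverage_const]
      rfl
    rw [← h1, TC]
    apply circleAverage_mono_codiscrete (by linarith) (vec_int f r)
      ((vec_int G r).add (circleIntegrable_const _ _ _))
    filter_upwards [eventually_sphere (EN.eventually_ne hj₀) r] with z hz
    have h2 : 0 < ‖vec f z‖ := lt_of_lt_of_le (norm_pos_iff.mpr hz) (norm_le_pi_norm (vec f z) j₀)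
    have h3 : 0 < ‖vec G z‖ := norm_pos_iff.mpr (hg0 _)
    show log ‖vec f z‖ ≤ log ‖vec G z‖ + log s
    rw [← Real.log_mul h3.ne' (by linarith)]
    apply Real.log_le_log h2
    rw [pi_norm_le_iff_of_nonneg (by positivity)]
    intro j
    show ‖(f j).1 z‖ ≤ _
    rw [hfv]
    calc ‖∑ i, H j i * gt z i‖ ≤ ∑ i, ‖H j i‖ * ‖vec G z‖ := by
          refine (norm_sum_le _ _).trans (Finset.sum_le_sum fun i _ => ?_)
          rw [norm_mul]
          exact mul_le_mul_of_nonneg_left (norm_le_pi_norm (vec G z) i) (norm_nonneg _)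
      _ = (∑ i, ‖H j i‖) * ‖vec G z‖ := by rw [Finset.sum_mul]
      _ ≤ s * ‖vec G z‖ := by
          apply mul_le_mul_of_nonneg_right _ (norm_nonneg _)
          have := Finset.single_le_sum (f := fun j => ∑ i, ‖H j i‖)
            (fun j _ => Finset.sum_nonneg fun i _ => norm_nonneg (H j i)) (Finset.mem_univ j)
          linarith
      _ = ‖vec G z‖ * s := mul_comm _ _
  -- lower bound
  set L : ℝ := |log ‖meromorphicTrailingCoeffAt (f j₀).1 0‖| with hL
  have hlow : ∀ r, 1 ≤ r → -L ≤ TC f r := by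
    intro r hr
    have h1 := TC_ge f j₀ hj₀ hr
    have h2 := logCounting_nonneg (f := (f j₀).1) (e := 0) hr
    have h3 := neg_abs_le (log ‖meromorphicTrailingCoeffAt (f j₀).1 0‖)
    linarith
  -- the main term
  set cq : ℝ := ∑ j, log⁺ ‖v j‖ with hcq
  have hcq0 : 0 ≤ cq := Finset.sum_nonneg fun j _ => posLog_nonneg
  have hMM : ∀ r, 1 ≤ r → (m₀ + 1 : ℝ) * MM f q r
      ≤ N * max (TC f r) 0 + ∑ j, cj j + (m₀ + 1) * cq := by
    intro r hr
    have h1 : ∑ j, characteristic (vec (q j)) ⊤ r = cq := by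
      apply Finset.sum_congr rfl
      intro j _
      have h2 : vec (q j) = fun _ => v j := rfl
      rw [h2, characteristic]
      simp
    rw [MM, h1, mul_add, Finset.mul_sum]
    have h3 : ∑ j, (m₀ + 1 : ℝ) * logCounting (logDeriv (f j).1) ⊤ r
        ≤ ∑ j : Fin N, (max (TC f r) 0 + cj j) := Finset.sum_le_sum fun j _ => hcj j r hr
    rw [Finset.sum_add_distrib, Finset.sum_const, Finset.card_univ, Fintype.card_fin,
      nsmul_eq_mul] at h3
    linarith
  have hm1 : (0 : ℝ) < m₀ + 1 := by positivity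
  obtain ⟨C', hC'⟩ := mul_posLog_le (4 * K) (by linarith)
  have hCN : C * N ≤ (m₀ + 1) / 2 := by linarith
  -- the growth of the curve
  obtain ⟨K₁, hK₁0, hK₁⟩ : ∃ K₁ : ℝ, 0 ≤ K₁ ∧ ∀ᶠ r in ff, max (TC f r) 0 ≤ K₁ * (1 + log r) := by
    have hcjs : 0 ≤ ∑ j, cj j := Finset.sum_nonneg fun j _ => hcj0 j
    set E : ℝ := C * (∑ j, cj j + (m₀ + 1) * cq) + K + K * log⁺ L + |C'| + cH
      with hE
    have hE0 : 0 ≤ E := by
      have h1 : 0 ≤ log⁺ L := posLog_nonneg
      have h2 := abs_nonneg C'
      positivity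
    refine ⟨4 * E + 4 * K, by linarith, ?_⟩
    filter_upwards [hmain, eventually_one_le_ff] with r h1 hr
    set t := max (TC f r) 0 with ht
    have ht0 : 0 ≤ t := le_max_right _ _
    have hlogr : 0 ≤ log r := Real.log_nonneg hr
    have h2 := hMM r hr
    have h3 := hTf r hr
    have h4 : log⁺ (TC f r) ≤ log⁺ t + log⁺ L := by
      have := posLog_add_le_max (t := TC f r) (c := 0) (L := L) (s := TC f r)
        (by linarith) (hlow r hr)
      rwa [add_zero] at this
    have h5 := hC' t ht0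
    have hLp : 0 ≤ log⁺ L := posLog_nonneg
    have hC'a := le_abs_self C'
    have h6 : C * MM f q r ≤ t / 2 + C * (∑ j, cj j + (m₀ + 1) * cq) := by
      have h7 : MM f q r ≤ (N * t + ∑ j, cj j + (m₀ + 1) * cq) / (m₀ + 1) := by
        rw [le_div_iff₀ hm1]; linarith
      have h8 : C * MM f q r ≤ C * ((N * t + ∑ j, cj j + (m₀ + 1) * cq) / (m₀ + 1)) :=
        mul_le_mul_of_nonneg_left h7 hC
      have h9 : C * ((N * t + ∑ j, cj j + (m₀ + 1) * cq) / (m₀ + 1))
          = (C * N) * t / (m₀ + 1) + C * (∑ j, cj j + (m₀ + 1) * cq) / (m₀ + 1) := by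
        field_simp
        ring
      have h10 : (C * N) * t / (m₀ + 1) ≤ t / 2 := by
        rw [div_le_iff₀ hm1]
        nlinarith
      have h11 : C * (∑ j, cj j + (m₀ + 1) * cq) / (m₀ + 1)
          ≤ C * (∑ j, cj j + (m₀ + 1) * cq) := by
        apply div_le_self (by positivity)
        have : (0 : ℝ) ≤ m₀ := by positivity
        linarith
      linarith
    have h12 : K * log⁺ (TC f r) ≤ t / 4 + |C'| + K * log⁺ L := by
      have h13 := mul_le_mul_of_nonneg_left h4 hK
      have h14 : K * log⁺ t ≤ t / 4 + |C'| := by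
        have := abs_nonneg C'
        linarith
      linarith
    have h15 : TC f r ≤ t * (3 / 4) + E + K * log r := by
      rw [hE]
      linarith
    have h16 : t ≤ t * (3 / 4) + E + K * log r := by
      rw [ht]
      apply max_le h15
      have := mul_nonneg hK hlogr
      positivity
    nlinarith
  -- the coordinates have no zeros
  have hnz : ∀ j, f j ≠ 0 → ∀ w, (f j).1 w ≠ 0 := by
    intro j hj
    apply no_zero (f j) hj (K := K₁ + |log ‖meromorphicTrailingCoeffAt (f j).1 0‖|)
    · intro z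
      rw [hfv, hfv, hgt]
      simp only
      rw [Complex.exp_periodic z]
    · filter_upwards [hK₁, eventually_one_le_ff] with r h1 hr
      have h2 := TC_ge f j hj hr
      have h3 := neg_abs_le (log ‖meromorphicTrailingCoeffAt (f j).1 0‖)
      have h4 := le_max_left (TC f r) 0
      have h5 := Real.log_nonneg hr
      have h6 := abs_nonneg (log ‖meromorphicTrailingCoeffAt (f j).1 0‖)
      nlinarith
  have hfew := Kob.few hx he 0 c K₀ hc hK₀ (by omega) hgtd (fun z => hg0 _) (fun z => hgF _) H hH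
    (by
      have : {z | ∃ j, ∑ i, H j i * gt z i = 0 ∧ ∃ w, ∑ i, H j i * gt w i ≠ 0} = ∅ := by
        rw [Set.eq_empty_iff_forall_notMem]
        rintro z ⟨j, hz, w, hw⟩
        have hj : f j ≠ 0 := by
          rintro h0
          apply hw
          rw [← hfv, h0]
          rfl
        exact hnz j hj z (by rw [hfv]; exact hz)
      rw [this]
      simp)
  -- conclusion
  obtain ⟨i₁, hi₁⟩ : ∃ i, g 1 i ≠ 0 := by
    by_contra hcon
    push Not at hcon
    exact hg0 1 (funext hcon)
  have hminor : ∀ i u, g u i * g 1 i₁ = g u i₁ * g 1 i := by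
    intro i
    have h1 : ∀ u, u ≠ 0 → g u i * g 1 i₁ = g u i₁ * g 1 i := by
      intro u hu
      obtain ⟨t, ht⟩ := hfew (Complex.log u)
      have h2 : gt (Complex.log u) = g u := by
        simp only [hgt]
        rw [Complex.exp_log hu]
      have h3 : gt 0 = g 1 := by
        simp only [hgt]
        rw [Complex.exp_zero]
      rw [h2, h3] at ht
      rw [ht]
      simp only [Pi.smul_apply, smul_eq_mul]
      ring
    have hcl : IsClosed {u : ℂ | g u i * g 1 i₁ = g u i₁ * g 1 i} := by
      apply isClosed_eq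
      · exact (((differentiable_pi.mp hg) i).continuous).mul continuous_const
      · exact (((differentiable_pi.mp hg) i₁).continuous).mul continuous_const
    have hdense : Dense {u : ℂ | u ≠ 0} := dense_compl_singleton 0
    intro u
    have : {u : ℂ | g u i * g 1 i₁ = g u i₁ * g 1 i} = univ := by
      apply hcl.closure_eq.symm.trans
      exact (hdense.mono fun u hu => h1 u hu).closure_eq
    have h2 : u ∈ {u : ℂ | g u i * g 1 i₁ = g u i₁ * g 1 i} := by rw [this]; trivial
    exact h2
  have hne : ∀ u, g u i₁ ≠ 0 := by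
    intro u h0
    apply hg0 u
    funext i
    have := hminor i u
    rw [h0, zero_mul] at this
    exact (mul_eq_zero.mp this).resolve_right hi₁
  intro z
  refine ⟨g z i₁ / g 0 i₁, ?_⟩
  funext i
  rw [Pi.smul_apply, smul_eq_mul]
  have h1 := hminor i z
  have h2 := hminor i 0
  have h3 := hne 0
  field_simp
  apply mul_right_cancel₀ hi₁
  linear_combination g 0 i₁ * h1 - g z i₁ * h2

end Pool.Agent.H13.Nev
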