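import Pool.Agent.H13.Nev.Core

/-!
# Reduction to small quotients
-/

namespace Pool.Agent.H13.Nev

open MvPolynomial Pool.Agent.H13.Kob Pool.Agent.H13.CEV

section

variable {N k d e : ℕ} {B : ℕ → Set KN}

/-- a uniform constant for all sets of monomials -/
lemma exists_c (k d b : ℕ) : ∃ c : ℕ, ∀ (B : ℕ → Set KN), Filt KN DK B →
    ∀ (I : Finset (Fin k →₀ ℕ)), I ⊆ mons k d → ∀ (A u : (Fin k →₀ ℕ) → KN),
      (∀ i ∈ I, A i ∈ B b ∧ u i ≠ 0 ∧ DK (u i) / u i ∈ B b) →
      ∑ i ∈ I, A i * u i = 0 → ∀ a : (Fin k →₀ ℕ) → ℕ,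
      (∀ i ∈ I, ∀ j ∈ I, u i / u j ∈ B c → a i = a j) →
      ∀ w : ℕ, ∑ i ∈ I with a i = w, A i * u i = 0 := by
  choose c hc using fun m => weight_classes KN (Fin k →₀ ℕ) DK m b
  refine ⟨∑ m ∈ Finset.range ((mons k d).card + 1), c m,
    fun B h I hI A u hA hsum a ha w => ?_⟩
  have hle : c I.card ≤ ∑ m ∈ Finset.range ((mons k d).card + 1), c m := by
    apply Finset.single_le_sum (f := c) (fun _ _ => Nat.zero_le _)
    rw [Finset.mem_range]
    exact Nat.lt_succ_of_le (Finset.card_le_card hI)
  exact hc I.card B h I rfl A u hA hsum a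
    (fun i hi j hj hij => ha i hi j hj (h.mono hle hij)) w

lemma ld_mul (h : Filt KN DK B) {u v : KN} (hu : u ≠ 0) (hv : v ≠ 0) :
    DK (u * v) / (u * v) = DK u / u + DK v / v := by
  rw [h.dmul]
  field_simp
  ring

lemma ld_pow (h : Filt KN DK B) {u : KN} (hu : u ≠ 0) {b : ℕ} (hb : DK u / u ∈ B b) (n : ℕ) :
    DK (u ^ n) / u ^ n ∈ B (n * b) := by
  induction n with
  | zero =>
    rw [pow_zero, h.done, zero_div]
    exact h.zero_mem _
  | succ n ih =>
    rw [pow_succ, ld_mul h (pow_ne_zero n hu) hu, Nat.succ_mul]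
    exact h.add ih hb

lemma ld_mon (h : Filt KN DK B) {X : Fin k → KN} (hX : ∀ j, X j ≠ 0)
    (hb : ∀ j, DK (X j) / X j ∈ B 2) (α : Fin k →₀ ℕ) :
    DK (mon X α) / mon X α ∈ B ((∑ j, α j) * 2) := by
  classical
  have key : ∀ s : Finset (Fin k), DK (∏ j ∈ s, X j ^ α j) / ∏ j ∈ s, X j ^ α j
      ∈ B ((∑ j ∈ s, α j) * 2) := by
    intro s
    induction s using Finset.induction_on with
    | empty =>
      rw [Finset.prod_empty, h.done, zero_div]
      exact h.zero_mem _
    | insert a s ha ih =>
      rw [Finset.prod_insert ha, Finset.sum_insert ha, add_mul,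
        ld_mul h (pow_ne_zero _ (hX a))
          (Finset.prod_ne_zero_iff.mpr fun j _ => pow_ne_zero _ (hX j))]
      exact h.add (ld_pow h (hX a) (hb a) _) ih
  exact key Finset.univ

/-- The quotients of the coordinates of a curve on a good hypersurface. -/
theorem core (N k d : ℕ) : ∃ C : ℕ, ∀ (e : ℕ) (x : mons N d → ℂ), Good e x →
    (∀ a : Fin k → ℕ, ∃ b : Fin k → ℕ, SameType d a b ∧ ∀ j, b j ≤ e) →
    ∀ B : ℕ → Set KN, Filt KN DK B →
    ∀ (f : Fin k → EN) (q : Fin k → Fin N → EN) (g : Fin N → EN),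
    (∀ j i, io (q j i) ∈ B 1) →
    (∀ i j, f i ≠ 0 → f j ≠ 0 →
      DK (io (f i) / io (f j)) / (io (f i) / io (f j)) ∈ B 2) →
    (∀ z, eval (fun i => (g i).1 z) (Fm x) = 0) →
    ∀ (m : ℕ) (T : Finset (Fin k)), T.card = m → (∀ j ∈ T, f j ≠ 0) → ∀ σ : KN, σ ≠ 0 →
    (∀ i, ∑ j ∈ T, io (f j * q j i) = σ * io (g i)) →
    ∀ i i₀, g i₀ ≠ 0 → io (g i) / io (g i₀) ∈ B C := by
  classical
  set b : ℕ := Fintype.card (mons N d) * bd k d + d * 2 with hb
  obtain ⟨c, hc⟩ := exists_c k d b
  obtain ⟨M, hM⟩ := exists_span k d c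
  refine ⟨k * (M + 1) + k * (M + 1), fun e x hx he B h f q g hq hl hgF m => ?_⟩
  induction m using Nat.strong_induction_on with
  | _ m ih =>
  intro T hTm hT σ hσ hTσ i i₀ hi₀
  obtain ⟨j₀, hj₀⟩ : T.Nonempty := by
    rw [Finset.nonempty_iff_ne_empty]
    rintro rfl
    have := hTσ i₀
    rw [Finset.sum_empty] at this
    exact mul_ne_zero hσ (io_ne hi₀) this.symm
  have hf₀ : f j₀ ≠ 0 := hT j₀ hj₀
  rcases hM KN DK B h T (fun j => io (f j)) (fun j hj => io_ne (hT j hj)) with hsmall | hweight
  · -- all quotients are small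
    have hsum : ∀ i, ∑ j ∈ T, io (f j) / io (f j₀) * io (q j i) ∈ B (k * (M + 1)) := by
      intro i
      have h1 := h.sum (m := M + 1) T (fun j => io (f j) / io (f j₀) * io (q j i))
        (fun j hj => h.mul (hsmall j hj j₀ hj₀) (hq j i))
      apply h.mono _ h1
      apply Nat.mul_le_mul_right
      exact (Finset.card_le_univ T).trans (by simp)
    have heq : ∀ i, ∑ j ∈ T, io (f j) / io (f j₀) * io (q j i) = σ / io (f j₀) * io (g i) := by
      intro i
      have h1 : σ / io (f j₀) * io (g i) = (σ * io (g i)) / io (f j₀) := by ring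
      rw [h1, ← hTσ i, Finset.sum_div]
      apply Finset.sum_congr rfl
      intro j _
      rw [map_mul]
      ring
    have h2 : io (g i) / io (g i₀) = (∑ j ∈ T, io (f j) / io (f j₀) * io (q j i))
        / (∑ j ∈ T, io (f j) / io (f j₀) * io (q j i₀)) := by
      rw [heq, heq]
      have h3 := io_ne hf₀
      have h4 := io_ne hi₀
      field_simp
    rw [h2]
    exact h.div (hsum i) (hsum i₀)
  · -- a weight
    obtain ⟨a, ⟨j₁, hj₁, j₂, hj₂, ha12⟩, ha⟩ := hweight
    set X : Fin k → KN := fun j => if j ∈ T then io (f j) / io (f j₀) else 1 with hX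
    have hX0 : ∀ j, X j ≠ 0 := by
      intro j
      simp only [hX]
      split_ifs with hj
      · exact div_ne_zero (io_ne (hT j hj)) (io_ne hf₀)
      · exact one_ne_zero
    have hXl : ∀ j, DK (X j) / X j ∈ B 2 := by
      intro j
      simp only [hX]
      split_ifs with hj
      · exact hl j j₀ (hT j hj) hf₀
      · rw [h.done, zero_div]; exact h.zero_mem _
    have hmon : ∀ α ∈ II x q T, mon (fun j => io (f j)) α = io (f j₀) ^ d * mon X α := by
      intro α hα
      have hαm : α ∈ mons k d := GR_supp (Fm_homog x) q (mem_II.mp hα).1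
      rw [mon, mon, ← mem_mons.mp hαm, ← Finset.prod_pow_eq_pow_sum, ← Finset.prod_mul_distrib]
      apply Finset.prod_congr rfl
      intro j _
      by_cases hj : j ∈ T
      · simp only [hX, if_pos hj]
        rw [← mul_pow]
        congr 1
        have := io_ne hf₀
        field_simp
      · rw [(mem_II.mp hα).2 j hj]
        simp
    have hmon0 : ∀ α, mon X α ≠ 0 := fun α =>
      Finset.prod_ne_zero_iff.mpr fun j _ => pow_ne_zero _ (hX0 j)
    have hsum0 : ∑ α ∈ II x q T, io ((GR (Fm x) q).coeff α) * mon X α = 0 := by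
      have h1 := vanish hgF hTσ
      have h2 : ∑ α ∈ II x q T, io ((GR (Fm x) q).coeff α) * mon (fun j => io (f j)) α
          = io (f j₀) ^ d * ∑ α ∈ II x q T, io ((GR (Fm x) q).coeff α) * mon X α := by
        rw [Finset.mul_sum]
        apply Finset.sum_congr rfl
        intro α hα
        rw [hmon α hα]
        ring
      rw [h2] at h1
      exact (mul_eq_zero.mp h1).resolve_left (pow_ne_zero _ (io_ne hf₀))
    have hIm : II x q T ⊆ mons k d := fun α hα => GR_supp (Fm_homog x) q (mem_II.mp hα).1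
    have hcl := hc B h (II x q T) hIm (fun α => io ((GR (Fm x) q).coeff α)) (mon X)
      (by
        intro α hα
        refine ⟨h.mono (by rw [hb]; omega) (bd_GR h q hq x α), hmon0 α, ?_⟩
        have h1 := ld_mon h hX0 hXl α
        rw [mem_mons.mp (hIm hα)] at h1
        exact h.mono (by rw [hb]; omega) h1) hsum0 (nw a) (by
        intro α hα β hβ hαβ
        apply ha α (hIm hα) β (hIm hβ) (mem_II.mp hα).2 (mem_II.mp hβ).2
        rw [hmon α hα, hmon β hβ, mul_div_mul_left _ _ (pow_ne_zero _ (io_ne hf₀))]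
        exact hαβ)
    have hcl' : ∀ w : ℕ, ∑ α ∈ II x q T with nw a α = w,
        io ((GR (Fm x) q).coeff α) * mon (fun j => io (f j)) α = 0 := by
      intro w
      have h2 : ∑ α ∈ II x q T with nw a α = w,
          io ((GR (Fm x) q).coeff α) * mon (fun j => io (f j)) α
          = io (f j₀) ^ d * ∑ α ∈ II x q T with nw a α = w,
            io ((GR (Fm x) q).coeff α) * mon X α := by
        rw [Finset.mul_sum]
        apply Finset.sum_congr rfl
        intro α hα
        rw [hmon α (Finset.mem_filter.mp hα).1]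
        ring
      rw [h2, hcl w, mul_zero]
    -- grouped vectors
    set W : ℕ → Fin N → EN := fun w i => ∑ j ∈ T with a j = w, f j * q j i with hW
    have hWz : ∀ w i z, (W w i).1 z
        = ∑ j with a j = w, (if j ∈ T then (f j).1 z * (q j i).1 z else 0) := by
      intro w i z
      have h1 : (W w i).1 z = ev z (W w i) := rfl
      rw [h1, hW]
      simp only
      rw [map_sum, ← Finset.sum_filter, Finset.filter_filter]
      have h2 : (T.filter fun j => a j = w)
          = Finset.univ.filter (fun j => a j = w ∧ j ∈ T) := by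
        ext j; simp [and_comm]
      rw [h2]
      apply Finset.sum_congr rfl
      intro j _
      rw [map_mul]; rfl
    have hprop : ∀ w w' i i', W w i * W w' i' = W w i' * W w' i := by
      intro w w' i i'
      apply EN.ext'
      intro z
      rw [EN.mul_apply, EN.mul_apply, hWz, hWz, hWz, hWz]
      exact torus_prop hx he
        (fun j i => if j ∈ T then (f j).1 z * (q j i).1 z else 0) a
        (fun t => torus_of_classes hcl' z t) w w' i i'
    have hWsum : ∀ i, ∑ w ∈ T.image a, io (W w i) = σ * io (g i) := by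
      intro i
      rw [← hTσ i, ← Finset.sum_fiberwise_of_maps_to (s := T) (t := T.image a) (g := a)
        (fun j hj => Finset.mem_image_of_mem _ hj)]
      apply Finset.sum_congr rfl
      intro w _
      rw [hW]
      simp only
      rw [map_sum]
    obtain ⟨w, hw, hwne⟩ : ∃ w ∈ T.image a, W w i₀ ≠ 0 := by
      by_contra hcon
      push Not at hcon
      have h1 := hWsum i₀
      rw [Finset.sum_eq_zero (fun w hw => by rw [hcon w hw, map_zero])] at h1
      exact mul_ne_zero hσ (io_ne hi₀) h1.symm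
    have hWg : ∀ i, io (W w i) = (io (W w i₀) / io (g i₀)) * io (g i) := by
      intro i
      have h1 : io (W w i₀) * (σ * io (g i)) = io (W w i) * (σ * io (g i₀)) := by
        rw [← hWsum i, ← hWsum i₀, Finset.mul_sum, Finset.mul_sum]
        apply Finset.sum_congr rfl
        intro w' _
        rw [← map_mul, ← map_mul]
        congr 1
        exact hprop w w' i₀ i
      have h2 := io_ne hi₀
      field_simp
      have h3 : σ * (io (W w i) * io (g i₀)) = σ * (io (W w i₀) * io (g i)) := by
        linear_combination -h1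
      exact mul_left_cancel₀ hσ h3
    set T' : Finset (Fin k) := T.filter fun j => a j = w with hT'
    have hlt : T'.card < m := by
      rw [← hTm]
      apply Finset.card_lt_card
      rw [Finset.ssubset_iff_subset_ne]
      refine ⟨Finset.filter_subset _ _, ?_⟩
      intro heq
      apply ha12
      have h1 : j₁ ∈ T' := by rw [heq]; exact hj₁
      have h2 : j₂ ∈ T' := by rw [heq]; exact hj₂
      rw [(Finset.mem_filter.mp h1).2, (Finset.mem_filter.mp h2).2]
    exact ih T'.card hlt T' rfl (fun j hj => hT j (Finset.mem_filter.mp hj).1)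
      (io (W w i₀) / io (g i₀)) (div_ne_zero (io_ne hwne) (io_ne hi₀))
      (fun i => by rw [← hWg i, hW]; simp only; rw [map_sum]) i i₀ hi₀

end

end Pool.Agent.H13.Nev
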