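import Mathlib

/-!
# The mean of `‖z - a‖ ^ (-1/2)` over a circle
-/

namespace Pool.Agent.H13.Nev

open MeasureTheory Set Real

/-- the comparison function -/
noncomputable def sh (θ : ℝ) : ℝ := |Real.sin θ| ^ (-(1 / 2) : ℝ)

lemma sh_periodic : Function.Periodic sh π := by
  intro θ
  simp [sh, Real.sin_add_pi]

lemma sh_nonneg (θ : ℝ) : 0 ≤ sh θ := Real.rpow_nonneg (abs_nonneg _) _

lemma sh_meas : Measurable sh := by
  unfold sh
  exact (Real.measurable_sin.norm).pow_const _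

lemma sh_int : IntervalIntegrable sh volume 0 π := by
  have h1 : IntervalIntegrable (fun θ : ℝ => θ ^ (-(1 / 2) : ℝ)) volume 0 π :=
    intervalIntegral.intervalIntegrable_rpow' (by norm_num)
  have h2 : IntervalIntegrable (fun θ : ℝ => (π - θ) ^ (-(1 / 2) : ℝ)) volume 0 π := by
    have := (h1.comp_sub_left π).symm
    simpa using this
  have h3 := (h1.add h2).const_mul ((2 / π) ^ (-(1 / 2) : ℝ))
  apply h3.mono_fun' sh_meas.aestronglyMeasurable
  rw [uIoc_of_le Real.pi_pos.le]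
  filter_upwards [ae_restrict_mem measurableSet_Ioc,
    (ae_restrict_of_ae (compl_mem_ae_iff.mpr (measure_singleton (π : ℝ))) :
      ∀ᵐ x ∂(volume.restrict (Ioc 0 π)), x ∈ ({π} : Set ℝ)ᶜ)] with θ hθ hθπ
  have hθ0 : 0 < θ := hθ.1
  have hθπ' : θ < π := lt_of_le_of_ne hθ.2 hθπ
  rw [Real.norm_of_nonneg (sh_nonneg θ)]
  simp only [Pi.add_apply, sh]
  have hs : 0 < Real.sin θ := Real.sin_pos_of_pos_of_lt_pi hθ0 hθπ'
  rw [abs_of_pos hs]
  have hpi := Real.pi_pos
  rcases le_total θ (π / 2) with h | h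
  · have h4 := Real.mul_le_sin hθ0.le h
    have h5 : Real.sin θ ^ (-(1 / 2) : ℝ) ≤ (2 / π * θ) ^ (-(1 / 2) : ℝ) :=
      Real.rpow_le_rpow_of_nonpos (by positivity) h4 (by norm_num)
    rw [Real.mul_rpow (by positivity) hθ0.le] at h5
    refine h5.trans (mul_le_mul_of_nonneg_left ?_ (by positivity))
    have : 0 ≤ (π - θ) ^ (-(1 / 2) : ℝ) := Real.rpow_nonneg (by linarith) _
    linarith
  · have h4 := Real.mul_le_sin (x := π - θ) (by linarith) (by linarith)
    rw [Real.sin_pi_sub] at h4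
    have h5 : Real.sin θ ^ (-(1 / 2) : ℝ) ≤ (2 / π * (π - θ)) ^ (-(1 / 2) : ℝ) :=
      Real.rpow_le_rpow_of_nonpos (by have : 0 < π - θ := by linarith
                                      positivity) h4 (by norm_num)
    rw [Real.mul_rpow (by positivity) (by linarith)] at h5
    refine h5.trans (mul_le_mul_of_nonneg_left ?_ (by positivity))
    have : 0 ≤ θ ^ (-(1 / 2) : ℝ) := Real.rpow_nonneg hθ0.le _
    linarith

lemma sh_int' (a b : ℝ) : IntervalIntegrable sh volume a b :=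
  sh_periodic.intervalIntegrable₀ Real.pi_pos.ne' sh_int a b

lemma le_norm_sub (r θ : ℝ) (hr : 0 ≤ r) (a : ℂ) :
    r * |Real.sin (θ - a.arg)| ≤ ‖circleMap 0 r θ - a‖ := by
  have h1 : ‖circleMap 0 r θ - a‖ = ‖circleMap 0 r (θ - a.arg) - ‖a‖‖ := by
    have h2 : circleMap 0 r θ - a = Complex.exp (a.arg * Complex.I) *
        (circleMap 0 r (θ - a.arg) - ‖a‖) := by
      conv_lhs => rw [← Complex.norm_mul_exp_arg_mul_I a]
      simp only [circleMap, zero_add]
      rw [mul_sub]
      congr 1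
      · rw [mul_left_comm, ← Complex.exp_add]
        congr 2
        push_cast
        ring
      · ring
    rw [h2, norm_mul, Complex.norm_exp_ofReal_mul_I, one_mul]
  rw [h1]
  refine le_trans (le_of_eq ?_) (Complex.abs_im_le_norm _)
  rw [Complex.sub_im, Complex.ofReal_im, sub_zero]
  simp only [circleMap, zero_add]
  rw [Complex.im_ofReal_mul, Complex.exp_ofReal_mul_I_im, abs_mul, abs_of_nonneg hr]

/-- the constant in the estimate -/
noncomputable def c0 : ℝ := (2 * π)⁻¹ * ∫ θ in (0 : ℝ)..(2 * π), sh θ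

lemma c0_nonneg : 0 ≤ c0 := by
  unfold c0
  have := Real.pi_pos
  have h1 : 0 ≤ ∫ θ in (0 : ℝ)..(2 * π), sh θ :=
    intervalIntegral.integral_nonneg (by positivity) (fun θ _ => sh_nonneg θ)
  positivity

lemma sh_two_pi : Function.Periodic sh (2 * π) := by
  have := sh_periodic.nsmul 2
  simpa using this

lemma ae_le (r : ℝ) (hr : 1 ≤ r) (a : ℂ) :
    ∀ᵐ θ ∂volume, ‖circleMap 0 r θ - a‖ ^ (-(1 / 2) : ℝ) ≤ sh (θ - a.arg) := by
  have hcount : {θ : ℝ | Real.sin (θ - a.arg) = 0}.Countable := by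
    have h1 : {θ : ℝ | Real.sin (θ - a.arg) = 0} ⊆ Set.range fun n : ℤ => n * π + a.arg := by
      intro θ hθ
      obtain ⟨n, hn⟩ := Real.sin_eq_zero_iff.mp hθ
      exact ⟨n, by simp [hn]⟩
    exact (Set.countable_range _).mono h1
  have h2 := compl_mem_ae_iff.mpr (hcount.measure_zero volume)
  filter_upwards [h2] with θ hθ
  have hs : 0 < |Real.sin (θ - a.arg)| := abs_pos.mpr hθ
  apply Real.rpow_le_rpow_of_nonpos hs _ (by norm_num)
  refine le_trans ?_ (le_norm_sub r θ (by linarith) a)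
  nlinarith

lemma meas_circle (r : ℝ) (a : ℂ) :
    Measurable fun θ : ℝ => ‖circleMap 0 r θ - a‖ ^ (-(1 / 2) : ℝ) := by
  have : Continuous fun θ : ℝ => ‖circleMap 0 r θ - a‖ := by fun_prop
  exact this.measurable.pow_const _

lemma circleIntegrable_rpow {r : ℝ} (hr : 1 ≤ r) (a : ℂ) :
    CircleIntegrable (fun z => ‖z - a‖ ^ (-(1 / 2) : ℝ)) 0 r := by
  have h1 : IntervalIntegrable (fun θ => sh (θ - a.arg)) volume 0 (2 * π) := by
    have := (sh_int' (0 - a.arg) (2 * π - a.arg)).comp_sub_right a.arg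
    simpa using this
  apply h1.mono_fun' (meas_circle r a).aestronglyMeasurable
  filter_upwards [ae_restrict_of_ae (ae_le r hr a)] with θ hθ
  rw [Real.norm_of_nonneg (Real.rpow_nonneg (norm_nonneg _) _)]
  exact hθ

lemma circleAverage_rpow_le {r : ℝ} (hr : 1 ≤ r) (a : ℂ) :
    circleAverage (fun z => ‖z - a‖ ^ (-(1 / 2) : ℝ)) 0 r ≤ c0 := by
  rw [circleAverage_def, c0, smul_eq_mul]
  have hpi := Real.pi_pos
  apply mul_le_mul_of_nonneg_left _ (by positivity)
  have h1 : IntervalIntegrable (fun θ => sh (θ - a.arg)) volume 0 (2 * π) := by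
    have := (sh_int' (0 - a.arg) (2 * π - a.arg)).comp_sub_right a.arg
    simpa using this
  have h2 : ∫ θ in (0 : ℝ)..(2 * π), sh (θ - a.arg) = ∫ θ in (0 : ℝ)..(2 * π), sh θ := by
    rw [intervalIntegral.integral_comp_sub_right (fun θ => sh θ) a.arg]
    have := sh_two_pi.intervalIntegral_add_eq (0 - a.arg) 0
    rw [zero_add] at this
    rw [← this]
    congr 1
    ring
  rw [← h2]
  apply intervalIntegral.integral_mono_ae (by positivity) (circleIntegrable_rpow hr a) h1
  exact ae_le r hr a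

end Pool.Agent.H13.Nev
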