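import Pool.Agent.H13.Nev.Char
import Pool.Agent.H13.Nev.Reduce

/-!
# The second main theorem
-/

namespace Pool.Agent.H13.Nev

open Set Filter Topology Real ValueDistribution MeromorphicOn Metric
open Pool.Agent.H13.Kob Pool.Agent.H13.CEV

lemma logCounting_neg_top {f : ℂ → ℂ} (hf : Meromorphic f) :
    logCounting (-f) ⊤ = logCounting f ⊤ := by
  rw [ValueDistribution.logCounting_top, ValueDistribution.logCounting_top]
  congr 2
  ext z
  rw [divisor_apply hf.neg.meromorphicOn (mem_univ z), divisor_apply hf.meromorphicOn (mem_univ z),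
    ← meromorphicOrderAt_neg]

lemma EN.div_ne {a b : EN} (ha : a ≠ 0) (hb : b ≠ 0) : io a / io b ≠ 0 :=
  div_ne_zero (io_ne ha) (io_ne hb)

lemma logDeriv_quot {a b : EN} (ha : a ≠ 0) (hb : b ≠ 0) :
    ∀ᶠ z in codiscrete ℂ, logDeriv (rep (io a / io b)) z
      = (logDeriv a.1 + -logDeriv b.1) z := by
  filter_upwards [eventually_germ (io_div_rep a b hb), EN.eventually_ne ha, EN.eventually_ne hb]
    with z h1 h2 h3
  rw [logDeriv_apply, h1.deriv_eq, h1.eq_of_nhds, ← logDeriv_apply]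
  have h4 : a.1 / b.1 = fun z => a.1 z / b.1 z := rfl
  rw [h4, logDeriv_div z h2 h3 (a.2 z) (b.2 z)]
  rw [Pi.add_apply, Pi.neg_apply, sub_eq_add_neg]

lemma logCounting_logDeriv_quot {a b : EN} (ha : a ≠ 0) (hb : b ≠ 0) {r : ℝ} (hr : 1 ≤ r) :
    logCounting (logDeriv (rep (io a / io b))) ⊤ r
      ≤ logCounting (logDeriv a.1) ⊤ r + logCounting (logDeriv b.1) ⊤ r := by
  rw [logCounting_congr_codiscrete (logDeriv_quot ha hb)]
  have h1 := logCounting_add_top_le (f₁ := logDeriv a.1) (f₂ := -logDeriv b.1)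
    (EN.mer a).logDeriv (EN.mer b).logDeriv.neg hr
  rw [Pi.add_apply, logCounting_neg_top (EN.mer b).logDeriv] at h1
  exact h1

/-- the main term -/
noncomputable def MM {N k : ℕ} (f : Fin k → EN) (q : Fin k → Fin N → EN) (r : ℝ) : ℝ :=
  ∑ j, logCounting (logDeriv (f j).1) ⊤ r + ∑ j, characteristic (vec (q j)) ⊤ r

/-- the error term -/
noncomputable def SS {N k : ℕ} (f : Fin k → EN) (q : Fin k → Fin N → EN) (r : ℝ) : ℝ :=
  1 + log r + log⁺ (TC f r) + log⁺ (MM f q r)

section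

variable {N k d : ℕ} (f : Fin k → EN) (q : Fin k → Fin N → EN)

lemma count_le_MM (j : Fin k) {r : ℝ} (hr : 1 ≤ r) :
    logCounting (logDeriv (f j).1) ⊤ r ≤ MM f q r := by
  have h1 : logCounting (logDeriv (f j).1) ⊤ r ≤ ∑ j, logCounting (logDeriv (f j).1) ⊤ r :=
    Finset.single_le_sum (f := fun j => logCounting (logDeriv (f j).1) ⊤ r)
      (fun j _ => logCounting_nonneg hr) (Finset.mem_univ j)
  have h2 : 0 ≤ ∑ j, characteristic (vec (q j)) ⊤ r :=
    Finset.sum_nonneg fun j _ => characteristic_nonneg hr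
  rw [MM]
  linarith

lemma char_le_MM (j : Fin k) {r : ℝ} (hr : 1 ≤ r) :
    characteristic (vec (q j)) ⊤ r ≤ MM f q r := by
  have h1 : characteristic (vec (q j)) ⊤ r ≤ ∑ j, characteristic (vec (q j)) ⊤ r :=
    Finset.single_le_sum (f := fun j => characteristic (vec (q j)) ⊤ r)
      (fun j _ => characteristic_nonneg hr) (Finset.mem_univ j)
  have h2 : 0 ≤ ∑ j, logCounting (logDeriv (f j).1) ⊤ r :=
    Finset.sum_nonneg fun j _ => logCounting_nonneg hr
  rw [MM]
  linarith

lemma MM_nonneg {r : ℝ} (hr : 1 ≤ r) : 0 ≤ MM f q r := by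
  rw [MM]
  exact add_nonneg (Finset.sum_nonneg fun j _ => logCounting_nonneg hr)
    (Finset.sum_nonneg fun j _ => characteristic_nonneg hr)

lemma gauge : Gauge (MM f q) (SS f q) where
  hM := by
    filter_upwards [eventually_one_le_ff] with r hr
    exact MM_nonneg f q hr
  hS := by
    filter_upwards [eventually_one_le_ff] with r hr
    have h1 := Real.log_nonneg hr
    have h2 : 0 ≤ log⁺ (TC f r) := posLog_nonneg
    have h3 : 0 ≤ log⁺ (MM f q r) := posLog_nonneg
    rw [SS]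
    linarith
  hlog := by
    filter_upwards [eventually_one_le_ff] with r hr
    have h2 : 0 ≤ log⁺ (TC f r) := posLog_nonneg
    have h3 : 0 ≤ log⁺ (MM f q r) := posLog_nonneg
    rw [SS]
    linarith
  hSM := by
    filter_upwards [eventually_one_le_ff] with r hr
    have h1 := Real.log_nonneg hr
    have h2 : 0 ≤ log⁺ (TC f r) := posLog_nonneg
    rw [SS]
    linarith

lemma q_mem (j : Fin k) (i : Fin N) : io (q j i) ∈ BB (MM f q) (SS f q) 1 := by
  refine ⟨0, le_rfl, ?_⟩
  filter_upwards [eventually_one_le_ff] with r hr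
  rw [T_congr (rep_io (q j i)) hr, characteristic, Pi.add_apply, EN.logCounting_top]
  have h1 : proximity (q j i).1 ⊤ r ≤ proximity (vec (q j)) ⊤ r := by
    rw [proximity_top, proximity_top]
    apply circleAverage_mono
    · exact (EN.mer (q j i)).meromorphicOn.circleIntegrable_posLog_norm
    · exact MeromorphicOn.circleIntegrable_posLog_norm (f := vec (q j))
        fun z _ => ((vec_diff (q j)).analyticAt z).meromorphicAt
    · intro z _
      exact posLog_le_posLog (norm_nonneg _) (norm_le_pi_norm (vec (q j) z) i)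
  have h2 := char_le_MM f q j hr
  rw [characteristic, Pi.add_apply] at h2
  have h3 := logCounting_nonneg (f := vec (q j)) (e := ⊤) hr
  simp only [Pi.zero_apply]
  push_cast
  linarith

lemma ld_mem (i j : Fin k) (hi : f i ≠ 0) (hj : f j ≠ 0) :
    DK (io (f i) / io (f j)) / (io (f i) / io (f j)) ∈ BB (MM f q) (SS f q) 2 := by
  obtain ⟨K, hK, hld⟩ := T_logDeriv (EN.div_ne hi hj)
  obtain ⟨C, hC, hquot⟩ := T_quot_le f i j hj
  refine ⟨K * (3 + log 2 + log⁺ C), ?_, ?_⟩
  · have h1 : 0 ≤ log 2 := Real.log_nonneg (by norm_num)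
    have h2 : 0 ≤ log⁺ C := posLog_nonneg
    positivity
  filter_upwards [hld, eventually_one_le_ff, (gauge f q).hS, (gauge f q).hlog]
    with r h1 hr h2 h3
  have h4 := logCounting_logDeriv_quot hi hj hr
  have h5 := count_le_MM f q i hr
  have h6 := count_le_MM f q j hr
  have h7 : log⁺ (T (io (f i) / io (f j)) r) ≤ log 2 + log⁺ (TC f r) + log⁺ C :=
    (posLog_le_posLog (T_nonneg _ hr) (hquot r hr)).trans posLog_add
  have h8 : log⁺ (TC f r) ≤ SS f q r := by
    have h9 := Real.log_nonneg hr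
    have h10 : 0 ≤ log⁺ (MM f q r) := posLog_nonneg
    rw [SS]
    linarith
  have h11 : 0 ≤ log 2 := Real.log_nonneg (by norm_num)
  have h12 : 0 ≤ log⁺ C := posLog_nonneg
  have h13 : 1 + log⁺ (T (io (f i) / io (f j)) r) + log r
      ≤ (3 + log 2 + log⁺ C) * SS f q r := by nlinarith
  have h14 := mul_le_mul_of_nonneg_left h13 hK
  push_cast
  linarith

end

lemma mul_posLog_le (C : ℝ) (hC : 0 ≤ C) : ∃ C' : ℝ, ∀ m : ℝ, 0 ≤ m → C * log⁺ m ≤ m + C' := by
  refine ⟨C * log (C + 1) + C, fun m hm => ?_⟩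
  have h0 : 0 ≤ log (C + 1) := Real.log_nonneg (by linarith)
  by_cases h1 : m ≤ 1
  · have : log⁺ m = 0 := by
      rw [posLog_eq_zero_iff, abs_of_nonneg hm]; exact h1
    rw [this, mul_zero]
    have := mul_nonneg hC h0
    linarith
  · push Not at h1
    rw [posLog_eq_log (by rw [abs_of_nonneg hm]; exact h1.le)]
    have h2 := Real.log_le_sub_one_of_pos (x := m / (C + 1)) (by positivity)
    rw [Real.log_div (by positivity) (by positivity)] at h2
    have h3 : C * (m / (C + 1)) ≤ m := by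
      rw [mul_div_assoc', div_le_iff₀ (by positivity)]
      nlinarith
    nlinarith

/-- **Second main theorem** -/
theorem smt (N k d : ℕ) : ∃ C : ℝ, 0 ≤ C ∧ ∀ (e : ℕ) (x : mons N d → ℂ), Good e x →
    (∀ a : Fin k → ℕ, ∃ b : Fin k → ℕ, SameType d a b ∧ ∀ j, b j ≤ e) →
    ∀ (f : Fin k → EN) (q : Fin k → Fin N → EN) (g : Fin N → EN),
    (∀ i, g i = ∑ j, f j * q j i) → (∀ z, vec g z ≠ 0) →
    (∀ z, MvPolynomial.eval (vec g z) (Fm x) = 0) →
    ∃ K : ℝ, 0 ≤ K ∧ ∀ᶠ r in ff, TC g r ≤ C * MM f q r + K * (1 + log r + log⁺ (TC f r)) := by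
  classical
  obtain ⟨C₁, hC₁⟩ := core N k d
  refine ⟨N * C₁ + 1, by positivity, fun e x hx he f q g hg hg0 hgF => ?_⟩
  have hG := gauge f q
  have hfilt := filt hG
  obtain ⟨i₀, hi₀⟩ : ∃ i₀, g i₀ ≠ 0 := by
    by_contra hcon
    push Not at hcon
    exact hg0 0 (funext fun i => by rw [vec, hcon i]; rfl)
  have hmem := fun i => hC₁ e x hx he (BB (MM f q) (SS f q)) hfilt f q g (q_mem f q)
    (ld_mem f q) hgF _ (Finset.univ.filter fun j => f j ≠ 0) rfl
    (fun j hj => (Finset.mem_filter.mp hj).2) 1 one_ne_zero (by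
      intro i
      rw [one_mul, hg i, map_sum]
      apply Finset.sum_filter_of_ne
      intro j _ hj h0
      apply hj
      rw [h0, zero_mul, map_zero]) i i₀ hi₀
  choose c hc0 hc using hmem
  obtain ⟨C', hC', hTC⟩ := TC_le g hg0 i₀ hi₀
  obtain ⟨C'', hC''⟩ := mul_posLog_le (∑ i, c i + C') (by
    have := Finset.sum_nonneg (s := Finset.univ) fun i _ => hc0 i
    linarith)
  have hsumc : 0 ≤ ∑ i, c i := Finset.sum_nonneg (s := Finset.univ) fun i _ => hc0 i
  refine ⟨(∑ i, c i + C') + |C''|, by positivity, ?_⟩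
  have hall : ∀ᶠ r in ff, ∀ i, T (io (g i) / io (g i₀)) r ≤ C₁ * MM f q r + c i * SS f q r :=
    eventually_all.mpr hc
  filter_upwards [hall, eventually_one_le_ff, hG.hS] with r h1 hr hS
  have h2 := hTC r hr
  have h3 : ∑ i, T (io (g i) / io (g i₀)) r ≤ ∑ i : Fin N, (C₁ * MM f q r + c i * SS f q r) :=
    Finset.sum_le_sum fun i _ => h1 i
  have hsm : ∑ i, c i * SS f q r = (∑ i, c i) * SS f q r := (Finset.sum_mul _ _ _).symm
  rw [Finset.sum_add_distrib, hsm, Finset.sum_const, Finset.card_univ,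
    Fintype.card_fin, nsmul_eq_mul] at h3
  have hM := MM_nonneg f q hr
  have h4 := hC'' (MM f q r) hM
  have h5 : (∑ i, c i + C') * SS f q r = (∑ i, c i + C') * (1 + log r + log⁺ (TC f r))
      + (∑ i, c i + C') * log⁺ (MM f q r) := by rw [SS]; ring
  have h6 : C' ≤ C' * SS f q r := by nlinarith
  have h7 : 0 ≤ log r := Real.log_nonneg hr
  have h8 : 0 ≤ log⁺ (TC f r) := posLog_nonneg
  have h9 : C'' ≤ |C''| * (1 + log r + log⁺ (TC f r)) := by
    have := le_abs_self C''
    have := abs_nonneg C''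
    nlinarith
  nlinarith

end Pool.Agent.H13.Nev
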