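import Pool.Agent.H13.Nev.SinInt

/-!
# Logarithmic derivatives: the zero-free part and the rational part
-/

namespace Pool.Agent.H13.Nev

open MeasureTheory Set Real Metric Filter Topology

/-- the logarithmic derivative of a zero-free function -/
lemma norm_logDeriv_le {ρ : ℝ} (hρ : 0 < ρ) {v : ℂ → ℂ}
    (hv : AnalyticOnNhd ℂ v (closedBall 0 ρ)) (hv0 : ∀ z ∈ closedBall (0 : ℂ) ρ, v z ≠ 0)
    {w : ℂ} (hw : w ∈ ball (0 : ℂ) ρ) :
    ‖logDeriv v w‖ ≤ 2 * ρ / (ρ - ‖w‖) ^ 2 * circleAverage (fun z => |log ‖v z‖|) 0 ρ := by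
  set h : ℂ → ℝ := fun z => log ‖v z‖ with hh
  have hharm : InnerProductSpace.HarmonicOnNhd h (closedBall 0 ρ) := fun x hx =>
    (hv x hx).harmonicAt_log_norm (hv0 x hx)
  have hcont : ContinuousOn h (closedBall 0 ρ) := by
    intro z hz
    have h1 : ContinuousAt v z := (hv z hz).continuousAt
    exact (ContinuousAt.log h1.norm (norm_ne_zero_iff.mpr (hv0 z hz))).continuousWithinAt
  have hsph : sphere (0 : ℂ) |ρ| ⊆ closedBall 0 ρ := by
    rw [abs_of_pos hρ]; exact sphere_subset_closedBall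
  have hint : CircleIntegrable h 0 ρ := (hcont.mono hsph).circleIntegrable'
  have hintC : CircleIntegrable (fun ζ => (h ζ : ℂ)) 0 ρ := by
    apply ContinuousOn.circleIntegrable'
    exact Complex.continuous_ofReal.comp_continuousOn (hcont.mono hsph)
  set H : ℂ → ℂ := fun w => circleAverage (fun ζ => herglotzRieszKernel 0 w ζ • (h ζ : ℂ)) 0 ρ
    with hH
  have hHd : ∀ w ∈ ball (0 : ℂ) ρ, HasDerivAt H
      (circleAverage (fun ζ => (2 * ζ / (ζ - w) ^ 2) • (h ζ : ℂ)) 0 ρ) w := fun w hw =>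
    hasDerivAt_circleAverage_herglotzRieszKernel_smul hintC hw
  have hHre : ∀ w ∈ ball (0 : ℂ) ρ, (H w).re = h w := by
    intro w hw
    rw [hH]
    simp only
    rw [re_circleAverage_herglotzRieszKernel_smul hint hw,
      hharm.circleAverage_re_herglotzRieszKernel_smul hw]
  -- the quotient has modulus one
  set G : ℂ → ℂ := fun w => v w * Complex.exp (-H w) with hG
  have hball : ball (0 : ℂ) ρ ⊆ closedBall 0 ρ := ball_subset_closedBall
  have hGn : ∀ w ∈ ball (0 : ℂ) ρ, ‖G w‖ = 1 := by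
    intro w hw
    rw [hG]
    simp only
    rw [norm_mul, Complex.norm_exp, Complex.neg_re, hHre w hw, hh]
    simp only
    rw [Real.exp_neg, Real.exp_log (norm_pos_iff.mpr (hv0 w (hball hw)))]
    exact mul_inv_cancel₀ (norm_ne_zero_iff.mpr (hv0 w (hball hw)))
  have hGd : DifferentiableOn ℂ G (ball 0 ρ) := by
    intro w hw
    exact ((hv w (hball hw)).differentiableAt.mul
      (hHd w hw).differentiableAt.neg.cexp).differentiableWithinAt
  have hGc : EqOn G (Function.const ℂ (G w)) (ball 0 ρ) := by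
    apply Complex.eqOn_of_isPreconnected_of_isMaxOn_norm (convex_ball _ _).isPreconnected
      isOpen_ball hGd hw
    intro z hz
    simp only [Function.comp_apply, mem_ofPred_eq, hGn z hz, hGn w hw, le_refl]
  have hderiv : logDeriv v w
      = circleAverage (fun ζ => (2 * ζ / (ζ - w) ^ 2) • (h ζ : ℂ)) 0 ρ := by
    have h1 : HasDerivAt G (deriv v w * Complex.exp (-H w) + v w * (Complex.exp (-H w) *
        -(circleAverage (fun ζ => (2 * ζ / (ζ - w) ^ 2) • (h ζ : ℂ)) 0 ρ))) w :=
      (hv w (hball hw)).differentiableAt.hasDerivAt.mul (hHd w hw).neg.cexp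
    have h2 : HasDerivAt G 0 w := by
      have h3 : G =ᶠ[𝓝 w] fun _ => G w := by
        filter_upwards [isOpen_ball.mem_nhds hw] with z hz
        exact hGc hz
      exact (hasDerivAt_const w (G w)).congr_of_eventuallyEq h3
    have h3 := h1.unique h2
    have h4 := Complex.exp_ne_zero (-H w)
    have h5 := hv0 w (hball hw)
    rw [logDeriv_apply]
    field_simp
    have h6 : Complex.exp (-H w) * (deriv v w - v w *
        circleAverage (fun ζ => (2 * ζ / (ζ - w) ^ 2) • (h ζ : ℂ)) 0 ρ) = 0 := by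
      linear_combination h3
    have h7 := (mul_eq_zero.mp h6).resolve_left h4
    linear_combination h7
  rw [hderiv, circleAverage_def, circleAverage_def, norm_smul, smul_eq_mul, norm_inv,
    Real.norm_of_nonneg (by positivity : (0 : ℝ) ≤ 2 * π)]
  rw [mul_left_comm]
  apply mul_le_mul_of_nonneg_left _ (by positivity)
  rw [← intervalIntegral.integral_const_mul]
  apply intervalIntegral.norm_integral_le_of_norm_le (by positivity)
  · filter_upwards with θ _
    simp only [hh]
    rw [norm_smul, Complex.norm_real, Real.norm_eq_abs]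
    apply mul_le_mul_of_nonneg_right _ (abs_nonneg _)
    rw [norm_div, norm_mul, norm_circleMap_zero, abs_of_pos hρ, norm_pow, Complex.norm_ofNat]
    have hw' : ‖w‖ < ρ := by simpa using hw
    have h8 : ρ - ‖w‖ ≤ ‖circleMap 0 ρ θ - w‖ := by
      have := norm_sub_norm_le (circleMap 0 ρ θ) w
      rwa [norm_circleMap_zero, abs_of_pos hρ] at this
    apply div_le_div_of_nonneg_left (by positivity)
    · have : 0 < ρ - ‖w‖ := by linarith
      positivity
    · apply pow_le_pow_left₀ _ h8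
      linarith
  · exact (IntervalIntegrable.abs hint).const_mul _

/-- the mean of `log⁺` of a sum of simple fractions -/
lemma circleAverage_posLog_sum_le {r : ℝ} (hr : 1 ≤ r) (S : Finset ℂ) (D : ℂ → ℤ) :
    circleAverage (fun z => log⁺ ‖∑ u ∈ S, (D u : ℂ) * (z - u)⁻¹‖) 0 r
      ≤ 2 * log (1 + c0 * ∑ u ∈ S, |(D u : ℝ)|) := by
  set c : ℝ := 1 + c0 * ∑ u ∈ S, |(D u : ℝ)| with hc
  have hsum : 0 ≤ ∑ u ∈ S, |(D u : ℝ)| := Finset.sum_nonneg fun _ _ => abs_nonneg _
  have hc1 : 1 ≤ c := by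
    have := mul_nonneg c0_nonneg hsum
    linarith
  have hc0 : 0 < c := by linarith
  set B : ℂ → ℂ → ℝ := fun u z => ‖z - u‖ ^ (-(1 / 2) : ℝ) with hB
  have hB0 : ∀ u z, 0 ≤ B u z := fun u z => Real.rpow_nonneg (norm_nonneg _) _
  have hB2 : ∀ u z, ‖(z - u)⁻¹‖ = B u z ^ 2 := by
    intro u z
    rw [norm_inv, hB]
    simp only
    rw [← Real.rpow_natCast, ← Real.rpow_mul (norm_nonneg _)]
    norm_num
    rw [Real.rpow_neg_one]
  have hpt : ∀ z, log⁺ ‖∑ u ∈ S, (D u : ℂ) * (z - u)⁻¹‖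
      ≤ 2 * (c⁻¹ * (1 + ∑ u ∈ S, |(D u : ℝ)| * B u z) + (log c - 1)) := by
    intro z
    set Y := ∑ u ∈ S, |(D u : ℝ)| * B u z with hY
    have hY0 : 0 ≤ Y := Finset.sum_nonneg fun u _ => mul_nonneg (abs_nonneg _) (hB0 u z)
    have h1 : ‖∑ u ∈ S, (D u : ℂ) * (z - u)⁻¹‖ ≤ (1 + Y) ^ 2 := by
      have h2 : ‖∑ u ∈ S, (D u : ℂ) * (z - u)⁻¹‖ ≤ ∑ u ∈ S, (|(D u : ℝ)| * B u z) ^ 2 := by
        refine (norm_sum_le _ _).trans (Finset.sum_le_sum fun u _ => ?_)
        rw [norm_mul, hB2, mul_pow]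
        apply mul_le_mul_of_nonneg_right _ (by positivity)
        rw [Complex.norm_intCast]
        rcases eq_or_ne (D u) 0 with h | h
        · simp [h]
        · have h3 : (1 : ℝ) ≤ |(D u : ℝ)| := by
            have : (1 : ℤ) ≤ |D u| := Int.one_le_abs h
            exact_mod_cast this
          nlinarith [abs_nonneg (D u : ℝ)]
      have h3 : ∑ u ∈ S, (|(D u : ℝ)| * B u z) ^ 2 ≤ Y ^ 2 :=
        Finset.sum_sq_le_sq_sum_of_nonneg fun u _ => mul_nonneg (abs_nonneg _) (hB0 u z)
      nlinarith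
    have h2 : log⁺ ‖∑ u ∈ S, (D u : ℂ) * (z - u)⁻¹‖ ≤ 2 * log (1 + Y) := by
      refine (posLog_le_posLog (norm_nonneg _) h1).trans ?_
      rw [posLog_pow, posLog_eq_log (by rw [abs_of_nonneg (by positivity)]; linarith)]
      norm_num
    have h3 : log (1 + Y) ≤ c⁻¹ * (1 + Y) + (log c - 1) := by
      have h4 := Real.log_le_sub_one_of_pos (x := (1 + Y) / c) (by positivity)
      rw [Real.log_div (by positivity) (by positivity)] at h4
      rw [inv_mul_eq_div]
      linarith
    linarith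
  have hBi : ∀ u ∈ S, CircleIntegrable (fun z => |(D u : ℝ)| * B u z) 0 r := by
    intro u _
    exact (circleIntegrable_rpow hr u).const_fun_smul (a := |(D u : ℝ)|)
  have hYi : CircleIntegrable (fun z => ∑ u ∈ S, |(D u : ℝ)| * B u z) 0 r :=
    CircleIntegrable.fun_sum S hBi
  have hconst : ∀ a : ℝ, CircleIntegrable (fun _ : ℂ => a) 0 r := fun a =>
    circleIntegrable_const a 0 r
  have hi1 : CircleIntegrable (fun z => c⁻¹ * (1 + ∑ u ∈ S, |(D u : ℝ)| * B u z)) 0 r := by
    have := ((hconst 1).add hYi).const_fun_smul (a := c⁻¹)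
    simpa [smul_eq_mul] using this
  have hi2 : CircleIntegrable (fun z => c⁻¹ * (1 + ∑ u ∈ S, |(D u : ℝ)| * B u z)
      + (log c - 1)) 0 r := hi1.add (hconst _)
  have hi3 : CircleIntegrable (fun z => 2 * (c⁻¹ * (1 + ∑ u ∈ S, |(D u : ℝ)| * B u z)
      + (log c - 1))) 0 r := by
    have := hi2.const_fun_smul (a := (2 : ℝ))
    simpa [smul_eq_mul] using this
  have hi0 : CircleIntegrable (fun z => log⁺ ‖∑ u ∈ S, (D u : ℂ) * (z - u)⁻¹‖) 0 r := by
    apply MeromorphicOn.circleIntegrable_posLog_norm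
    intro z _
    fun_prop
  calc circleAverage (fun z => log⁺ ‖∑ u ∈ S, (D u : ℂ) * (z - u)⁻¹‖) 0 r
      ≤ circleAverage (fun z => 2 * (c⁻¹ * (1 + ∑ u ∈ S, |(D u : ℝ)| * B u z)
          + (log c - 1))) 0 r := circleAverage_mono hi0 hi3 (fun z _ => hpt z)
    _ = 2 * (c⁻¹ * (1 + ∑ u ∈ S, |(D u : ℝ)| * circleAverage (B u) 0 r) + (log c - 1)) := by
        have e1 : circleAverage (fun z => 2 * (c⁻¹ * (1 + ∑ u ∈ S, |(D u : ℝ)| * B u z)
            + (log c - 1))) 0 r = 2 * circleAverage (fun z =>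
              (c⁻¹ * (1 + ∑ u ∈ S, |(D u : ℝ)| * B u z) + (log c - 1))) 0 r := by
          have := circleAverage_fun_smul (a := (2 : ℝ)) (c := 0) (R := r) (f := fun z =>
              (c⁻¹ * (1 + ∑ u ∈ S, |(D u : ℝ)| * B u z) + (log c - 1)))
          simpa [smul_eq_mul] using this
        have e2 : circleAverage (fun z =>
              (c⁻¹ * (1 + ∑ u ∈ S, |(D u : ℝ)| * B u z) + (log c - 1))) 0 r
            = circleAverage (fun z => c⁻¹ * (1 + ∑ u ∈ S, |(D u : ℝ)| * B u z)) 0 r
              + (log c - 1) := by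
          rw [circleAverage_fun_add hi1 (hconst _), circleAverage_const]
        have e3 : circleAverage (fun z => c⁻¹ * (1 + ∑ u ∈ S, |(D u : ℝ)| * B u z)) 0 r
            = c⁻¹ * circleAverage (fun z => (1 + ∑ u ∈ S, |(D u : ℝ)| * B u z)) 0 r := by
          have := circleAverage_fun_smul (a := c⁻¹) (c := 0) (R := r) (f := fun z =>
              (1 + ∑ u ∈ S, |(D u : ℝ)| * B u z))
          simpa [smul_eq_mul] using this
        have e4 : circleAverage (fun z => (1 + ∑ u ∈ S, |(D u : ℝ)| * B u z)) 0 r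
            = 1 + ∑ u ∈ S, circleAverage (fun z => |(D u : ℝ)| * B u z) 0 r := by
          rw [circleAverage_fun_add (hconst 1) hYi, circleAverage_const,
            circleAverage_fun_sum hBi]
        have e5 : ∀ u, circleAverage (fun z => |(D u : ℝ)| * B u z) 0 r
            = |(D u : ℝ)| * circleAverage (B u) 0 r := by
          intro u
          have := circleAverage_fun_smul (a := |(D u : ℝ)|) (c := 0) (R := r) (f := B u)
          simpa [smul_eq_mul] using this
        rw [e1, e2, e3, e4]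
        simp only [e5]
    _ ≤ 2 * (c⁻¹ * c + (log c - 1)) := by
        have h1 : ∑ u ∈ S, |(D u : ℝ)| * circleAverage (B u) 0 r
            ≤ c0 * ∑ u ∈ S, |(D u : ℝ)| := by
          rw [Finset.mul_sum]
          apply Finset.sum_le_sum
          intro u _
          rw [mul_comm]
          exact mul_le_mul_of_nonneg_right (circleAverage_rpow_le hr u) (abs_nonneg _)
        have h2 : c⁻¹ * (1 + ∑ u ∈ S, |(D u : ℝ)| * circleAverage (B u) 0 r) ≤ c⁻¹ * c := by
          apply mul_le_mul_of_nonneg_left _ (by positivity)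
          linarith
        linarith
    _ = 2 * log c := by
        rw [inv_mul_cancel₀ hc0.ne']
        ring

/-- codiscretely equal functions have equal germs at codiscretely many interior points -/
lemma eventually_nhds_eq {f g : ℂ → ℂ} {U V : Set ℂ} (h : f =ᶠ[codiscreteWithin U] g)
    (hV : V ⊆ interior U) : ∀ᶠ z in codiscreteWithin V, f =ᶠ[𝓝 z] g := by
  rw [Filter.Eventually, mem_codiscreteWithin_iff_forall_mem_nhdsNE]
  intro z hz
  have h1 := (mem_codiscreteWithin_iff_forall_mem_nhdsNE.mp h) z (interior_subset (hV hz))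
  have h2 : ∀ᶠ w in 𝓝[≠] z, f w = g w := by
    have h3 : interior U ∈ 𝓝[≠] z := mem_nhdsWithin_of_mem_nhds
      (isOpen_interior.mem_nhds (hV hz))
    filter_upwards [h1, h3] with w hw hw'
    rcases hw with hw | hw
    · exact hw
    · exact absurd (interior_subset hw') hw
  have h3 : ∀ᶠ w in 𝓝[≠] z, ∀ᶠ y in 𝓝[≠] z ⊓ 𝓝 w, f y = g y := by
    filter_upwards [self_mem_nhdsWithin] with w _
    exact h2.filter_mono inf_le_left
  have h4 : ∀ᶠ w in 𝓝[≠] z, ∀ᶠ y in 𝓝[≠] w, f y = g y := by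
    rw [eventually_nhdsWithin_iff] at h2 ⊢
    have h5 := eventually_eventually_nhds.mpr h2
    filter_upwards [h5] with w hw hwz
    have hwz' : w ≠ z := hwz
    have h6 : ∀ᶠ y in 𝓝 w, y ≠ z := isOpen_ne.mem_nhds hwz'
    have h7 : ∀ᶠ y in 𝓝 w, f y = g y := by
      filter_upwards [hw, h6] with y hy hy'
      exact hy hy'
    exact h7.filter_mono nhdsWithin_le_nhds
  have h5 : ∀ᶠ w in 𝓝[≠] z, f =ᶠ[𝓝 w] g := by
    filter_upwards [h4, h2] with w hw hw'
    have : ∀ᶠ y in 𝓝 w, y ≠ w → f y = g y := eventually_nhdsWithin_iff.mp hw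
    filter_upwards [this] with y hy
    by_cases hyw : y = w
    · rw [hyw]; exact hw'
    · exact hy hyw
  filter_upwards [h5] with w hw
  exact Or.inl hw

end Pool.Agent.H13.Nev
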